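import Mathlib

/-!
# Sublinear spanners: basic notions

`Nr G m x y`: there is a walk of length at most `m` from `x` to `y` in `G`.
`gr F`: the graph with edge set `F`.
`Geo G g m`: `g 0, g 1, .., g m` is a geodesic of `G`.
`pos s m t = min (t * s) m`: cut points of a geodesic of length `m` into pieces of length `s`.
-/

namespace Pool.Agent.H59.SP

open Finset

variable {V : Type*}

/-- `x` and `y` are joined in `G` by a walk of length at most `m`. -/
def Nr (G : SimpleGraph V) (m : ℕ) (x y : V) : Prop := ∃ p : G.Walk x y, p.length ≤ m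

variable {G H : SimpleGraph V} {m a b : ℕ} {x y z : V}

theorem Nr.refl (G : SimpleGraph V) (m : ℕ) (x : V) : Nr G m x x :=
  ⟨SimpleGraph.Walk.nil, by simp⟩

theorem Nr.symm (h : Nr G m x y) : Nr G m y x := by
  obtain ⟨p, hp⟩ := h
  exact ⟨p.reverse, by simpa using hp⟩

theorem Nr.trans (h : Nr G a x y) (h' : Nr G b y z) : Nr G (a + b) x z := by
  obtain ⟨p, hp⟩ := h
  obtain ⟨p', hp'⟩ := h'
  exact ⟨p.append p', by rw [SimpleGraph.Walk.length_append]; omega⟩

theorem Nr.mono (h : Nr G a x y) (hab : a ≤ b) : Nr G b x y := by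
  obtain ⟨p, hp⟩ := h
  exact ⟨p, hp.trans hab⟩

theorem Nr.mono_graph (h : Nr G m x y) (hGH : G ≤ H) : Nr H m x y := by
  obtain ⟨p, hp⟩ := h
  exact ⟨p.mapLe hGH, by simpa using hp⟩

theorem Nr.of_adj (h : G.Adj x y) : Nr G 1 x y := ⟨h.toWalk, by simp⟩

theorem nr_zero_iff : Nr G 0 x y ↔ x = y := by
  constructor
  · rintro ⟨p, hp⟩
    exact SimpleGraph.Walk.eq_of_length_eq_zero (p := p) (by omega)
  · rintro rfl
    exact Nr.refl G 0 x

theorem nr_one_iff : Nr G 1 x y ↔ x = y ∨ G.Adj x y := by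
  constructor
  · rintro ⟨p, hp⟩
    rcases Nat.lt_or_ge p.length 1 with h | h
    · exact Or.inl (SimpleGraph.Walk.eq_of_length_eq_zero (p := p) (by omega))
    · exact Or.inr (SimpleGraph.Walk.adj_of_length_eq_one (p := p) (by omega))
  · rintro (rfl | h)
    · exact Nr.refl G 1 x
    · exact Nr.of_adj h

theorem Nr.reachable (h : Nr G m x y) : G.Reachable x y := by
  obtain ⟨p, -⟩ := h
  exact p.reachable

theorem Nr.dist_le (h : Nr G m x y) : G.dist x y ≤ m := by
  obtain ⟨p, hp⟩ := h
  exact (SimpleGraph.dist_le p).trans hp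

theorem nr_of_reachable (h : G.Reachable x y) : Nr G (G.dist x y) x y := by
  obtain ⟨p, hp⟩ := h.exists_walk_length_eq_dist
  exact ⟨p, hp.le⟩

theorem nr_iff : Nr G m x y ↔ G.Reachable x y ∧ G.dist x y ≤ m :=
  ⟨fun h => ⟨h.reachable, h.dist_le⟩, fun h => (nr_of_reachable h.1).mono h.2⟩

/-- The graph with edge set `F`. -/
def gr (F : Finset (Sym2 V)) : SimpleGraph V := SimpleGraph.fromEdgeSet (F : Set (Sym2 V))

theorem gr_mono {F F' : Finset (Sym2 V)} (h : F ⊆ F') : gr F ≤ gr F' :=
  SimpleGraph.fromEdgeSet_mono (by exact_mod_cast h)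

theorem gr_adj {F : Finset (Sym2 V)} : (gr F).Adj x y ↔ s(x, y) ∈ F ∧ x ≠ y := by
  simp [gr]

theorem gr_le {F : Finset (Sym2 V)} (h : (F : Set (Sym2 V)) ⊆ G.edgeSet) : gr F ≤ G := by
  intro x y hxy
  rw [gr_adj] at hxy
  exact (SimpleGraph.mem_edgeSet G).1 (h hxy.1)

/-- `g 0, g 1, .., g m` is a geodesic of `G`. -/
structure Geo (G : SimpleGraph V) (g : ℕ → V) (m : ℕ) : Prop where
  near : ∀ a b, a ≤ b → b ≤ m → Nr G (b - a) (g a) (g b)
  far : ∀ a b q, a ≤ b → b ≤ m → Nr G q (g a) (g b) → b - a ≤ q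

theorem exists_geo (h : G.Reachable x y) :
    ∃ g : ℕ → V, g 0 = x ∧ g (G.dist x y) = y ∧ Geo G g (G.dist x y) := by
  obtain ⟨p, hp⟩ := h.exists_walk_length_eq_dist
  have hnear : ∀ a b, a ≤ b → b ≤ G.dist x y → Nr G (b - a) (p.getVert a) (p.getVert b) := by
    intro a b hab hb
    have h1 : ((p.drop a).take (b - a)).length ≤ b - a := by
      rw [SimpleGraph.Walk.take_length]
      exact min_le_left _ _
    have h2 : (p.drop a).getVert (b - a) = p.getVert b := by
      rw [SimpleGraph.Walk.drop_getVert]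
      congr 1
      omega
    exact ⟨((p.drop a).take (b - a)).copy rfl h2, by simpa using h1⟩
  refine ⟨p.getVert, by simp, by rw [← hp]; simp, hnear, ?_⟩
  intro a b q hab hb hq
  have h1 : Nr G a x (p.getVert a) := by
    simpa using hnear 0 a (Nat.zero_le _) (hab.trans hb)
  have h2 : Nr G (G.dist x y - b) (p.getVert b) y := by
    have := hnear b (G.dist x y) hb le_rfl
    rwa [← hp, SimpleGraph.Walk.getVert_length, hp] at this
  have h3 := ((h1.trans hq).trans h2).dist_le
  omega

/-- A chosen geodesic from `x` to `y`. -/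
noncomputable def geo (G : SimpleGraph V) (x y : V) : ℕ → V := by
  classical
  exact if h : G.Reachable x y then Classical.choose (exists_geo h) else fun _ => x

theorem geo_zero (h : G.Reachable x y) : geo G x y 0 = x := by
  classical
  unfold geo
  rw [dif_pos h]
  exact (Classical.choose_spec (exists_geo h)).1

theorem geo_dist (h : G.Reachable x y) : geo G x y (G.dist x y) = y := by
  classical
  unfold geo
  rw [dif_pos h]
  exact (Classical.choose_spec (exists_geo h)).2.1

theorem geo_geo (h : G.Reachable x y) : Geo G (geo G x y) (G.dist x y) := by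
  classical
  unfold geo
  rw [dif_pos h]
  exact (Classical.choose_spec (exists_geo h)).2.2

/-- Cut points of `[0, m]` into pieces of length `s`. -/
def pos (s m t : ℕ) : ℕ := min (t * s) m

@[simp] theorem pos_zero (s m : ℕ) : pos s m 0 = 0 := by simp [pos]

theorem pos_le (s m t : ℕ) : pos s m t ≤ m := min_le_right _ _

theorem pos_mono (s m : ℕ) : Monotone (pos s m) := by
  intro a b hab
  exact min_le_min (Nat.mul_le_mul_right _ hab) le_rfl

theorem pos_succ_le (s m t : ℕ) : pos s m (t + 1) ≤ pos s m t + s := by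
  simp only [pos, Nat.add_mul, one_mul]
  omega

theorem pos_last {s : ℕ} (hs : 0 < s) (m : ℕ) : pos s m (m / s + 1) = m := by
  simp only [pos]
  apply min_eq_right
  have h1 := Nat.div_add_mod m s
  have h2 := Nat.mod_lt m hs
  have h3 : (m / s + 1) * s = s * (m / s) + s := by ring
  omega

theorem pos_eq {s m t : ℕ} (h : t < m / s + 1) : pos s m t = t * s := by
  simp only [pos]
  apply min_eq_left
  calc t * s ≤ (m / s) * s := Nat.mul_le_mul_right _ (by omega)
    _ ≤ m := Nat.div_mul_le_self m s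

/-- Concatenating pieces with additive error `E` each. -/
theorem chain {g : ℕ → V} {s m E : ℕ} (a b : ℕ) (hab : a ≤ b)
    (h : ∀ t, a ≤ t → t < b →
      Nr H (pos s m (t + 1) - pos s m t + E) (g (pos s m t)) (g (pos s m (t + 1)))) :
    Nr H (pos s m b - pos s m a + (b - a) * E) (g (pos s m a)) (g (pos s m b)) := by
  induction b, hab using Nat.le_induction with
  | base => exact (Nr.refl _ _ _)
  | succ b hab ih =>
    have h1 := ih (fun t ht ht' => h t ht (by omega))
    have h2 := h b hab (by omega)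
    refine (h1.trans h2).mono ?_
    have h3 := pos_mono s m hab
    have h4 := pos_mono s m (Nat.le_succ b)
    have h5 : b + 1 - a = (b - a) + 1 := by omega
    rw [h5, Nat.add_mul]
    simp only [Nat.succ_eq_add_one] at h4
    omega

/-- Number of points of `X` at distance at most `ρ` from `y`. -/
noncomputable def vol (G : SimpleGraph V) (X : Finset V) (ρ : ℕ) (y : V) : ℕ := by
  classical
  exact (X.filter (fun c => Nr G ρ y c)).card

theorem vol_le_of_subset {X : Finset V} {ρ ρ' : ℕ} {y y' : V}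
    (h : ∀ c, Nr G ρ y c → Nr G ρ' y' c) : vol G X ρ y ≤ vol G X ρ' y' := by
  classical
  unfold vol
  apply Finset.card_le_card
  intro c hc
  rw [Finset.mem_filter] at hc ⊢
  exact ⟨hc.1, h c hc.2⟩

/-- Volume comparison: if `d(y,y') ≤ q` then the `ρ`-ball at `y` is in the `ρ+q`-ball at `y'`. -/
theorem vol_le {X : Finset V} {ρ ρ' q : ℕ} {y y' : V} (h : Nr G q y' y) (hq : q + ρ ≤ ρ') :
    vol G X ρ y ≤ vol G X ρ' y' :=
  vol_le_of_subset fun _ hc => (h.trans hc).mono hq

theorem vol_le_card {X : Finset V} {ρ : ℕ} {y : V} : vol G X ρ y ≤ X.card := by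
  classical
  unfold vol
  exact Finset.card_filter_le _ _

/-- `v 0 = 1`, `v (j+1) = Δ² (v j)²`. -/
def vv (Δ : ℕ) : ℕ → ℕ
  | 0 => 1
  | j + 1 => Δ ^ 2 * vv Δ j ^ 2

/-- `H` is a multiplicative `S`-spanner of `G`. -/
def Span (G : SimpleGraph V) (S : ℕ) (H : SimpleGraph V) : Prop :=
  ∀ m x y, Nr G m x y → Nr H (S * m) x y

/-- Level-`i` statement: pairs at distance `m ≤ x ^ i` with local volume at most `vv Δ i` have
additive error at most `C * x ^ (i - 1)` in `H`. -/
def PP (G : SimpleGraph V) (X : Finset V) (Δ : ℕ) (H : SimpleGraph V) (i C : ℕ) : Prop :=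
  ∀ y y' m x, m ≤ x ^ i → Nr G m y y' → vol G X (3 * m) y ≤ vv Δ i →
    Nr H (m + C * x ^ (i - 1)) y y'

/-- A system of hubs for segments of length `s`. -/
structure HubSys (G : SimpleGraph V) (X : Finset V) where
  /-- the hubs -/
  T : Finset V
  /-- the hub near a vertex; `none` means that the vertex is free -/
  hub : V → Option V
  /-- weight of a hub -/
  w : V → ℝ
  /-- length of segments -/
  s : ℕ
  /-- jump bound -/
  J : ℕ
  /-- radius of the balls -/
  ρ : ℕ
  /-- volume unit -/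
  v : ℝ
  s_pos : 0 < s
  v_pos : 0 < v
  J_le : J ≤ 8 * s
  ρ_le : ρ ≤ 4 * s
  hub_spec : ∀ y K, hub y = some K → K ∈ T ∧ Nr G J y K
  w_ge : ∀ K, K ∈ T → 1 ≤ w K
  sum_w : ∀ (y : V) (z : ℕ) (A : Finset V), A ⊆ T → (∀ K ∈ A, Nr G z y K) →
    ∑ K ∈ A, w K ≤ (vol G X (z + ρ) y : ℝ) / v
  sum_all : ∑ K ∈ T, w K ≤ (X.card : ℝ) / v

namespace HubSys

variable {X : Finset V} (K : HubSys G X)

/-- weight of the hub near `y` (`0` if `y` is free). -/
noncomputable def wt (y : V) : ℝ := (K.hub y).elim 0 K.w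

theorem wt_nonneg (y : V) : 0 ≤ K.wt y := by
  unfold wt
  rcases h : K.hub y with _ | k
  · simp
  · simp only [Option.elim_some]
    exact zero_le_one.trans (K.w_ge k (K.hub_spec y k h).1)

theorem one_le_wt {y : V} (h : K.hub y ≠ none) : 1 ≤ K.wt y := by
  unfold wt
  rcases h' : K.hub y with _ | k
  · exact absurd h' h
  · simp only [Option.elim_some]
    exact K.w_ge k (K.hub_spec y k h').1

/-- Free segments are fine in `H` with error `E`. -/
def Free (E : ℕ) (H : SimpleGraph V) : Prop :=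
  ∀ y y' m, K.hub y = none → m ≤ K.s → Nr G m y y' → Nr H (m + E) y y'

/-- A set of nonfree segments. -/
def Segs (D : Finset (V × V)) : Prop := ∀ x ∈ D, Nr G K.s x.1 x.2 ∧ K.hub x.1 ≠ none

end HubSys

/-- the segments in `D` have error `E` in `H`. -/
def Served (G : SimpleGraph V) (D : Finset (V × V)) (E : ℕ) (H : SimpleGraph V) : Prop :=
  ∀ x ∈ D, ∀ m, Nr G m x.1 x.2 → Nr H (m + E) x.1 x.2

/-- Service property: every finite set of nonfree segments can be served by few edges. -/
def HubSys.Serv {X : Finset V} (K : HubSys G X) (P : SimpleGraph V → Prop) (a c : ℝ) (E : ℕ) :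
    Prop :=
  ∀ D : Finset (V × V), K.Segs D →
    ∃ F : Finset (Sym2 V), (F : Set (Sym2 V)) ⊆ G.edgeSet ∧
      (F.card : ℝ) ≤ a + c * ∑ x ∈ D, K.wt x.1 ∧
      ∀ H : SimpleGraph V, P H → gr F ≤ H → Served G D E H

end Pool.Agent.H59.SP
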