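import Pool.Agent.H59.SP.Basic

/-!
# Module CLU: clusters

There are a set `X` of centers with `|X| Δ ≤ n` and a partial map `c` from vertices to centers,
`c y` adjacent to `y`, such that only few (`≤ n Δ`) edges have an unclustered endpoint.

Proof. Strong induction on `U.card` for: for every `U : Finset V` (the unclustered vertices) there
are `X, c` with `c y = none` for `y ∉ U`, `X.card * Δ ≤ U.card`, `c y = some K → K ∈ X ∧ G.Adj y K`,
and every vertex `x` has at most `Δ` neighbours `y ∈ U` with `c y = none`. If every vertex has `< Δ`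
neighbours in `U` take `X = ∅`. Otherwise some `x` has at least `Δ` neighbours in `U`; cluster all
of them with center `x` and apply the induction hypothesis to the rest (`X := insert x X'`; note
that `card (insert x X') ≤ card X' + 1`).
Then let `F` be the set of edges `s(x, y)` with `c y = none`: it is the union over `x` of at most
`Δ` edges.
-/

namespace Pool.Agent.H59.SP

open Finset

variable {V : Type*}

open Classical in
private theorem clusters_aux [Fintype V] (G : SimpleGraph V) (Δ : ℕ) (hΔ : 1 ≤ Δ) :
    ∀ (k : ℕ) (U : Finset V), U.card ≤ k →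
    ∃ (X : Finset V) (c : V → Option V),
      (∀ y, y ∉ U → c y = none) ∧ X.card * Δ ≤ U.card ∧
      (∀ y K, c y = some K → K ∈ X ∧ G.Adj y K) ∧
      (∀ x, (U.filter (fun y => G.Adj x y ∧ c y = none)).card ≤ Δ) := by
  intro k
  induction k with
  | zero =>
    intro U hU
    refine ⟨∅, fun _ => none, fun _ _ => rfl, by simp, fun y K h => by simp at h, fun x => ?_⟩
    have : U = ∅ := Finset.card_eq_zero.1 (by omega)
    subst this
    simp
  | succ k ih =>
    intro U hU
    by_cases hall : ∀ x, (U.filter (fun y => G.Adj x y)).card ≤ Δ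
    · refine ⟨∅, fun _ => none, fun _ _ => rfl, by simp, fun y K h => by simp at h, fun x => ?_⟩
      simpa using hall x
    · push Not at hall
      obtain ⟨x, hx⟩ := hall
      set W := U.filter (fun y => G.Adj x y) with hW
      have hWU : W ⊆ U := Finset.filter_subset _ _
      have hcard : (U \ W).card = U.card - W.card := Finset.card_sdiff_of_subset hWU
      have hWle : W.card ≤ U.card := Finset.card_le_card hWU
      obtain ⟨X, c, h1, h2, h3, h4⟩ := ih (U \ W) (by omega)
      refine ⟨insert x X, fun y => if y ∈ W then some x else c y, ?_, ?_, ?_, ?_⟩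
      · intro y hy
        have hyW : y ∉ W := fun h => hy (hWU h)
        simp only [hyW, if_false]
        exact h1 y (fun h => hy (Finset.mem_sdiff.1 h).1)
      · have h5 : (insert x X).card ≤ X.card + 1 := Finset.card_insert_le _ _
        calc (insert x X).card * Δ ≤ (X.card + 1) * Δ := Nat.mul_le_mul_right _ h5
          _ = X.card * Δ + Δ := by ring
          _ ≤ (U \ W).card + Δ := Nat.add_le_add_right h2 _
          _ ≤ U.card := by omega
      · intro y K hK
        by_cases hy : y ∈ W
        · simp only [hy, if_true, Option.some.injEq] at hK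
          subst hK
          exact ⟨Finset.mem_insert_self _ _, ((Finset.mem_filter.1 hy).2).symm⟩
        · simp only [hy, if_false] at hK
          exact ⟨Finset.mem_insert_of_mem (h3 y K hK).1, (h3 y K hK).2⟩
      · intro z
        refine le_trans (Finset.card_le_card ?_) (h4 z)
        intro y hy
        rw [Finset.mem_filter] at hy ⊢
        obtain ⟨hyU, hadj, hnone⟩ := hy
        have hyW : y ∉ W := by
          intro h
          simp [h] at hnone
        simp only [hyW, if_false] at hnone
        exact ⟨Finset.mem_sdiff.2 ⟨hyU, hyW⟩, hadj, hnone⟩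

theorem exists_clusters [Fintype V] (G : SimpleGraph V) (Δ : ℕ) (hΔ : 1 ≤ Δ) :
    ∃ (X : Finset V) (c : V → Option V) (F : Finset (Sym2 V)),
      (F : Set (Sym2 V)) ⊆ G.edgeSet ∧ F.card ≤ Fintype.card V * Δ ∧
      X.card * Δ ≤ Fintype.card V ∧
      (∀ y K, c y = some K → K ∈ X ∧ G.Adj y K) ∧
      (∀ y y', c y = none → G.Adj y y' → s(y, y') ∈ F) := by
  classical
  obtain ⟨X, c, -, h2, h3, h4⟩ := clusters_aux G Δ hΔ (Fintype.card V) Finset.univ (le_refl _)
  refine ⟨X, c, Finset.univ.biUnion (fun x =>
    (Finset.univ.filter (fun y => G.Adj x y ∧ c y = none)).image (fun y => s(x, y))),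
    ?_, ?_, by simpa using h2, h3, ?_⟩
  · intro e he
    simp only [Finset.coe_biUnion, Finset.mem_coe, Finset.mem_univ, Set.iUnion_true,
      Set.mem_iUnion, Finset.mem_image, Finset.mem_filter, true_and] at he
    obtain ⟨x, y, ⟨hadj, -⟩, rfl⟩ := he
    exact hadj
  · refine le_trans Finset.card_biUnion_le ?_
    calc ∑ x ∈ (Finset.univ : Finset V), ((Finset.univ.filter
            (fun y => G.Adj x y ∧ c y = none)).image (fun y => s(x, y))).card
        ≤ ∑ _x ∈ (Finset.univ : Finset V), Δ :=
          Finset.sum_le_sum fun x _ => le_trans Finset.card_image_le (h4 x)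
      _ = Fintype.card V * Δ := by simp
  · intro y y' hy hadj
    rw [Finset.mem_biUnion]
    refine ⟨y', Finset.mem_univ _, ?_⟩
    rw [Finset.mem_image]
    exact ⟨y, by simp [hadj.symm, hy], Sym2.eq_swap⟩

end Pool.Agent.H59.SP
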