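import Pool.Agent.H59.SP.Basic

/-!
# Labels of the segments of a geodesic

The `t`-th segment (`t < m / s + 1`) of a geodesic `g` of length `m` starts at `g (pos s m t)`; if
`hub (g (pos s m t)) = some k` its label is `(k, t % 17)`. Labels of different segments are
different, because positions with the same hub differ by at most `2 J ≤ 16 s`.
-/

namespace Pool.Agent.H59.SP

open Finset

variable {V : Type*} {G : SimpleGraph V} {X : Finset V}

theorem label_inj (K : HubSys G X) {g : ℕ → V} {m : ℕ} (hg : Geo G g m) {t t' : ℕ}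
    (ht : t < m / K.s + 1) (ht' : t' < m / K.s + 1) {k : V}
    (hk : K.hub (g (pos K.s m t)) = some k) (hk' : K.hub (g (pos K.s m t')) = some k)
    (hmod : t % 17 = t' % 17) : t = t' := by
  wlog h : t ≤ t' generalizing t t'
  · exact (this ht' ht hk' hk hmod.symm (by omega)).symm
  have h1 := (K.hub_spec _ _ hk).2
  have h2 := (K.hub_spec _ _ hk').2
  have h3 := hg.far (pos K.s m t) (pos K.s m t') _ (pos_mono _ _ h) (pos_le _ _ _)
    (h1.trans h2.symm)
  rw [pos_eq ht, pos_eq ht'] at h3
  have h4 := K.J_le
  have h5 := K.s_pos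
  by_contra hne
  have h6 : t + 17 ≤ t' := by omega
  have h7 : (t + 17) * K.s ≤ t' * K.s := Nat.mul_le_mul_right _ h6
  have h8 : (t + 17) * K.s = t * K.s + 17 * K.s := by ring
  omega

end Pool.Agent.H59.SP
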