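import Pool.Agent.H59.SP.Basic

/-!
# Module POT: the potential lemma (abstract path buying)

`I` is a finite set of offers. Offer `e` has a finite set `sl e` of slots; slot `t` offers the value
`val e t` for the key `key e t` (different slots of `e` have different keys). `lb` is a lower bound
for the values, all values of a key lie in `[lb, lb + J * u)`.
A slot `t` of `e` is improved over `B ⊆ I` if every offer of an `f ∈ B` for the same key is at least
`val e t + u`. Then some `B ⊆ I` has total cost at most `J * w(Q)` and for every `e ∉ B` the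
weight of the improved slots of `e` is less than `c e`.

Proof. For `B ⊆ I` and a key `q` let `φ B q` be the minimum (`sInf` in `ℕ`) of the set
`{J} ∪ {(val f t' - lb q) / u : f ∈ B, t' ∈ sl f, key f t' = q}`. Take `B ⊆ I` of maximal
cardinality with `∑ e ∈ B, c e + ∑ q ∈ Q, w q * φ B q ≤ J * ∑ q ∈ Q, w q` (`B = ∅` works).
If `e ∉ B` had improved slots of weight `≥ c e`, then `insert e B` would also work: `φ` is antitone
in `B`, and `φ (insert e B) (key e t) + 1 ≤ φ B (key e t)` for improved `t`, because
`φ (insert e B) (key e t) ≤ (val e t - lb) / u`, which is `< J` and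
`≤ (val f t' - lb) / u - 1` for all `f ∈ B` with the same key.
-/

namespace Pool.Agent.H59.SP

open Finset

theorem potential {ι κ τ : Type*} (I : Finset ι) (Q : Finset κ)
    (w : κ → ℝ) (hw : ∀ q ∈ Q, 0 ≤ w q) (sl : ι → Finset τ) (key : ι → τ → κ)
    (val : ι → τ → ℕ) (lb : κ → ℕ) (u J : ℕ) (hu : 0 < u)
    (hinj : ∀ e ∈ I, Set.InjOn (key e) (sl e : Set τ))
    (hkey : ∀ e ∈ I, ∀ t ∈ sl e, key e t ∈ Q)
    (hval : ∀ e ∈ I, ∀ t ∈ sl e, lb (key e t) ≤ val e t ∧ val e t < lb (key e t) + J * u)
    (c : ι → ℝ) :
    ∃ B ⊆ I, ∑ e ∈ B, c e ≤ J * ∑ q ∈ Q, w q ∧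
      ∀ e ∈ I, e ∉ B → ∃ A ⊆ sl e, ∑ t ∈ A, w (key e t) < c e ∧
        ∀ t ∈ sl e, t ∉ A →
          ∃ f ∈ B, ∃ t' ∈ sl f, key f t' = key e t ∧ val f t' < val e t + u := by
  classical
  let Sq : Finset ι → κ → Set ℕ := fun B q =>
    insert J {m | ∃ f ∈ B, ∃ t' ∈ sl f, key f t' = q ∧ m = (val f t' - lb q) / u}
  let φ : Finset ι → κ → ℕ := fun B q => sInf (Sq B q)
  have hne : ∀ B q, (Sq B q).Nonempty := fun B q => ⟨J, Set.mem_insert _ _⟩
  let F : Finset (Finset ι) := I.powerset.filter fun B =>
    ∑ e ∈ B, c e + ∑ q ∈ Q, w q * (φ B q : ℝ) ≤ J * ∑ q ∈ Q, w q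
  have h0 : (∅ : Finset ι) ∈ F := by
    simp only [F, Finset.mem_filter, Finset.mem_powerset, Finset.empty_subset, true_and,
      Finset.sum_empty, zero_add]
    have : ∀ q, φ ∅ q = J := by
      intro q
      have : Sq ∅ q = {J} := by
        ext m; simp [Sq]
      simp only [φ, this, csInf_singleton]
    rw [Finset.mul_sum]
    apply le_of_eq
    apply Finset.sum_congr rfl
    intro q _; rw [this]; ring
  obtain ⟨B, hBF, hmax⟩ := Finset.exists_max_image F Finset.card ⟨∅, h0⟩
  have hB : B ⊆ I := Finset.mem_powerset.1 (Finset.mem_filter.1 hBF).1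
  have hBle := (Finset.mem_filter.1 hBF).2
  refine ⟨B, hB, ?_, ?_⟩
  · have : 0 ≤ ∑ q ∈ Q, w q * (φ B q : ℝ) :=
      Finset.sum_nonneg fun q hq => mul_nonneg (hw q hq) (Nat.cast_nonneg _)
    linarith
  · intro e he heB
    refine ⟨(sl e).filter fun t => ∀ f ∈ B, ∀ t' ∈ sl f, key f t' = key e t →
      val e t + u ≤ val f t', Finset.filter_subset _ _, ?_, ?_⟩
    · by_contra hcon
      rw [not_lt] at hcon
      set A := (sl e).filter fun t => ∀ f ∈ B, ∀ t' ∈ sl f, key f t' = key e t →
        val e t + u ≤ val f t' with hA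
      have hAsub : A ⊆ sl e := Finset.filter_subset _ _
      have hmono : ∀ q, φ (insert e B) q ≤ φ B q := by
        intro q
        apply Nat.sInf_le
        have := Nat.sInf_mem (hne B q)
        rcases this with h | ⟨f, hf, t', ht', h1, h2⟩
        · exact Or.inl h
        · exact Or.inr ⟨f, Finset.mem_insert_of_mem hf, t', ht', h1, h2⟩
      have hstep : ∀ t ∈ A, φ (insert e B) (key e t) + 1 ≤ φ B (key e t) := by
        intro t ht
        have ht1 := (Finset.mem_filter.1 ht).1
        have ht2 := (Finset.mem_filter.1 ht).2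
        obtain ⟨hv1, hv2⟩ := hval e he t ht1
        have hle : φ (insert e B) (key e t) ≤ (val e t - lb (key e t)) / u := by
          apply Nat.sInf_le
          exact Or.inr ⟨e, Finset.mem_insert_self _ _, t, ht1, rfl, rfl⟩
        have hge : (val e t - lb (key e t)) / u + 1 ≤ φ B (key e t) := by
          apply le_csInf (hne B _)
          rintro m (rfl | ⟨f, hf, t', ht', h1, rfl⟩)
          · apply Nat.succ_le_of_lt
            rw [Nat.div_lt_iff_lt_mul hu]
            omega
          · have h3 := ht2 f hf t' ht' h1
            have h4 : (val e t - lb (key e t)) / u + 1 = (val e t - lb (key e t) + u) / u := by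
              rw [Nat.add_div_right _ hu]
            rw [h4]
            apply Nat.div_le_div_right
            omega
        omega
      have hins : insert e B ∈ F := by
        simp only [F, Finset.mem_filter, Finset.mem_powerset]
        refine ⟨Finset.insert_subset he hB, ?_⟩
        rw [Finset.sum_insert heB]
        have hK : A.image (key e) ⊆ Q := by
          intro q hq
          obtain ⟨t, ht, rfl⟩ := Finset.mem_image.1 hq
          exact hkey e he t (hAsub ht)
        have hsumK : ∑ q ∈ A.image (key e), w q = ∑ t ∈ A, w (key e t) := by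
          apply Finset.sum_image
          intro t ht t' ht' h
          exact hinj e he (hAsub ht) (hAsub ht') h
        have hmain : ∑ q ∈ Q, w q * (φ (insert e B) q : ℝ) + ∑ q ∈ A.image (key e), w q ≤
            ∑ q ∈ Q, w q * (φ B q : ℝ) := by
          have e1 : ∑ q ∈ A.image (key e), w q =
              ∑ q ∈ Q, if q ∈ A.image (key e) then w q else 0 := by
            rw [← Finset.sum_filter]
            congr 1
            ext q; simp only [Finset.mem_filter]
            exact ⟨fun h => ⟨hK h, h⟩, fun h => h.2⟩
          rw [e1, ← Finset.sum_add_distrib]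
          apply Finset.sum_le_sum
          intro q hq
          by_cases h : q ∈ A.image (key e)
          · rw [if_pos h]
            obtain ⟨t, ht, rfl⟩ := Finset.mem_image.1 h
            have h5 : ((φ (insert e B) (key e t) : ℕ) : ℝ) + 1 ≤ (φ B (key e t) : ℕ) := by
              exact_mod_cast hstep t ht
            have := mul_le_mul_of_nonneg_left h5 (hw _ hq)
            linarith
          · rw [if_neg h, add_zero]
            apply mul_le_mul_of_nonneg_left _ (hw q hq)
            exact_mod_cast hmono q
        rw [hsumK] at hmain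
        linarith
      have := hmax _ hins
      rw [Finset.card_insert_of_notMem heB] at this
      omega
    · intro t ht htA
      simp only [Finset.mem_filter, not_and, not_forall, not_le] at htA
      obtain ⟨f, hf, t', ht', h1, h2⟩ := htA ht
      exact ⟨f, hf, t', ht', h1, h2⟩

end Pool.Agent.H59.SP
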