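import Pool.Agent.H59.SP.Basic
import Pool.Agent.H59.SP.Labels
import Pool.Agent.H59.SP.Potential

/-!
# Module TS: two-sided path buying for a hub system

Notation for `e ∈ I`: `g = geo G e.1 e.2` (geodesic), `m = G.dist e.1 e.2`, `s = K.s`,
`q = m / s + 1` segments; segment `t < q` goes from `g (pos s m t)` to `g (pos s m (t+1))`, its hub is
`K.hub (g (pos s m t))`; `t` is nonfree if this is `some k_t`.

Proof. Apply `potential` with offers `I`, keys `Q`, `w q = K.w q.2.1`, slots
`sl e = {(t, side) | t < q nonfree, side : Bool}`, `key e (t, false) = (e.1, k_t, t % 17)`,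
`key e (t, true) = (e.2, k_t, t % 17)` (injective by `label_inj` and `e.1 ≠ e.2`),
`val e (t, false) = pos t + N s + S J`, `val e (t, true) = m - pos t + N s + S J`,
`lb (x, k, c) = G.dist x k`, `u = s`, `J = 9 + N + 8 S`,
`c e = ∑ t ∈ range q, K.wt (g (pos t))`. (`|pos t - dist e.1 k_t| ≤ J ≤ 8 s`, same for `e.2`.)
`D` = all nonfree segments `(g (pos t), g (pos (t+1)))` of all bought `e ∈ B`
(`∑ x ∈ D, wt x.1 ≤ ∑ e ∈ B, c e`: `D` is a `biUnion` of images).
In `H`: for a bought `e` all segments have error `E` (`Free` or `Served`), so by `chain`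
`Nr H (pos b - pos a + N s) (g (pos a)) (g (pos b))` for all `a ≤ b ≤ q`; in particular, with the
jump `Nr H (S J) (g (pos t)) k_t` from `Span`, every offered value is really attained:
`Nr H (val e (t, false)) e.1 k_t`, `Nr H (val e (t, true)) e.2 k_t`.
For a not bought `e` some nonfree `t` has both slots not in `A` (otherwise
`∑ t ∈ A, w ≥ c e`), so `Nr H (val e (t,false) + s) e.1 k_t` and `Nr H (val e (t,true) + s) e.2 k_t`;
the sum is at most `m + 2 N s + 2 S J + 2 s`.
-/

namespace Pool.Agent.H59.SP

open Finset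

variable {V : Type*} {G : SimpleGraph V} {X : Finset V}

/-- All segments of a geodesic have error `E`; then everything along it has error `N s`. -/
theorem along (K : HubSys G X) {N E m : ℕ} {g : ℕ → V} (hg : Geo G g m)
    (hN : (m / K.s + 1) * E ≤ N * K.s) {H : SimpleGraph V} (hfree : K.Free E H)
    {D : Finset (V × V)} (hD : Served G D E H)
    (hseg : ∀ t < m / K.s + 1, K.hub (g (pos K.s m t)) ≠ none →
      (g (pos K.s m t), g (pos K.s m (t + 1))) ∈ D)
    {a b : ℕ} (hab : a ≤ b) (hb : b ≤ m / K.s + 1) :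
    Nr H (pos K.s m b - pos K.s m a + N * K.s) (g (pos K.s m a)) (g (pos K.s m b)) := by
  have h := chain (H := H) (g := g) (s := K.s) (m := m) (E := E) a b hab ?_
  · refine h.mono ?_
    have h1 : (b - a) * E ≤ (m / K.s + 1) * E := Nat.mul_le_mul_right _ (by omega)
    omega
  · intro t _ htb
    have hn : Nr G (pos K.s m (t + 1) - pos K.s m t) (g (pos K.s m t)) (g (pos K.s m (t + 1))) :=
      hg.near _ _ (pos_mono _ _ (Nat.le_succ t)) (pos_le _ _ _)
    rcases h' : K.hub (g (pos K.s m t)) with _ | k
    · refine hfree _ _ _ h' ?_ hn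
      have := pos_succ_le K.s m t
      omega
    · exact hD _ (hseg t (by omega) (by rw [h']; simp)) _ hn

theorem two_sided (K : HubSys G X) (S N E : ℕ) (hS : 1 ≤ S)
    (I : Finset (V × V)) (Q : Finset (V × V × ℕ))
    (hI : ∀ e ∈ I, G.Reachable e.1 e.2 ∧ e.1 ≠ e.2)
    (hN : ∀ e ∈ I, (G.dist e.1 e.2 / K.s + 1) * E ≤ N * K.s)
    (hQT : ∀ q ∈ Q, q.2.1 ∈ K.T)
    (hQ : ∀ e ∈ I, ∀ t ≤ G.dist e.1 e.2, ∀ k ∈ K.T, ∀ c < 17,
      Nr G (t + K.J) e.1 k → Nr G (G.dist e.1 e.2 - t + K.J) e.2 k →
      (e.1, k, c) ∈ Q ∧ (e.2, k, c) ∈ Q) :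
    ∃ D : Finset (V × V), K.Segs D ∧
      ∑ x ∈ D, K.wt x.1 ≤ (9 + N + 8 * S : ℕ) * ∑ q ∈ Q, K.w q.2.1 ∧
      ∀ H : SimpleGraph V, Span G S H → K.Free E H → Served G D E H →
        ∀ e ∈ I, Nr H (G.dist e.1 e.2 + (2 * N + 16 * S + 2) * K.s) e.1 e.2 := by
  classical
  -- the points of the geodesics
  let p : V × V → ℕ → V := fun e t => geo G e.1 e.2 (pos K.s (G.dist e.1 e.2) t)
  let qn : V × V → ℕ := fun e => G.dist e.1 e.2 / K.s + 1
  let nf : V × V → Finset ℕ := fun e => (range (qn e)).filter fun t => K.hub (p e t) ≠ none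
  let sl : V × V → Finset (ℕ × Bool) := fun e => nf e ×ˢ (Finset.univ : Finset Bool)
  let key : V × V → ℕ × Bool → V × V × ℕ := fun e x =>
    (if x.2 then e.2 else e.1, (K.hub (p e x.1)).getD e.1, x.1 % 17)
  let val : V × V → ℕ × Bool → ℕ := fun e x =>
    (if x.2 then G.dist e.1 e.2 - pos K.s (G.dist e.1 e.2) x.1
      else pos K.s (G.dist e.1 e.2) x.1) + N * K.s + S * K.J
  let lb : V × V × ℕ → ℕ := fun y => G.dist y.1 y.2.1
  let c : V × V → ℝ := fun e => ∑ t ∈ nf e, K.wt (p e t)
  have hs := K.s_pos
  have hJ := K.J_le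
  have hmem : ∀ e x, x ∈ sl e ↔ x.1 < qn e ∧ K.hub (p e x.1) ≠ none := by
    intro e x
    simp only [sl, nf, Finset.mem_product, Finset.mem_filter, Finset.mem_range,
      Finset.mem_univ, and_true]
  -- distances along the geodesic of `e`
  have hp1 : ∀ e ∈ I, ∀ t, Nr G (pos K.s (G.dist e.1 e.2) t) e.1 (p e t) := by
    intro e he t
    have h := (geo_geo (hI e he).1).near 0 _ (Nat.zero_le _) (pos_le K.s _ t)
    rw [geo_zero (hI e he).1] at h
    simpa using h
  have hp2 : ∀ e ∈ I, ∀ t,
      Nr G (G.dist e.1 e.2 - pos K.s (G.dist e.1 e.2) t) e.2 (p e t) := by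
    intro e he t
    have h := (geo_geo (hI e he).1).near _ _ (pos_le K.s _ t) le_rfl
    rw [geo_dist (hI e he).1] at h
    exact h.symm
  -- the two distance bounds to a hub
  have hk1 : ∀ e ∈ I, ∀ t k, K.hub (p e t) = some k →
      pos K.s (G.dist e.1 e.2) t ≤ G.dist e.1 k + K.J := by
    intro e he t k hk
    have h1 := (K.hub_spec _ _ hk).2
    have h2 : Nr G (G.dist e.1 k) e.1 k := nr_of_reachable ((hp1 e he t).trans h1).reachable
    have h3 := (geo_geo (hI e he).1).far 0 _ (G.dist e.1 k + K.J) (Nat.zero_le _)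
      (pos_le K.s _ t) (by rw [geo_zero (hI e he).1]; exact h2.trans h1.symm)
    omega
  have hk2 : ∀ e ∈ I, ∀ t k, K.hub (p e t) = some k →
      G.dist e.1 e.2 - pos K.s (G.dist e.1 e.2) t ≤ G.dist e.2 k + K.J := by
    intro e he t k hk
    have h1 := (K.hub_spec _ _ hk).2
    have h2 : Nr G (G.dist e.2 k) e.2 k := nr_of_reachable ((hp2 e he t).trans h1).reachable
    have h3 := (geo_geo (hI e he).1).far _ _ (G.dist e.2 k + K.J) (pos_le K.s _ t) le_rfl
      (by rw [geo_dist (hI e he).1]; exact (h2.trans h1.symm).symm)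
    omega
  have hw : ∀ q ∈ Q, 0 ≤ K.w q.2.1 := fun q hq => zero_le_one.trans (K.w_ge _ (hQT q hq))
  have hinj : ∀ e ∈ I, Set.InjOn (key e) (sl e : Set (ℕ × Bool)) := by
    rintro e he ⟨t, b⟩ hx ⟨t', b'⟩ hx' hxx
    rw [Finset.mem_coe, hmem] at hx hx'
    simp only at hx hx'
    simp only [key, Prod.mk.injEq] at hxx
    obtain ⟨h1, h2, h3⟩ := hxx
    obtain ⟨k, hk⟩ := Option.ne_none_iff_exists'.1 hx.2
    obtain ⟨k', hk'⟩ := Option.ne_none_iff_exists'.1 hx'.2
    rw [hk, hk', Option.getD_some, Option.getD_some] at h2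
    subst h2
    have hb : b = b' := by
      have hne := (hI e he).2
      rcases b <;> rcases b'
      · rfl
      · exact absurd (by simpa using h1) hne
      · exact absurd (by simpa using h1.symm) hne
      · rfl
    have ht := label_inj K (geo_geo (hI e he).1) hx.1 hx'.1 hk hk' h3
    rw [hb, ht]
  have hkey : ∀ e ∈ I, ∀ x ∈ sl e, key e x ∈ Q := by
    rintro e he ⟨t, b⟩ hx
    rw [hmem] at hx
    simp only at hx
    obtain ⟨k, hk⟩ := Option.ne_none_iff_exists'.1 hx.2
    obtain ⟨hkT, hkJ⟩ := K.hub_spec _ _ hk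
    have h := hQ e he _ (pos_le K.s _ t) k hkT (t % 17) (Nat.mod_lt _ (by norm_num))
      ((hp1 e he t).trans hkJ) ((hp2 e he t).trans hkJ)
    simp only [key]
    rw [hk, Option.getD_some]
    rcases b
    · exact h.1
    · exact h.2
  have hval : ∀ e ∈ I, ∀ x ∈ sl e, lb (key e x) ≤ val e x ∧
      val e x < lb (key e x) + (9 + N + 8 * S) * K.s := by
    rintro e he ⟨t, b⟩ hx
    rw [hmem] at hx
    simp only at hx
    obtain ⟨k, hk⟩ := Option.ne_none_iff_exists'.1 hx.2
    obtain ⟨hkT, hkJ⟩ := K.hub_spec _ _ hk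
    have hSJ : K.J ≤ S * K.J := Nat.le_mul_of_pos_left _ hS
    have hSJ' : S * K.J ≤ 8 * S * K.s := by
      calc S * K.J ≤ S * (8 * K.s) := Nat.mul_le_mul_left _ hJ
        _ = 8 * S * K.s := by ring
    have hexp : (9 + N + 8 * S) * K.s = 9 * K.s + N * K.s + 8 * S * K.s := by ring
    simp only [lb, key, val]
    rw [hk, Option.getD_some, hexp]
    rcases b
    · have h1 := ((hp1 e he t).trans hkJ).dist_le
      have h2 := hk1 e he t k hk
      simp only [Bool.false_eq_true, if_false]
      constructor <;> omega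
    · have h1 := ((hp2 e he t).trans hkJ).dist_le
      have h2 := hk2 e he t k hk
      simp only [if_true]
      constructor <;> omega
  obtain ⟨B, hBI, hBc, hBA⟩ := potential I Q (fun q => K.w q.2.1) hw sl key val lb K.s
    (9 + N + 8 * S) hs hinj hkey hval c
  let D : Finset (V × V) := B.biUnion fun e => (nf e).image fun t => (p e t, p e (t + 1))
  have hmemD : ∀ x, x ∈ D ↔ ∃ e ∈ B, ∃ t ∈ nf e, (p e t, p e (t + 1)) = x := by
    intro x
    simp only [D, Finset.mem_biUnion, Finset.mem_image]
  refine ⟨D, ?_, ?_, ?_⟩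
  · intro x hx
    obtain ⟨e, he, t, ht, rfl⟩ := (hmemD x).1 hx
    simp only [nf, Finset.mem_filter, Finset.mem_range] at ht
    refine ⟨?_, ht.2⟩
    have h := (geo_geo (hI e (hBI he)).1).near _ _
      (pos_mono K.s (G.dist e.1 e.2) (Nat.le_succ t)) (pos_le _ _ _)
    refine h.mono ?_
    have := pos_succ_le K.s (G.dist e.1 e.2) t
    simp only [Nat.succ_eq_add_one]
    omega
  · have h1 : ∀ B' : Finset (V × V),
        ∑ x ∈ B'.biUnion (fun e => (nf e).image fun t => (p e t, p e (t + 1))), K.wt x.1 ≤
          ∑ e ∈ B', c e := by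
      intro B'
      induction B' using Finset.induction_on with
      | empty => simp
      | insert a B' ha ih =>
        rw [Finset.biUnion_insert, Finset.sum_insert ha]
        have h2 : ∑ x ∈ (nf a).image (fun t => (p a t, p a (t + 1))), K.wt x.1 ≤ c a := by
          have h3 : ∀ A : Finset ℕ, ∑ x ∈ A.image (fun t => (p a t, p a (t + 1))), K.wt x.1 ≤
              ∑ t ∈ A, K.wt (p a t) := by
            intro A
            induction A using Finset.induction_on with
            | empty => simp
            | insert t A ht ih' =>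
              rw [Finset.image_insert, Finset.sum_insert ht]
              by_cases hm : (p a t, p a (t + 1)) ∈ A.image fun t => (p a t, p a (t + 1))
              · rw [Finset.insert_eq_of_mem hm]
                have := K.wt_nonneg (p a t)
                linarith
              · rw [Finset.sum_insert hm]
                linarith
          exact h3 _
        have h4 := Finset.sum_union_inter
          (s₁ := (nf a).image (fun t => (p a t, p a (t + 1))))
          (s₂ := B'.biUnion (fun e => (nf e).image fun t => (p e t, p e (t + 1))))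
          (f := fun x : V × V => K.wt x.1)
        have h5 : 0 ≤ ∑ x ∈ (nf a).image (fun t => (p a t, p a (t + 1))) ∩
            B'.biUnion (fun e => (nf e).image fun t => (p e t, p e (t + 1))), K.wt x.1 :=
          Finset.sum_nonneg fun x _ => K.wt_nonneg _
        linarith
    exact (h1 B).trans hBc
  · intro H hspan hfree hserved e heI
    have hSJ' : S * K.J ≤ 8 * S * K.s := by
      calc S * K.J ≤ S * (8 * K.s) := Nat.mul_le_mul_left _ hJ
        _ = 8 * S * K.s := by ring
    have halong : ∀ f ∈ B, ∀ a b, a ≤ b → b ≤ qn f →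
        Nr H (pos K.s (G.dist f.1 f.2) b - pos K.s (G.dist f.1 f.2) a + N * K.s)
          (p f a) (p f b) := by
      intro f hf a b hab hb
      refine along K (geo_geo (hI f (hBI hf)).1) (hN f (hBI hf)) hfree hserved ?_ hab hb
      intro t ht hne
      refine (hmemD _).2 ⟨f, hf, t, ?_, rfl⟩
      simp only [nf, Finset.mem_filter, Finset.mem_range]
      exact ⟨ht, hne⟩
    have hp0 : ∀ f ∈ I, p f 0 = f.1 := by
      intro f hf
      simp only [p, pos_zero]
      exact geo_zero (hI f hf).1
    have hpq : ∀ f ∈ I, p f (qn f) = f.2 := by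
      intro f hf
      simp only [p, qn]
      rw [pos_last hs]
      exact geo_dist (hI f hf).1
    -- every offered value is attained
    have hatt : ∀ f ∈ B, ∀ x ∈ sl f, Nr H (val f x) (key f x).1 (key f x).2.1 := by
      rintro f hf ⟨t, b⟩ hx
      rw [hmem] at hx
      simp only at hx
      obtain ⟨k, hk⟩ := Option.ne_none_iff_exists'.1 hx.2
      obtain ⟨hkT, hkJ⟩ := K.hub_spec _ _ hk
      have hj := hspan _ _ _ hkJ
      simp only [key, val]
      rw [hk, Option.getD_some]
      rcases b
      · have h := halong f hf 0 t (Nat.zero_le _) hx.1.le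
        rw [hp0 f (hBI hf), pos_zero, Nat.sub_zero] at h
        simp only [Bool.false_eq_true, if_false]
        exact h.trans hj
      · have h := halong f hf t (qn f) hx.1.le le_rfl
        rw [hpq f (hBI hf)] at h
        simp only [qn] at h
        rw [pos_last hs] at h
        simp only [if_true]
        exact h.symm.trans hj
    have hexp : (2 * N + 16 * S + 2) * K.s = 2 * (N * K.s) + 2 * (8 * S * K.s) + 2 * K.s := by
      ring
    by_cases heB : e ∈ B
    · have h := halong e heB 0 (qn e) (Nat.zero_le _) le_rfl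
      rw [hp0 e heI, hpq e heI, pos_zero, Nat.sub_zero] at h
      refine h.mono ?_
      have := pos_le K.s (G.dist e.1 e.2) (qn e)
      rw [hexp]
      omega
    · obtain ⟨A, hA, hAc, hAf⟩ := hBA e heI heB
      have hex : ∃ t ∈ nf e, (t, false) ∉ A ∧ (t, true) ∉ A := by
        by_contra hcon
        push Not at hcon
        have h1 : nf e ⊆ A.image Prod.fst := by
          intro t ht
          rw [Finset.mem_image]
          by_cases h : (t, false) ∈ A
          · exact ⟨_, h, rfl⟩
          · exact ⟨_, hcon t ht h, rfl⟩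
        have h2 : c e ≤ ∑ t ∈ A.image Prod.fst, K.wt (p e t) :=
          Finset.sum_le_sum_of_subset_of_nonneg h1 fun t _ _ => K.wt_nonneg _
        have h3 : ∀ A' : Finset (ℕ × Bool), ∑ t ∈ A'.image Prod.fst, K.wt (p e t) ≤
            ∑ x ∈ A', K.wt (p e x.1) := by
          intro A'
          induction A' using Finset.induction_on with
          | empty => simp
          | insert x A' hx ih =>
            rw [Finset.image_insert, Finset.sum_insert hx]
            by_cases hm : x.1 ∈ A'.image Prod.fst
            · rw [Finset.insert_eq_of_mem hm]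
              have := K.wt_nonneg (p e x.1)
              linarith
            · rw [Finset.sum_insert hm]
              linarith
        have h4 : ∑ x ∈ A, K.wt (p e x.1) = ∑ x ∈ A, K.w (key e x).2.1 := by
          apply Finset.sum_congr rfl
          intro x hx
          have hx' := ((hmem e x).1 (hA hx)).2
          obtain ⟨k, hk⟩ := Option.ne_none_iff_exists'.1 hx'
          simp only [HubSys.wt, key]
          rw [hk, Option.getD_some, Option.elim_some]
        have h5 := h3 A
        rw [h4] at h5
        linarith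
      obtain ⟨t, htnf, htf, htt⟩ := hex
      simp only [nf, Finset.mem_filter, Finset.mem_range] at htnf
      obtain ⟨k, hk⟩ := Option.ne_none_iff_exists'.1 htnf.2
      have hside : ∀ b, (t, b) ∉ A → Nr H (val e (t, b) + K.s) (key e (t, b)).1 k := by
        intro b hb
        obtain ⟨f, hf, x, hx, hkx, hvx⟩ := hAf (t, b) ((hmem e (t, b)).2 htnf) hb
        have h := hatt f hf x hx
        rw [hkx] at h
        have hkk : (key e (t, b)).2.1 = k := by
          simp only [key]
          rw [hk, Option.getD_some]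
        rw [hkk] at h
        exact h.mono hvx.le
      have h1 := hside false htf
      have h2 := hside true htt
      simp only [key, val, Bool.false_eq_true, if_false, if_true] at h1 h2
      refine (h1.trans h2.symm).mono ?_
      have := pos_le K.s (G.dist e.1 e.2) t
      rw [hexp]
      omega

end Pool.Agent.H59.SP
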