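import Pool.Agent.H59.SP.Basic
import Pool.Agent.H59.SP.Labels
import Pool.Agent.H59.SP.Potential
import Pool.Agent.H59.SP.TwoSided

/-!
# Module QUA: path buying with quadratically many improved pairs

Notation for `e ∈ U`: `g = geo G e.1 e.2`, `m = G.dist e.1 e.2`, `s = K.s`, `q = m / s + 1`,
`ω t = K.wt (g (pos s m t))`, `k_t` the hub of a nonfree `t < q`, `λ_t = (k_t, t % 17)`.

Proof. Apply `potential` to the offers `(e, a, b, c, d)`, `e ∈ U`, `a ≤ b ≤ c ≤ d < q` (all `< q`) with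
`Γ * ∑ t ∈ range q, ω t ≤ (∑ t ∈ Icc a b, ω t) * ∑ t ∈ Icc c d, ω t`, cost = the right hand side;
slots `(t, t')`, `t ∈ Icc a b`, `t' ∈ Icc c d`, both nonfree; key `(λ_t, λ_t')` (injective by
`label_inj`), keys `Q` = all `((k, x), (k', x'))` with `k, k' ∈ K.T`, `x, x' < 17`, `G.Reachable k k'`,
`vol (G.dist k k' + ρ) k ≤ vi`, weight `K.w k * K.w k'`, value `pos t' - pos t + N s + 2 S J`,
lower bound `G.dist k k'` (`|G.dist k k' - (pos t' - pos t)| ≤ 2 J ≤ 16 s`), `u = s`,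
`J = 17 + N + 16 S`. The key of a slot is in `Q`:
`ball k_t (G.dist k_t k_t' + ρ) ⊆ ball e.1 (pos t + J + (pos t' - pos t) + 2 J + ρ)
 ⊆ ball e.1 (m + 28 s) ⊆ ball e.1 (3 m)`.
`∑ q ∈ Q, w q = 289 ∑_k K.w k ∑_{k' payable} K.w k' ≤ 289 * (X.card / K.v) * (vi / K.v)`
(for fixed `k` let `z` be the maximal `G.dist k k'`; use `sum_w` with radius `z`, and `sum_all`).
`D` = all nonfree segments of `geo G e.1 e.2` for the bought offers; weight
`≤ ∑_{bought} ∑ t ∈ range q, ω t ≤ (∑_{bought} cost) / Γ`.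
In `H`: for a bought offer `along` gives `Nr H (pos t' - pos t + N s)` for all `t ≤ t'`; with the
jumps `S J` at both ends the values are attained. For an offer which is not bought some slot
`(t, t')` is not in `A` (otherwise `∑ A w = cost`), so `Nr H (val + s) k_t k_t'`, and with two jumps
`S J` the claim.
-/

namespace Pool.Agent.H59.SP

open Finset

variable {V : Type*} {G : SimpleGraph V} {X : Finset V}

/-- The start of the `t`-th segment of the chosen geodesic. -/
noncomputable def qg (K : HubSys G X) (e : V × V) (t : ℕ) : V :=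
  geo G e.1 e.2 (pos K.s (G.dist e.1 e.2) t)

/-- The hub of the `t`-th segment (junk value for free segments). -/
noncomputable def qk (K : HubSys G X) (e : V × V) (t : ℕ) : V := (K.hub (qg K e t)).getD e.1

theorem qk_spec (K : HubSys G X) {e : V × V} {t : ℕ} (h : K.hub (qg K e t) ≠ none) :
    K.hub (qg K e t) = some (qk K e t) := by
  unfold qk
  rcases h' : K.hub (qg K e t) with _ | k
  · exact absurd h' h
  · simp

theorem wt_of_some (K : HubSys G X) {y k : V} (h : K.hub y = some k) : K.wt y = K.w k := by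
  unfold HubSys.wt
  rw [h]
  simp

theorem wt_of_none (K : HubSys G X) {y : V} (h : K.hub y = none) : K.wt y = 0 := by
  unfold HubSys.wt
  rw [h]
  simp

/-- payable keys -/
noncomputable def qQ (K : HubSys G X) (vi : ℕ) : Finset ((V × ℕ) × (V × ℕ)) := by
  classical
  exact ((K.T ×ˢ range 17) ×ˢ (K.T ×ˢ range 17)).filter
    (fun x => G.Reachable x.1.1 x.2.1 ∧ vol G X (G.dist x.1.1 x.2.1 + K.ρ) x.1.1 ≤ vi)

theorem qQ_sum (K : HubSys G X) (vi : ℕ) :
    ∑ x ∈ qQ K vi, K.w x.1.1 * K.w x.2.1 ≤ 289 * (X.card * vi / K.v ^ 2) := by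
  classical
  have hw : ∀ k ∈ K.T, 0 ≤ K.w k := fun k hk => zero_le_one.trans (K.w_ge k hk)
  have hin : ∀ k ∈ K.T, ∑ k' ∈ K.T.filter
      (fun k' => G.Reachable k k' ∧ vol G X (G.dist k k' + K.ρ) k ≤ vi), K.w k' ≤ vi / K.v := by
    intro k _
    set A := K.T.filter (fun k' => G.Reachable k k' ∧ vol G X (G.dist k k' + K.ρ) k ≤ vi) with hA
    rcases A.eq_empty_or_nonempty with h | h
    · rw [h, Finset.sum_empty]
      exact div_nonneg (Nat.cast_nonneg _) K.v_pos.le
    · obtain ⟨k0, hk0, hmax⟩ := Finset.exists_max_image A (fun k' => G.dist k k') h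
      have h1 := K.sum_w k (G.dist k k0) A (Finset.filter_subset _ _) (by
        intro k' hk'
        rw [nr_iff]
        exact ⟨(Finset.mem_filter.1 hk').2.1, hmax k' hk'⟩)
      refine h1.trans ?_
      apply div_le_div_of_nonneg_right _ K.v_pos.le
      exact_mod_cast (Finset.mem_filter.1 hk0).2.2
  have h1 : ∑ x ∈ qQ K vi, K.w x.1.1 * K.w x.2.1 =
      ∑ k ∈ K.T, 289 * (K.w k * ∑ k' ∈ K.T.filter
        (fun k' => G.Reachable k k' ∧ vol G X (G.dist k k' + K.ρ) k ≤ vi), K.w k') := by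
    unfold qQ
    rw [Finset.sum_filter, Finset.sum_product, Finset.sum_product]
    apply Finset.sum_congr rfl
    intro k _
    simp only [Finset.sum_const, Finset.card_range, nsmul_eq_mul]
    rw [Finset.sum_product, Finset.sum_filter, Finset.mul_sum, Finset.mul_sum, Finset.mul_sum]
    apply Finset.sum_congr rfl
    intro k' _
    simp only [Finset.sum_const, Finset.card_range, nsmul_eq_mul]
    split_ifs
    · push_cast; ring
    · simp
  rw [h1]
  calc ∑ k ∈ K.T, 289 * (K.w k * ∑ k' ∈ K.T.filter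
        (fun k' => G.Reachable k k' ∧ vol G X (G.dist k k' + K.ρ) k ≤ vi), K.w k')
      ≤ ∑ k ∈ K.T, 289 * (K.w k * (vi / K.v)) := by
        apply Finset.sum_le_sum
        intro k hk
        apply mul_le_mul_of_nonneg_left _ (by norm_num)
        exact mul_le_mul_of_nonneg_left (hin k hk) (hw k hk)
    _ = 289 * ((∑ k ∈ K.T, K.w k) * (vi / K.v)) := by
        rw [← Finset.mul_sum, Finset.sum_mul]
    _ ≤ 289 * ((X.card / K.v) * (vi / K.v)) := by
        apply mul_le_mul_of_nonneg_left _ (by norm_num)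
        exact mul_le_mul_of_nonneg_right K.sum_all
          (div_nonneg (Nat.cast_nonneg _) K.v_pos.le)
    _ = 289 * (X.card * vi / K.v ^ 2) := by
        rw [div_mul_div_comm, sq]

theorem q_sum_biUnion_le {ι κ : Type*} [DecidableEq κ] (B : Finset ι) (f : ι → Finset κ)
    (w : κ → ℝ) (hw : ∀ x, 0 ≤ w x) : ∑ x ∈ B.biUnion f, w x ≤ ∑ o ∈ B, ∑ x ∈ f o, w x := by
  classical
  induction B using Finset.induction_on with
  | empty => simp
  | insert o B ho ih =>
    rw [Finset.biUnion_insert, Finset.sum_insert ho]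
    have h1 := Finset.sum_union_inter (s₁ := f o) (s₂ := B.biUnion f) (f := w)
    have h2 : 0 ≤ ∑ x ∈ f o ∩ B.biUnion f, w x := Finset.sum_nonneg fun x _ => hw x
    linarith

theorem q_sum_image_le {ι κ : Type*} [DecidableEq κ] (B : Finset ι) (f : ι → κ)
    (w : κ → ℝ) (hw : ∀ x, 0 ≤ w x) : ∑ x ∈ B.image f, w x ≤ ∑ o ∈ B, w (f o) := by
  classical
  induction B using Finset.induction_on with
  | empty => simp
  | insert o B ho ih =>
    rw [Finset.image_insert, Finset.sum_insert ho]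
    by_cases h : f o ∈ B.image f
    · rw [Finset.insert_eq_of_mem h]
      linarith [hw (f o)]
    · rw [Finset.sum_insert h]
      linarith

theorem quad (K : HubSys G X) (S N E vi : ℕ) (hS : 1 ≤ S) (U : Finset (V × V))
    (hU : ∀ e ∈ U, G.Reachable e.1 e.2 ∧ 14 * K.s ≤ G.dist e.1 e.2 ∧
      (G.dist e.1 e.2 / K.s + 1) * E ≤ N * K.s ∧ vol G X (3 * G.dist e.1 e.2) e.1 ≤ vi)
    (Γ : ℝ) (hΓ : 0 < Γ) :
    ∃ D : Finset (V × V), K.Segs D ∧
      ∑ x ∈ D, K.wt x.1 ≤ 289 * (17 + N + 16 * S : ℕ) * (X.card * vi / K.v ^ 2) / Γ ∧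
      ∀ H : SimpleGraph V, Span G S H → K.Free E H → Served G D E H →
        ∀ e ∈ U, ∀ a b c d, a ≤ b → b ≤ c → c ≤ d → d < G.dist e.1 e.2 / K.s + 1 →
          Γ * ∑ t ∈ range (G.dist e.1 e.2 / K.s + 1),
            K.wt (geo G e.1 e.2 (pos K.s (G.dist e.1 e.2) t)) ≤
          (∑ t ∈ Icc a b, K.wt (geo G e.1 e.2 (pos K.s (G.dist e.1 e.2) t))) *
            ∑ t ∈ Icc c d, K.wt (geo G e.1 e.2 (pos K.s (G.dist e.1 e.2) t)) →
          ∃ t ∈ Icc a b, ∃ t' ∈ Icc c d,
            Nr H (pos K.s (G.dist e.1 e.2) t' - pos K.s (G.dist e.1 e.2) t +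
                (N + 32 * S + 1) * K.s)
              (geo G e.1 e.2 (pos K.s (G.dist e.1 e.2) t))
              (geo G e.1 e.2 (pos K.s (G.dist e.1 e.2) t')) := by
  classical
  -- abbreviations
  set q : V × V → ℕ := fun e => G.dist e.1 e.2 / K.s + 1 with hq
  set ps : V × V → ℕ → ℕ := fun e t => pos K.s (G.dist e.1 e.2) t with hps
  set tot : V × V → ℝ := fun e => ∑ t ∈ range (q e), K.wt (qg K e t) with htot
  set M : ℕ := U.sup q with hM
  -- offers
  let cost : (V × V) × ℕ × ℕ × ℕ × ℕ → ℝ := fun o =>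
    (∑ t ∈ Icc o.2.1 o.2.2.1, K.wt (qg K o.1 t)) *
      ∑ t ∈ Icc o.2.2.2.1 o.2.2.2.2, K.wt (qg K o.1 t)
  let I : Finset ((V × V) × ℕ × ℕ × ℕ × ℕ) :=
    (U ×ˢ (range M ×ˢ (range M ×ˢ (range M ×ˢ range M)))).filter
      (fun o => o.2.1 ≤ o.2.2.1 ∧ o.2.2.1 ≤ o.2.2.2.1 ∧ o.2.2.2.1 ≤ o.2.2.2.2 ∧
        o.2.2.2.2 < q o.1 ∧ Γ * tot o.1 ≤ cost o)
  let sl : (V × V) × ℕ × ℕ × ℕ × ℕ → Finset (ℕ × ℕ) := fun o =>
    ((Icc o.2.1 o.2.2.1) ×ˢ (Icc o.2.2.2.1 o.2.2.2.2)).filter
      (fun x => K.hub (qg K o.1 x.1) ≠ none ∧ K.hub (qg K o.1 x.2) ≠ none)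
  let key : (V × V) × ℕ × ℕ × ℕ × ℕ → ℕ × ℕ → (V × ℕ) × (V × ℕ) := fun o x =>
    ((qk K o.1 x.1, x.1 % 17), (qk K o.1 x.2, x.2 % 17))
  let val : (V × V) × ℕ × ℕ × ℕ × ℕ → ℕ × ℕ → ℕ := fun o x =>
    ps o.1 x.2 - ps o.1 x.1 + N * K.s + 2 * (S * K.J)
  let w : (V × ℕ) × (V × ℕ) → ℝ := fun x => K.w x.1.1 * K.w x.2.1
  let lb : (V × ℕ) × (V × ℕ) → ℕ := fun x => G.dist x.1.1 x.2.1
  have hwT : ∀ k ∈ K.T, 0 ≤ K.w k := fun k hk => zero_le_one.trans (K.w_ge k hk)
  have hI : ∀ o ∈ I, o.1 ∈ U ∧ o.2.1 ≤ o.2.2.1 ∧ o.2.2.1 ≤ o.2.2.2.1 ∧ o.2.2.2.1 ≤ o.2.2.2.2 ∧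
        o.2.2.2.2 < q o.1 ∧ Γ * tot o.1 ≤ cost o := by
    intro o ho
    have h := Finset.mem_filter.1 ho
    exact ⟨(Finset.mem_product.1 h.1).1, h.2⟩
  have hgeo : ∀ e ∈ U, Geo G (geo G e.1 e.2) (G.dist e.1 e.2) := fun e he => geo_geo (hU e he).1
  -- facts about slots
  have hslot : ∀ o ∈ I, ∀ x ∈ sl o, x.1 ≤ x.2 ∧ x.2 < q o.1 ∧
      K.hub (qg K o.1 x.1) = some (qk K o.1 x.1) ∧ K.hub (qg K o.1 x.2) = some (qk K o.1 x.2) := by
    intro o ho x hx
    obtain ⟨_, h1, h2, h3, h4, _⟩ := hI o ho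
    have hx' := Finset.mem_filter.1 hx
    have hx1 := Finset.mem_product.1 hx'.1
    have ha := Finset.mem_Icc.1 hx1.1
    have hb := Finset.mem_Icc.1 hx1.2
    exact ⟨by omega, by omega, qk_spec K hx'.2.1, qk_spec K hx'.2.2⟩
  have hdist : ∀ o ∈ I, ∀ x ∈ sl o, G.Reachable (qk K o.1 x.1) (qk K o.1 x.2) ∧
      G.dist (qk K o.1 x.1) (qk K o.1 x.2) ≤ ps o.1 x.2 - ps o.1 x.1 + 2 * K.J ∧
      ps o.1 x.2 - ps o.1 x.1 ≤ G.dist (qk K o.1 x.1) (qk K o.1 x.2) + 2 * K.J := by
    intro o ho x hx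
    obtain ⟨h1, h2, h3, h4⟩ := hslot o ho x hx
    have hg := hgeo o.1 (hI o ho).1
    have n1 := (K.hub_spec _ _ h3).2
    have n2 := (K.hub_spec _ _ h4).2
    have n3 : Nr G (ps o.1 x.2 - ps o.1 x.1) (qg K o.1 x.1) (qg K o.1 x.2) :=
      hg.near _ _ (pos_mono _ _ h1) (pos_le _ _ _)
    have n4 := (n1.symm.trans n3).trans n2
    refine ⟨n4.reachable, ?_, ?_⟩
    · have := n4.dist_le
      omega
    · have n5 := (n1.trans (nr_of_reachable n4.reachable)).trans n2.symm
      have := hg.far (ps o.1 x.1) (ps o.1 x.2) _ (pos_mono _ _ h1) (pos_le _ _ _) n5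
      omega
  obtain ⟨B, hBI, hBc, hBn⟩ := potential I (qQ K vi) w
    (by
      intro x hx
      have h := (Finset.mem_filter.1 hx).1
      have h1 := Finset.mem_product.1 h
      exact mul_nonneg (hwT _ (Finset.mem_product.1 h1.1).1) (hwT _ (Finset.mem_product.1 h1.2).1))
    sl key val lb K.s (17 + N + 16 * S) K.s_pos
    (by
      -- injectivity
      intro o ho x hx y hy hxy
      have hx' : x ∈ sl o := hx
      have hy' : y ∈ sl o := hy
      obtain ⟨x1, x2, x3, x4⟩ := hslot o ho x hx'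
      obtain ⟨y1, y2, y3, y4⟩ := hslot o ho y hy'
      have hg := hgeo o.1 (hI o ho).1
      simp only [key, Prod.mk.injEq] at hxy
      obtain ⟨⟨e1, e2⟩, e3, e4⟩ := hxy
      have r1 : x.1 = y.1 := label_inj K hg (lt_of_le_of_lt x1 x2) (lt_of_le_of_lt y1 y2) x3
        (by rw [e1]; exact y3) e2
      have r2 : x.2 = y.2 := label_inj K hg x2 y2 x4 (by rw [e3]; exact y4) e4
      exact Prod.ext r1 r2)
    (by
      -- keys are payable
      intro o ho x hx
      obtain ⟨x1, x2, x3, x4⟩ := hslot o ho x hx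
      obtain ⟨d1, d2, d3⟩ := hdist o ho x hx
      obtain ⟨u1, u2, u3, u4⟩ := hU o.1 (hI o ho).1
      have hg := hgeo o.1 (hI o ho).1
      have t1 := K.hub_spec _ _ x3
      have t2 := K.hub_spec _ _ x4
      unfold qQ
      simp only [Finset.mem_filter, Finset.mem_product, Finset.mem_range, key]
      refine ⟨⟨⟨t1.1, Nat.mod_lt _ (by norm_num)⟩, t2.1, Nat.mod_lt _ (by norm_num)⟩, d1, ?_⟩
      refine le_trans ?_ u4
      have n1 : Nr G (ps o.1 x.1) o.1.1 (qg K o.1 x.1) := by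
        have := hg.near 0 (ps o.1 x.1) (Nat.zero_le _) (pos_le _ _ _)
        rw [geo_zero u1] at this
        simpa [qg] using this
      apply vol_le (n1.trans t1.2)
      have h5 : ps o.1 x.2 ≤ G.dist o.1.1 o.1.2 := pos_le _ _ _
      have h6 : ps o.1 x.1 ≤ ps o.1 x.2 := pos_mono _ _ x1
      have h7 := K.J_le
      have h8 := K.ρ_le
      omega)
    (by
      -- values
      intro o ho x hx
      obtain ⟨d1, d2, d3⟩ := hdist o ho x hx
      have h7 := K.J_le
      have h8 := K.s_pos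
      have h9 : K.J ≤ S * K.J := Nat.le_mul_of_pos_left _ (by omega)
      have h10 : S * K.J ≤ S * (8 * K.s) := Nat.mul_le_mul_left _ h7
      have h11 : (17 + N + 16 * S) * K.s = 17 * K.s + N * K.s + 2 * (S * (8 * K.s)) := by ring
      simp only [lb, key, val]
      constructor
      · omega
      · rw [h11]
        omega)
    cost
  -- the segments
  let D : Finset (V × V) := B.biUnion fun o =>
    ((range (q o.1)).filter (fun t => K.hub (qg K o.1 t) ≠ none)).image
      (fun t => (qg K o.1 t, qg K o.1 (t + 1)))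
  refine ⟨D, ?_, ?_, ?_⟩
  · intro x hx
    simp only [D, Finset.mem_biUnion, Finset.mem_image, Finset.mem_filter, Finset.mem_range] at hx
    obtain ⟨o, ho, t, ⟨ht, hn⟩, rfl⟩ := hx
    refine ⟨?_, hn⟩
    have hg := hgeo o.1 (hI o (hBI ho)).1
    have := hg.near _ _ (pos_mono K.s (G.dist o.1.1 o.1.2) (Nat.le_succ t)) (pos_le _ _ _)
    refine this.mono ?_
    have := pos_succ_le K.s (G.dist o.1.1 o.1.2) t
    simp only [Nat.succ_eq_add_one]
    omega
  · have h1 : ∑ x ∈ D, K.wt x.1 ≤ ∑ o ∈ B, tot o.1 := by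
      have hnn : ∀ x : V × V, 0 ≤ K.wt x.1 := fun x => K.wt_nonneg _
      refine (q_sum_biUnion_le B _ (fun x : V × V => K.wt x.1) hnn).trans ?_
      apply Finset.sum_le_sum
      intro o _
      refine (q_sum_image_le _ _ (fun x : V × V => K.wt x.1) hnn).trans ?_
      simp only [htot]
      apply Finset.sum_le_sum_of_subset_of_nonneg (Finset.filter_subset _ _)
      intro t _ _
      exact K.wt_nonneg _
    have h2 : ∑ o ∈ B, tot o.1 ≤ (∑ o ∈ B, cost o) / Γ := by
      rw [Finset.sum_div]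
      apply Finset.sum_le_sum
      intro o ho
      rw [le_div_iff₀ hΓ, mul_comm]
      exact (hI o (hBI ho)).2.2.2.2.2
    refine (h1.trans h2).trans ?_
    apply div_le_div_of_nonneg_right _ hΓ.le
    refine hBc.trans ?_
    calc ((17 + N + 16 * S : ℕ) : ℝ) * ∑ x ∈ qQ K vi, w x
        ≤ ((17 + N + 16 * S : ℕ) : ℝ) * (289 * (X.card * vi / K.v ^ 2)) :=
          mul_le_mul_of_nonneg_left (qQ_sum K vi) (Nat.cast_nonneg _)
      _ = 289 * (17 + N + 16 * S : ℕ) * (X.card * vi / K.v ^ 2) := by ring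
  · intro H hspan hfree hserved e he a b c d hab hbc hcd hd hcost
    have hoI : ((e, a, b, c, d) : (V × V) × ℕ × ℕ × ℕ × ℕ) ∈ I := by
      simp only [I, Finset.mem_filter, Finset.mem_product, Finset.mem_range]
      have hqM : q e ≤ M := Finset.le_sup (f := q) he
      have hd' : d < q e := hd
      refine ⟨⟨he, by omega, by omega, by omega, by omega⟩, hab, hbc, hcd, hd', hcost⟩
    -- walks along bought offers
    have hbought : ∀ o ∈ B, ∀ x ∈ sl o, Nr H (ps o.1 x.2 - ps o.1 x.1 + N * K.s)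
        (qg K o.1 x.1) (qg K o.1 x.2) := by
      intro o ho x hx
      obtain ⟨x1, x2, x3, x4⟩ := hslot o (hBI ho) x hx
      have hg := hgeo o.1 (hI o (hBI ho)).1
      obtain ⟨u1, u2, u3, u4⟩ := hU o.1 (hI o (hBI ho)).1
      apply along K hg u3 hfree hserved _ x1 x2.le
      intro t ht hn
      simp only [D, Finset.mem_biUnion, Finset.mem_image, Finset.mem_filter, Finset.mem_range]
      exact ⟨o, ho, t, ⟨ht, hn⟩, rfl⟩
    have hjump : ∀ o ∈ I, ∀ x ∈ sl o, Nr H (S * K.J) (qg K o.1 x.1) (qk K o.1 x.1) ∧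
        Nr H (S * K.J) (qg K o.1 x.2) (qk K o.1 x.2) := by
      intro o ho x hx
      obtain ⟨x1, x2, x3, x4⟩ := hslot o ho x hx
      exact ⟨hspan _ _ _ (K.hub_spec _ _ x3).2, hspan _ _ _ (K.hub_spec _ _ x4).2⟩
    have hJS : 4 * (S * K.J) ≤ 32 * S * K.s := by
      have h10 : S * K.J ≤ S * (8 * K.s) := Nat.mul_le_mul_left _ K.J_le
      have h11 : 32 * S * K.s = 4 * (S * (8 * K.s)) := by ring
      omega
    have hexp : (N + 32 * S + 1) * K.s = N * K.s + 32 * S * K.s + K.s := by ring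
    have hsum : ∑ x ∈ sl (e, a, b, c, d), w (key (e, a, b, c, d) x) = cost (e, a, b, c, d) := by
      simp only [sl, cost, w, key]
      rw [Finset.sum_mul_sum, ← Finset.sum_product', Finset.sum_filter]
      apply Finset.sum_congr rfl
      intro x _
      by_cases h1 : K.hub (qg K e x.1) = none
      · simp [h1, wt_of_none K h1]
      · by_cases h2 : K.hub (qg K e x.2) = none
        · simp [h2, wt_of_none K h2]
        · rw [if_pos ⟨h1, h2⟩, wt_of_some K (qk_spec K h1), wt_of_some K (qk_spec K h2)]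
    have hposcost : 0 < cost (e, a, b, c, d) ∨ cost (e, a, b, c, d) = 0 := by
      have : 0 ≤ cost (e, a, b, c, d) := by
        simp only [cost]
        exact mul_nonneg (Finset.sum_nonneg fun t _ => K.wt_nonneg _)
          (Finset.sum_nonneg fun t _ => K.wt_nonneg _)
      rcases this.lt_or_eq with h | h
      · exact Or.inl h
      · exact Or.inr h.symm
    -- if the offer is bought we still need a slot; treat both cases
    by_cases hB : ((e, a, b, c, d) : (V × V) × ℕ × ℕ × ℕ × ℕ) ∈ B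
    · -- bought: walk along the geodesic
      obtain ⟨u1, u2, u3, u4⟩ := hU e he
      have hg := hgeo e he
      refine ⟨a, Finset.mem_Icc.2 ⟨le_rfl, hab⟩, c, Finset.mem_Icc.2 ⟨le_rfl, hcd⟩, ?_⟩
      have h := along K hg u3 hfree hserved (fun t ht hn => by
        simp only [D, Finset.mem_biUnion, Finset.mem_image, Finset.mem_filter, Finset.mem_range]
        exact ⟨_, hB, t, ⟨ht, hn⟩, rfl⟩) (a := a) (b := c) (hab.trans hbc) (by omega)
      refine h.mono ?_
      rw [hexp]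
      omega
    · obtain ⟨A, hA, hAc, hAn⟩ := hBn _ hoI hB
      have hex : ∃ x ∈ sl (e, a, b, c, d), x ∉ A := by
        by_contra hcon
        push Not at hcon
        have : A = sl (e, a, b, c, d) := Finset.Subset.antisymm hA hcon
        rw [this, hsum] at hAc
        exact lt_irrefl _ hAc
      obtain ⟨x, hx, hxA⟩ := hex
      obtain ⟨o, ho, y, hy, hkey, hval⟩ := hAn x hx hxA
      have hx' := Finset.mem_product.1 (Finset.mem_filter.1 hx).1
      refine ⟨x.1, hx'.1, x.2, hx'.2, ?_⟩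
      have j1 := hjump _ hoI x hx
      have j2 := hjump o (hBI ho) y hy
      have n := hbought o ho y hy
      simp only [key, Prod.mk.injEq] at hkey
      obtain ⟨⟨e1, e2⟩, e3, e4⟩ := hkey
      rw [e1, e3] at j2
      have n2 := (((j1.1.trans j2.1.symm).trans n).trans j2.2).trans j1.2.symm
      refine n2.mono ?_
      simp only [val] at hval
      rw [hexp]
      have : ps e x.2 - ps e x.1 = pos K.s (G.dist e.1 e.2) x.2 - pos K.s (G.dist e.1 e.2) x.1 :=
        rfl
      omega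

end Pool.Agent.H59.SP
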