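import Pool.Agent.H59.SP.Basic

/-!
# The route through the blocks of a geodesic

Abstract part of the scale lemma: from the sparse property, the direct property and the bound
`θ` for short pieces, conclude for the whole geodesic.
-/

namespace Pool.Agent.H59.SP

open Finset

variable {V : Type*} {H : SimpleGraph V}

theorem pos_sub_le {s m a b : ℕ} (hab : a ≤ b) : pos s m b - pos s m a ≤ (b - a) * s := by
  simp only [pos]
  have h1 : b * s = a * s + (b - a) * s := by
    rw [← Nat.add_mul]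
    congr 1
    omega
  omega

/-- weighted median -/
theorem median (ω : ℕ → ℝ) (hω : ∀ t, 0 ≤ ω t) (l h : ℕ) (hlh : l < h) :
    ∃ x, l ≤ x ∧ x < h ∧ (∑ t ∈ Ico l h, ω t) / 2 ≤ ∑ t ∈ Icc l x, ω t ∧
      (∑ t ∈ Ico l h, ω t) / 2 ≤ ∑ t ∈ Icc x (h - 1), ω t := by
  classical
  have hex : ∃ x, l ≤ x ∧ x < h ∧ (∑ t ∈ Ico l h, ω t) / 2 ≤ ∑ t ∈ Icc l x, ω t := by
    refine ⟨h - 1, by omega, by omega, ?_⟩
    have h1 : Icc l (h - 1) = Ico l h := by
      ext t
      simp only [mem_Icc, mem_Ico]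
      omega
    rw [h1]
    have := Finset.sum_nonneg (fun t (_ : t ∈ Ico l h) => hω t)
    linarith
  obtain ⟨hx1, hx2, hx3⟩ := Nat.find_spec hex
  set x := Nat.find hex with hx
  refine ⟨x, hx1, hx2, hx3, ?_⟩
  have h2 : Icc x (h - 1) = Ico x h := by
    ext t
    simp only [mem_Icc, mem_Ico]
    omega
  rw [h2]
  have h3 : ∑ t ∈ Ico l x, ω t ≤ (∑ t ∈ Ico l h, ω t) / 2 := by
    rcases Nat.eq_or_lt_of_le hx1 with h4 | h4
    · rw [← h4, Finset.Ico_self, Finset.sum_empty]
      have := Finset.sum_nonneg (fun t (_ : t ∈ Ico l h) => hω t)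
      linarith
    · have h5 := Nat.find_min hex (m := x - 1) (by omega)
      have h6 : Icc l (x - 1) = Ico l x := by
        ext t
        simp only [mem_Icc, mem_Ico]
        omega
      rw [h6] at h5
      by_contra h7
      exact h5 ⟨by omega, by omega, (not_le.1 h7).le⟩
  have h8 := Finset.sum_Ico_consecutive ω hx1 hx2.le
  linarith

theorem route (g : ℕ → V) (s m Qc κ₁ κ₂ θ : ℕ) (hs : 0 < s) (hQ : 1 ≤ Qc)
    (hm : (Qc + 1) * s ≤ m) (ω : ℕ → ℝ) (hω : ∀ t, 0 ≤ ω t) (B Γ : ℝ) (hΓ : 0 < Γ)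
    (hB : 2 * Qc ^ 2 * Γ ≤ B)
    (hsp : ∀ a b, a ≤ b → b ≤ m / s + 1 → ∑ t ∈ Ico a b, ω t ≤ B →
      Nr H (pos s m b - pos s m a + κ₁) (g (pos s m a)) (g (pos s m b)))
    (hdi : ∀ a b c d, a ≤ b → b ≤ c → c ≤ d → d < m / s + 1 →
      Γ * ∑ t ∈ range (m / s + 1), ω t ≤ (∑ t ∈ Icc a b, ω t) * ∑ t ∈ Icc c d, ω t →
      ∃ t ∈ Icc a b, ∃ t' ∈ Icc c d,
        Nr H (pos s m t' - pos s m t + κ₂) (g (pos s m t)) (g (pos s m t')))
    (hth : ∀ a b, a ≤ b → b ≤ m → Qc * (b - a) ≤ 2 * m → Nr H (b - a + θ) (g a) (g b)) :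
    Nr H (m + 3 * θ + 2 * κ₁ + 2 * κ₂) (g 0) (g m) := by
  classical
  set q := m / s + 1 with hq
  set b0 := q / Qc + 1 with hb0
  set bl : ℕ → ℕ := fun j => min (j * b0) q with hbl
  have hbl0 : bl 0 = 0 := by simp [hbl]
  have hQb : q ≤ Qc * b0 := by
    have h1 := Nat.div_add_mod q Qc
    have h2 := Nat.mod_lt q (show 0 < Qc by omega)
    have h3 : Qc * b0 = Qc * (q / Qc) + Qc := by rw [hb0]; ring
    omega
  have hblQ : bl Qc = q := by
    simp only [hbl]
    omega
  have hblm : Monotone bl := by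
    intro a b hab
    exact min_le_min (Nat.mul_le_mul_right _ hab) le_rfl
  have hblq : ∀ j, bl j ≤ q := fun j => min_le_right _ _
  have hbls : ∀ j, bl (j + 1) ≤ bl j + b0 := by
    intro j
    have h1 : (j + 1) * b0 = j * b0 + b0 := by ring
    show min ((j + 1) * b0) q ≤ min (j * b0) q + b0
    rw [h1]
    rcases le_total (j * b0) q with h2 | h2
    · rw [min_eq_left h2]
      exact min_le_left _ _
    · rw [min_eq_right h2]
      exact (min_le_right _ _).trans (Nat.le_add_right _ _)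
  -- widths
  have hqs : q * s ≤ m + s := by
    rw [hq, Nat.add_mul, one_mul]
    have := Nat.div_mul_le_self m s
    omega
  have hw : Qc * (b0 * s) ≤ 2 * m := by
    have h1 : Qc * (b0 * s) = Qc * (q / Qc) * s + Qc * s := by rw [hb0]; ring
    have h2 : Qc * (q / Qc) * s ≤ q * s := Nat.mul_le_mul_right _ (Nat.mul_div_le q Qc)
    have h3 : (Qc + 1) * s = Qc * s + s := by ring
    omega
  have hshort : ∀ t t', t ≤ t' → t' ≤ t + b0 →
      Nr H (pos s m t' - pos s m t + θ) (g (pos s m t)) (g (pos s m t')) := by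
    intro t t' h1 h2
    refine hth _ _ (pos_mono s m h1) (pos_le _ _ _) ?_
    have h3 := pos_sub_le (s := s) (m := m) h1
    have h4 : (t' - t) * s ≤ b0 * s := Nat.mul_le_mul_right _ (by omega)
    exact (Nat.mul_le_mul_left _ (h3.trans h4)).trans hw
  -- weights of blocks
  set W : ℕ → ℝ := fun j => ∑ t ∈ Ico (bl j) (bl (j + 1)), ω t with hW
  have hW0 : ∀ j, 0 ≤ W j := fun j => Finset.sum_nonneg fun t _ => hω t
  have hWsum : ∀ a b, a ≤ b → ∑ t ∈ Ico (bl a) (bl b), ω t = ∑ j ∈ Ico a b, W j := by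
    intro a b hab
    induction b, hab using Nat.le_induction with
    | base => simp
    | succ b hab ih =>
      rw [← Finset.sum_Ico_consecutive ω (hblm hab) (hblm (Nat.le_succ b)), ih,
        Finset.sum_Ico_succ_top hab]
  set B0 : ℝ := 2 * Qc * Γ with hB0
  have hQpos : (0 : ℝ) < Qc := by exact_mod_cast (by omega : 0 < Qc)
  have hB0pos : 0 < B0 := by positivity
  have hQB0 : Qc * B0 ≤ B := by
    have : (Qc : ℝ) * B0 = 2 * Qc ^ 2 * Γ := by rw [hB0]; ring
    rw [this]
    exact hB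
  -- sum over few light blocks
  have hlight : ∀ a b, a ≤ b → b ≤ Qc → (∀ j, a ≤ j → j < b → W j < B0) →
      ∑ t ∈ Ico (bl a) (bl b), ω t ≤ B := by
    intro a b hab hbQ hj
    rw [hWsum a b hab]
    have h1 : ∑ j ∈ Ico a b, W j ≤ ∑ _j ∈ Ico a b, B0 :=
      Finset.sum_le_sum fun j hj' => (hj j (mem_Ico.1 hj').1 (mem_Ico.1 hj').2).le
    have h2 : ∑ _j ∈ Ico a b, B0 = ((b - a : ℕ) : ℝ) * B0 := by
      rw [Finset.sum_const, Nat.card_Ico, nsmul_eq_mul]
    have h3 : ((b - a : ℕ) : ℝ) ≤ Qc := by exact_mod_cast (by omega : b - a ≤ Qc)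
    have h4 : ((b - a : ℕ) : ℝ) * B0 ≤ Qc * B0 := mul_le_mul_of_nonneg_right h3 hB0pos.le
    linarith
  have hp0 : pos s m 0 = 0 := pos_zero s m
  have hpq : pos s m q = m := pos_last hs m
  by_cases hall : ∀ j < Qc, W j < B0
  · have h1 := hsp 0 q (Nat.zero_le _) le_rfl (by
      have := hlight 0 Qc (Nat.zero_le _) le_rfl (fun j _ hj => hall j hj)
      rwa [hbl0, hblQ] at this)
    rw [hp0, hpq] at h1
    exact h1.mono (by omega)
  · push Not at hall
    obtain ⟨j1, hj1, hj1'⟩ := hall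
    -- the set of heavy blocks
    set A := (range Qc).filter (fun j => B0 ≤ W j) with hA
    have hAne : A.Nonempty := ⟨j1, by rw [hA, mem_filter]; exact ⟨mem_range.2 hj1, hj1'⟩⟩
    set ja := A.min' hAne with hja
    set jb := A.max' hAne with hjb
    obtain ⟨js, hjs, hjsmax⟩ := Finset.exists_max_image (range Qc) W ⟨j1, mem_range.2 hj1⟩
    have hjsQ := mem_range.1 hjs
    have hWjs : B0 ≤ W js := hj1'.trans (hjsmax j1 (mem_range.2 hj1))
    have hjsA : js ∈ A := by rw [hA, mem_filter]; exact ⟨hjs, hWjs⟩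
    have hjaA : ja ∈ A := A.min'_mem hAne
    have hjbA : jb ∈ A := A.max'_mem hAne
    rw [hA, mem_filter, mem_range] at hjaA hjbA
    have hjale : ja ≤ js := A.min'_le js hjsA
    have hjbge : js ≤ jb := A.le_max' js hjsA
    have hltja : ∀ j, j < ja → W j < B0 := by
      intro j hj
      by_contra hcon
      have : j ∈ A := by
        rw [hA, mem_filter, mem_range]
        exact ⟨by omega, not_lt.1 hcon⟩
      have := A.min'_le j this
      omega
    have hgtjb : ∀ j, jb < j → j < Qc → W j < B0 := by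
      intro j hj hjQ
      by_contra hcon
      have : j ∈ A := by
        rw [hA, mem_filter, mem_range]
        exact ⟨hjQ, not_lt.1 hcon⟩
      have := A.le_max' j this
      omega
    have hne : ∀ j, B0 ≤ W j → bl j < bl (j + 1) := by
      intro j hj
      by_contra hcon
      have h1 : Ico (bl j) (bl (j + 1)) = ∅ := Finset.Ico_eq_empty hcon
      have h2 : W j = 0 := by simp only [hW, h1, Finset.sum_empty]
      linarith
    have hIcc : ∀ j, B0 ≤ W j → Icc (bl j) (bl (j + 1) - 1) = Ico (bl j) (bl (j + 1)) := by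
      intro j hj
      have := hne j hj
      ext t
      simp only [mem_Icc, mem_Ico]
      omega
    -- total weight
    have htot : ∑ t ∈ range q, ω t ≤ Qc * W js := by
      have h1 := hWsum 0 Qc (Nat.zero_le _)
      rw [hbl0, hblQ] at h1
      rw [Finset.range_eq_Ico, h1]
      calc ∑ j ∈ Ico 0 Qc, W j ≤ ∑ _j ∈ Ico 0 Qc, W js :=
            Finset.sum_le_sum fun j hj => hjsmax j (mem_range.2 (mem_Ico.1 hj).2)
        _ = Qc * W js := by rw [Finset.sum_const, Nat.card_Ico, nsmul_eq_mul]; simp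
    have hprod : ∀ x y : ℝ, B0 ≤ x → W js / 2 ≤ y → Γ * ∑ t ∈ range q, ω t ≤ x * y := by
      intro x y hx hy
      have h0 : 0 ≤ W js / 2 := by linarith [hW0 js]
      calc Γ * ∑ t ∈ range q, ω t ≤ Γ * (Qc * W js) := mul_le_mul_of_nonneg_left htot hΓ.le
        _ = B0 * (W js / 2) := by rw [hB0]; ring
        _ ≤ x * y := mul_le_mul hx hy h0 (hB0pos.le.trans hx)
    obtain ⟨x, hx1, hx2, hx3, hx4⟩ := median ω hω (bl js) (bl (js + 1)) (hne js hWjs)
    have hx3' : W js / 2 ≤ ∑ t ∈ Icc (bl js) x, ω t := hx3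
    have hx4' : W js / 2 ≤ ∑ t ∈ Icc x (bl (js + 1) - 1), ω t := hx4
    -- left part
    have hleft : ∃ t2, bl js ≤ t2 ∧ t2 ≤ x ∧
        Nr H (pos s m t2 + κ₁ + κ₂ + θ) (g 0) (g (pos s m t2)) := by
      have hs0 := hsp 0 (bl ja) (Nat.zero_le _) (hblq _) (by
        have := hlight 0 ja (Nat.zero_le _) hjaA.1.le (fun j _ hj => hltja j hj)
        rwa [hbl0] at this)
      rw [hp0] at hs0
      rcases Nat.eq_or_lt_of_le hjale with h1 | h1
      · refine ⟨bl js, le_rfl, hx1, ?_⟩
        rw [h1] at hs0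
        exact hs0.mono (by omega)
      · have h2 : bl (ja + 1) ≤ bl js := hblm h1
        have h3 := hne ja hjaA.2
        obtain ⟨t1, ht1, t2, ht2, hN⟩ := hdi (bl ja) (bl (ja + 1) - 1) (bl js) x (by omega)
          (by omega) hx1 (by have := hblq (js + 1); omega) (by
            rw [hIcc ja hjaA.2]
            exact hprod _ _ hjaA.2 hx3')
        rw [mem_Icc] at ht1 ht2
        refine ⟨t2, ht2.1, ht2.2, ?_⟩
        have h4 := hshort (bl ja) t1 ht1.1 (by have := hbls ja; omega)
        refine ((hs0.trans h4).trans hN).mono ?_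
        have h5 := pos_mono s m ht1.1
        have h6 := pos_mono s m (show t1 ≤ t2 by omega)
        omega
    have hright : ∃ t3, x ≤ t3 ∧ t3 < bl (js + 1) ∧
        Nr H (m - pos s m t3 + κ₁ + κ₂ + θ) (g (pos s m t3)) (g m) := by
      have hs0 := hsp (bl (jb + 1)) q (hblq _) le_rfl (by
        have := hlight (jb + 1) Qc (by omega) le_rfl (fun j hj hj' => hgtjb j (by omega) hj')
        rwa [hblQ] at this)
      rw [hpq] at hs0
      rcases Nat.eq_or_lt_of_le hjbge with h1 | h1
      · refine ⟨x, le_rfl, hx2, ?_⟩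
        rw [← h1] at hs0
        have h4 := hshort x (bl (js + 1)) hx2.le (by have := hbls js; omega)
        refine (h4.trans hs0).mono ?_
        have h5 := pos_mono s m hx2.le
        have h6 := pos_le s m (bl (js + 1))
        omega
      · have h2 : bl (js + 1) ≤ bl jb := hblm h1
        have h3 := hne jb hjbA.2
        obtain ⟨t3, ht3, t4, ht4, hN⟩ := hdi x (bl (js + 1) - 1) (bl jb) (bl (jb + 1) - 1)
          (by omega) (by omega) (by omega) (by have := hblq (jb + 1); omega) (by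
            rw [hIcc jb hjbA.2]
            exact (hprod _ _ hjbA.2 hx4').trans_eq (mul_comm _ _))
        rw [mem_Icc] at ht3 ht4
        refine ⟨t3, ht3.1, by omega, ?_⟩
        have h4 := hshort t4 (bl (jb + 1)) (by omega) (by have := hbls jb; omega)
        refine ((hN.trans h4).trans hs0).mono ?_
        have h5 := pos_mono s m (show t4 ≤ bl (jb + 1) by omega)
        have h6 := pos_mono s m (show t3 ≤ t4 by omega)
        have h7 := pos_le s m (bl (jb + 1))
        omega
    obtain ⟨t2, ht2, ht2', hN2⟩ := hleft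
    obtain ⟨t3, ht3, ht3', hN3⟩ := hright
    have hmid := hshort t2 t3 (by omega) (by have := hbls js; omega)
    refine ((hN2.trans hmid).trans hN3).mono ?_
    have h5 := pos_mono s m (show t2 ≤ t3 by omega)
    have h6 := pos_le s m t3
    omega

end Pool.Agent.H59.SP
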