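import Pool.Agent.H59.SP.Basic

/-!
# Module VIT: Vitali families of balls and the hub systems

`vitali`: greedy choice by decreasing volume among the vertices `y` with `vol ρ y > v`.
Proof: strong induction on `Y.card` for a general `Y : Finset V` of such vertices (`hub` is only
required for `y ∈ Y`): pick `y₀ ∈ Y` of maximal volume, remove from `Y` all `y` whose ball has a
common point of `X` with the ball of `y₀` (this includes `y₀`, as its ball contains a point of `X`),
apply the induction hypothesis, and assign `y₀` to the removed vertices: `d(y, y₀) ≤ 2ρ`.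

`exists_hubSys`: the hub system with `s`, `ρ = 4 s`, `J = 8 s`, `w K = vol (4 s) K / v`; `sum_w`
holds since the sets `{x ∈ X | Nr G ρ K x}` (`K ∈ A`) are disjoint subsets of
`{x ∈ X | Nr G (z + ρ) y x}`.

`hubOne`: the level one hub system given by clusters.
-/

namespace Pool.Agent.H59.SP

open Finset

variable {V : Type*}

theorem vitali_aux (G : SimpleGraph V) (X : Finset V) (ρ : ℕ) :
    ∀ (n : ℕ) (Y : Finset V), Y.card ≤ n → (∀ y ∈ Y, 0 < vol G X ρ y) →
      ∃ (T : Finset V) (hub : V → V), T ⊆ Y ∧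
        (∀ y ∈ Y, hub y ∈ T ∧ Nr G (2 * ρ) y (hub y) ∧ vol G X ρ y ≤ vol G X ρ (hub y)) ∧
        (∀ k ∈ T, ∀ k' ∈ T, k ≠ k' → ∀ x ∈ X, Nr G ρ k x → ¬ Nr G ρ k' x) := by
  classical
  intro n
  induction n with
  | zero =>
    intro Y hY _
    have hY0 : Y = ∅ := Finset.card_eq_zero.1 (by omega)
    subst hY0
    exact ⟨∅, id, by simp, by simp, by simp⟩
  | succ n ih =>
    intro Y hY hpos
    rcases Y.eq_empty_or_nonempty with hY0 | hY0
    · subst hY0
      exact ⟨∅, id, by simp, by simp, by simp⟩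
    obtain ⟨y₀, hy₀, hmax⟩ := Finset.exists_max_image Y (fun y => vol G X ρ y) hY0
    have hball : ∃ x ∈ X, Nr G ρ y₀ x := by
      have h := hpos y₀ hy₀
      unfold vol at h
      rw [Finset.card_pos] at h
      obtain ⟨x, hx⟩ := h
      rw [Finset.mem_filter] at hx
      exact ⟨x, hx.1, hx.2⟩
    let Y' : Finset V := Y.filter (fun y => ¬ ∃ x ∈ X, Nr G ρ y₀ x ∧ Nr G ρ y x)
    have hY'sub : Y' ⊆ Y := Finset.filter_subset _ _
    have hy₀' : y₀ ∉ Y' := by
      intro h
      rw [Finset.mem_filter] at h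
      obtain ⟨x, hx, hx'⟩ := hball
      exact h.2 ⟨x, hx, hx', hx'⟩
    have hcard : Y'.card ≤ n := by
      have : Y'.card < Y.card := Finset.card_lt_card
        ⟨hY'sub, fun h => hy₀' (h hy₀)⟩
      omega
    obtain ⟨T, hub, hT, hhub, hdis⟩ := ih Y' hcard (fun y hy => hpos y (hY'sub hy))
    refine ⟨insert y₀ T, fun y => if y ∈ Y' then hub y else y₀, ?_, ?_, ?_⟩
    · intro k hk
      rw [Finset.mem_insert] at hk
      rcases hk with rfl | hk
      · exact hy₀
      · exact hY'sub (hT hk)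
    · intro y hy
      by_cases hyY' : y ∈ Y'
      · simp only [hyY', if_true]
        obtain ⟨h1, h2, h3⟩ := hhub y hyY'
        exact ⟨Finset.mem_insert_of_mem h1, h2, h3⟩
      · simp only [hyY', if_false]
        refine ⟨Finset.mem_insert_self _ _, ?_, hmax y hy⟩
        have : ∃ x ∈ X, Nr G ρ y₀ x ∧ Nr G ρ y x := by
          by_contra hcon
          exact hyY' (Finset.mem_filter.2 ⟨hy, hcon⟩)
        obtain ⟨x, -, hx1, hx2⟩ := this
        exact (hx2.trans hx1.symm).mono (by omega)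
    · have key : ∀ k ∈ T, ∀ x ∈ X, Nr G ρ y₀ x → ¬ Nr G ρ k x := by
        intro k hk x hx h1 h2
        have := hT hk
        rw [Finset.mem_filter] at this
        exact this.2 ⟨x, hx, h1, h2⟩
      intro k hk k' hk' hne x hx h1 h2
      rw [Finset.mem_insert] at hk hk'
      rcases hk with rfl | hk
      · rcases hk' with rfl | hk'
        · exact hne rfl
        · exact key k' hk' x hx h1 h2
      · rcases hk' with rfl | hk'
        · exact key k hk x hx h2 h1
        · exact hdis k hk k' hk' hne x hx h1 h2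

theorem vitali [Fintype V] (G : SimpleGraph V) (X : Finset V) (ρ v : ℕ) :
    ∃ (T : Finset V) (hub : V → Option V),
      (∀ y, hub y = none → vol G X ρ y ≤ v) ∧
      (∀ y k, hub y = some k → k ∈ T ∧ Nr G (2 * ρ) y k ∧ vol G X ρ y ≤ vol G X ρ k) ∧
      (∀ k ∈ T, v < vol G X ρ k) ∧
      (∀ k ∈ T, ∀ k' ∈ T, k ≠ k' → ∀ x ∈ X, Nr G ρ k x → ¬ Nr G ρ k' x) := by
  classical
  let Y : Finset V := Finset.univ.filter (fun y => v < vol G X ρ y)
  have hmemY : ∀ y, y ∈ Y ↔ v < vol G X ρ y := by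
    intro y
    simp [Y]
  obtain ⟨T, hub, hT, hhub, hdis⟩ := vitali_aux G X ρ Y.card Y le_rfl
    (fun y hy => lt_of_le_of_lt (Nat.zero_le _) ((hmemY y).1 hy))
  refine ⟨T, fun y => if y ∈ Y then some (hub y) else none, ?_, ?_, ?_, hdis⟩
  · intro y hy
    by_cases h : y ∈ Y
    · simp [h] at hy
    · rw [hmemY] at h
      omega
  · intro y k hk
    by_cases h : y ∈ Y
    · simp only [h, if_true, Option.some.injEq] at hk
      subst hk
      exact hhub y h
    · simp [h] at hk
  · intro k hk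
    exact (hmemY k).1 (hT hk)

/-- consequence of disjointness -/
theorem vitali_sum {G : SimpleGraph V} {X T : Finset V} {ρ : ℕ}
    (hT : ∀ k ∈ T, ∀ k' ∈ T, k ≠ k' → ∀ x ∈ X, Nr G ρ k x → ¬ Nr G ρ k' x)
    (y : V) (z : ℕ) (A : Finset V) (hA : A ⊆ T) (hAz : ∀ k ∈ A, Nr G z y k) :
    ∑ k ∈ A, vol G X ρ k ≤ vol G X (z + ρ) y := by
  classical
  unfold vol
  rw [← Finset.card_biUnion]
  · apply Finset.card_le_card
    intro c hc
    rw [Finset.mem_biUnion] at hc
    obtain ⟨k, hk, hc⟩ := hc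
    rw [Finset.mem_filter] at hc ⊢
    exact ⟨hc.1, (hAz k hk).trans hc.2⟩
  · intro k hk k' hk' hne
    rw [Function.onFun, Finset.disjoint_left]
    intro c hc hc'
    rw [Finset.mem_filter] at hc hc'
    exact hT k (hA hk) k' (hA hk') hne c hc.1 hc.2 hc'.2

/-- consequence of disjointness -/
theorem vitali_sum_all {G : SimpleGraph V} {X T : Finset V} {ρ : ℕ}
    (hT : ∀ k ∈ T, ∀ k' ∈ T, k ≠ k' → ∀ x ∈ X, Nr G ρ k x → ¬ Nr G ρ k' x) :
    ∑ k ∈ T, vol G X ρ k ≤ X.card := by
  classical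
  unfold vol
  rw [← Finset.card_biUnion]
  · apply Finset.card_le_card
    intro c hc
    rw [Finset.mem_biUnion] at hc
    obtain ⟨k, hk, hc⟩ := hc
    rw [Finset.mem_filter] at hc
    exact hc.1
  · intro k hk k' hk' hne
    rw [Function.onFun, Finset.disjoint_left]
    intro c hc hc'
    rw [Finset.mem_filter] at hc hc'
    exact hT k hk k' hk' hne c hc.1 hc.2 hc'.2

theorem exists_hubSys [Fintype V] (G : SimpleGraph V) (X : Finset V) (s v : ℕ) (hs : 0 < s)
    (hv : 0 < v) :
    ∃ K : HubSys G X, K.s = s ∧ K.v = (v : ℝ) ∧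
      (∀ y, K.hub y = none → vol G X (4 * s) y ≤ v) ∧
      (∀ y k, K.hub y = some k → (vol G X (4 * s) y : ℝ) ≤ K.w k * v) := by
  obtain ⟨T, hub, hnone, hsome, hbig, hdis⟩ := vitali G X (4 * s) v
  have hv' : (0 : ℝ) < (v : ℝ) := by exact_mod_cast hv
  refine ⟨{ T := T, hub := hub, w := fun k => (vol G X (4 * s) k : ℝ) / v, s := s, J := 8 * s,
            ρ := 4 * s, v := (v : ℝ), s_pos := hs, v_pos := hv', J_le := le_rfl, ρ_le := le_rfl,
            hub_spec := ?_, w_ge := ?_, sum_w := ?_, sum_all := ?_ }, rfl, rfl, hnone, ?_⟩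
  · intro y k hk
    obtain ⟨h1, h2, -⟩ := hsome y k hk
    exact ⟨h1, h2.mono (by omega)⟩
  · intro k hk
    rw [one_le_div hv']
    exact_mod_cast (hbig k hk).le
  · intro y z A hA hAz
    rw [← Finset.sum_div]
    apply div_le_div_of_nonneg_right _ hv'.le
    exact_mod_cast vitali_sum hdis y z A hA hAz
  · rw [← Finset.sum_div]
    apply div_le_div_of_nonneg_right _ hv'.le
    exact_mod_cast vitali_sum_all hdis
  · intro y k hk
    have h := (hsome y k hk).2.2
    show (vol G X (4 * s) y : ℝ) ≤ (vol G X (4 * s) k : ℝ) / v * v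
    rw [div_mul_cancel₀ _ hv'.ne']
    exact_mod_cast h

theorem exists_hubOne (G : SimpleGraph V) (X : Finset V) (c : V → Option V)
    (hc : ∀ y K, c y = some K → K ∈ X ∧ G.Adj y K) :
    ∃ K : HubSys G X, K.s = 1 ∧ K.v = 1 ∧ K.J = 1 ∧ K.hub = c ∧ K.T = X ∧ K.w = fun _ => 1 := by
  refine ⟨{ T := X, hub := c, w := fun _ => 1, s := 1, J := 1, ρ := 0, v := 1,
            s_pos := one_pos, v_pos := one_pos, J_le := by norm_num, ρ_le := by norm_num,
            hub_spec := ?_, w_ge := ?_, sum_w := ?_, sum_all := ?_ },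
          rfl, rfl, rfl, rfl, rfl, rfl⟩
  · intro y K hK
    exact ⟨(hc y K hK).1, Nr.of_adj (hc y K hK).2⟩
  · intro K _
    exact le_rfl
  · intro y z A hA hAz
    classical
    have h : A.card ≤ vol G X (z + 0) y := by
      unfold vol
      apply Finset.card_le_card
      intro k hk
      rw [Finset.mem_filter]
      exact ⟨hA hk, by simpa using hAz k hk⟩
    have h' : (A.card : ℝ) ≤ (vol G X (z + 0) y : ℝ) := by exact_mod_cast h
    simpa using h'
  · simp

end Pool.Agent.H59.SP
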