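import Pool.Agent.H59.SP.Basic
import Pool.Agent.H59.SP.Vitali

/-!
# Module SPA: the sparse part is free

`sparse_seg`: `g p, .., g p'` a piece of length `≤ s` of a geodesic, `vol (4 s) (g p) ≤ W * vv Δ i`.
Let `lam = B ^ i` (`3 lam ≤ s`, so `9 lam ≤ 3 s`). Take `vitali G X (3 * lam) (vv Δ i)`: `T, hub`.
If `hub (g t) = none` then `vol (3 lam) (g t) ≤ vv Δ i`, so by `PP ... i C` (with `x = B`)
`Nr H (t' - t + C * B ^ (i-1)) (g t) (g t')` for `t ≤ t' ≤ t + lam` (cold move).
If `hub (g t) = some k`, `d(g t, k) ≤ 6 lam`; if `t'` is the last position `≤ p'` with the same hub then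
`Nr H (12 S lam) (g t) (g t')` (through `k`, by `Span`), and one more step costs `S` (jump).
Claim, by induction on `p' - t` for `p ≤ t ≤ p'`:
`Nr H (p' - t + ((p' - t) / lam + 1) * (C * B ^ (i-1)) + cnt t * (13 * S * lam)) (g t) (g p')`,
where `cnt t` is the number of distinct hubs of `g t, .., g p'`: cold move: to `min (t + lam) p'`
(if `t + lam ≤ p'` then `(p' - t) / lam` drops by one; otherwise we are done); jump: to
`min (t' + 1) p'`, `cnt` drops by one. Finally `cnt p ≤ W`: the hubs `k` on the piece satisfy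
`Nr G (s + 6 lam) (g p) k`, so by `vitali_sum`
`cnt * vv Δ i ≤ ∑ vol (3 lam) k ≤ vol (s + 9 lam) (g p) ≤ vol (4 s) (g p) ≤ W * vv Δ i`
(strict `>` in `vitali`: `vv Δ i < vol (3 lam) k`; if `vv Δ i = 0` then `vol (4 s) (g p) = 0` and
there are no hubs).

`sparse_run`: a run of segments of total weight `≤ B`: free segments have error `E` (at most
`m / s + 1` of them), there are at most `B` nonfree ones; nonfree segment `t` with `wt = w` has
error `≤ (s / B ^ i + 1) * (C * B ^ (i-1)) + ⌈w⌉₊ * (13 S B ^ i)` and `⌈w⌉₊ ≤ 2 w`. Sum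
`≤ N s + (B * (s / B ^ i + 1) * C * B ^ (i-1)) + 26 S B ^ (i+1) ≤ N s + 2 C s + 26 S s`.
-/

namespace Pool.Agent.H59.SP

open Finset

variable {V : Type*} {G : SimpleGraph V} {X : Finset V}

/-- the hubs met by `g t, .., g p'`. -/
noncomputable def hubsOn (hub : V → Option V) (g : ℕ → V) (t p' : ℕ) : Finset V := by
  classical
  exact (Finset.Icc t p').biUnion (fun u => (hub (g u)).toFinset)

theorem mem_hubsOn {hub : V → Option V} {g : ℕ → V} {t p' : ℕ} {k : V} :
    k ∈ hubsOn hub g t p' ↔ ∃ u, t ≤ u ∧ u ≤ p' ∧ hub (g u) = some k := by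
  classical
  unfold hubsOn
  rw [Finset.mem_biUnion]
  constructor
  · rintro ⟨u, hu, hk⟩
    rw [Finset.mem_Icc] at hu
    rw [Option.mem_toFinset] at hk
    exact ⟨u, hu.1, hu.2, hk⟩
  · rintro ⟨u, hu1, hu2, hk⟩
    exact ⟨u, Finset.mem_Icc.2 ⟨hu1, hu2⟩, by rw [Option.mem_toFinset]; exact hk⟩

theorem hubsOn_mono {hub : V → Option V} {g : ℕ → V} {t t' p' : ℕ} (h : t ≤ t') :
    (hubsOn hub g t' p').card ≤ (hubsOn hub g t p').card := by
  apply Finset.card_le_card
  intro k hk
  rw [mem_hubsOn] at hk ⊢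
  obtain ⟨u, h1, h2, h3⟩ := hk
  exact ⟨u, h.trans h1, h2, h3⟩

theorem hubsOn_drop {hub : V → Option V} {g : ℕ → V} {t t' p' : ℕ} {k : V} (h : t ≤ t')
    (hk : k ∈ hubsOn hub g t p') (hk' : k ∉ hubsOn hub g t' p') :
    (hubsOn hub g t' p').card + 1 ≤ (hubsOn hub g t p').card := by
  apply Finset.card_lt_card
  rw [Finset.ssubset_iff_of_subset]
  · exact ⟨k, hk, hk'⟩
  · intro k hk
    rw [mem_hubsOn] at hk ⊢
    obtain ⟨u, h1, h2, h3⟩ := hk
    exact ⟨u, h.trans h1, h2, h3⟩

theorem sparse_seg [Fintype V] (Δ S C i B s : ℕ) (hS : 1 ≤ S) (hi : 1 ≤ i) (hB : 1 ≤ B)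
    (hs : 3 * B ^ i ≤ s) (H : SimpleGraph V) (hspan : Span G S H) (hPP : PP G X Δ H i C)
    (g : ℕ → V) (m : ℕ) (hg : Geo G g m) (p p' W : ℕ) (hpp : p ≤ p') (hp' : p' ≤ m)
    (hlen : p' - p ≤ s) (hW : vol G X (4 * s) (g p) ≤ W * vv Δ i) :
    Nr H (p' - p + ((s / B ^ i + 1) * (C * B ^ (i - 1)) + W * (13 * S * B ^ i)))
      (g p) (g p') := by
  classical
  obtain ⟨T, hub, hnone, hsome, hbig, hdis⟩ := vitali G X (3 * B ^ i) (vv Δ i)
  have hlam : 0 < B ^ i := Nat.pow_pos (by omega)
  have claim : ∀ n t, p ≤ t → t ≤ p' → p' - t ≤ n →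
      Nr H (p' - t + (((p' - t) / B ^ i + 1) * (C * B ^ (i - 1)) +
        (hubsOn hub g t p').card * (13 * S * B ^ i))) (g t) (g p') := by
    intro n
    induction n with
    | zero =>
      intro t _ ht' hn
      have : t = p' := by omega
      subst this
      exact Nr.refl _ _ _
    | succ n ih =>
      intro t ht ht' hn
      rcases h : hub (g t) with _ | k
      · have hcold : ∀ t1, t ≤ t1 → t1 ≤ p' → t1 ≤ t + B ^ i →
            Nr H (t1 - t + C * B ^ (i - 1)) (g t) (g t1) := by
          intro t1 h1 h2 h3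
          refine hPP (g t) (g t1) (t1 - t) B (by omega) (hg.near t t1 h1 (by omega)) ?_
          refine le_trans ?_ (hnone (g t) h)
          exact vol_le (Nr.refl G 0 _) (by omega)
        rcases Nat.lt_or_ge p' (t + B ^ i) with hlt | hge
        · refine (hcold p' ht' le_rfl (by omega)).mono ?_
          have : C * B ^ (i - 1) ≤ ((p' - t) / B ^ i + 1) * (C * B ^ (i - 1)) :=
            Nat.le_mul_of_pos_left _ (Nat.succ_pos _)
          omega
        · have h1 := hcold (t + B ^ i) (by omega) hge le_rfl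
          have h2 := ih (t + B ^ i) (by omega) hge (by omega)
          refine (h1.trans h2).mono ?_
          have h3 : (p' - t) / B ^ i = (p' - (t + B ^ i)) / B ^ i + 1 := by
            have : p' - t = (p' - (t + B ^ i)) + B ^ i := by omega
            rw [this, Nat.add_div_right _ hlam]
          have h4 : (hubsOn hub g (t + B ^ i) p').card * (13 * S * B ^ i) ≤
              (hubsOn hub g t p').card * (13 * S * B ^ i) :=
            Nat.mul_le_mul_right _ (hubsOn_mono (by omega))
          rw [h3, Nat.add_mul ((p' - (t + B ^ i)) / B ^ i + 1) 1, one_mul]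
          omega
      · -- the last position with the same hub
        have hne : ((Finset.Icc t p').filter (fun u => hub (g u) = some k)).Nonempty :=
          ⟨t, by rw [Finset.mem_filter, Finset.mem_Icc]; exact ⟨⟨le_rfl, ht'⟩, h⟩⟩
        obtain ⟨t', ht'mem, ht'max⟩ := Finset.exists_max_image _ (fun u => u) hne
        rw [Finset.mem_filter, Finset.mem_Icc] at ht'mem
        obtain ⟨⟨ht1, ht2⟩, ht3⟩ := ht'mem
        have hjump : Nr H (12 * S * B ^ i) (g t) (g t') := by
          have h1 := (hsome (g t) k h).2.1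
          have h2 := (hsome (g t') k ht3).2.1
          have h3 := hspan _ _ _ (h1.trans h2.symm)
          refine h3.mono (le_of_eq (by ring))
        have hkmem : k ∈ hubsOn hub g t p' := mem_hubsOn.2 ⟨t, le_rfl, ht', h⟩
        rcases Nat.lt_or_ge t' p' with hlt | hge
        · have hk' : k ∉ hubsOn hub g (t' + 1) p' := by
            intro hk
            rw [mem_hubsOn] at hk
            obtain ⟨u, hu1, hu2, hu3⟩ := hk
            have := ht'max u (by
              rw [Finset.mem_filter, Finset.mem_Icc]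
              exact ⟨⟨by omega, hu2⟩, hu3⟩)
            omega
          have h1 := hubsOn_drop (t' := t' + 1) (by omega) hkmem hk'
          have h2 := ih (t' + 1) (by omega) (by omega) (by omega)
          have h3 : Nr H (S * 1) (g t') (g (t' + 1)) :=
            hspan _ _ _ ((hg.near t' (t' + 1) (by omega) (by omega)).mono (by omega))
          refine ((hjump.trans h3).trans h2).mono ?_
          have h4 : ((hubsOn hub g (t' + 1) p').card + 1) * (13 * S * B ^ i) ≤
              (hubsOn hub g t p').card * (13 * S * B ^ i) := Nat.mul_le_mul_right _ h1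
          have h5 : ((p' - (t' + 1)) / B ^ i + 1) * (C * B ^ (i - 1)) ≤
              ((p' - t) / B ^ i + 1) * (C * B ^ (i - 1)) :=
            Nat.mul_le_mul_right _ (Nat.succ_le_succ (Nat.div_le_div_right (by omega)))
          have h6 : S ≤ S * B ^ i := Nat.le_mul_of_pos_right _ hlam
          have h7 : 13 * S * B ^ i = 12 * S * B ^ i + S * B ^ i := by ring
          rw [Nat.add_mul, one_mul] at h4
          omega
        · have : t' = p' := by omega
          subst this
          refine hjump.mono ?_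
          have h1 : 1 ≤ (hubsOn hub g t t').card := Finset.card_pos.2 ⟨k, hkmem⟩
          have h2 : 1 * (13 * S * B ^ i) ≤ (hubsOn hub g t t').card * (13 * S * B ^ i) :=
            Nat.mul_le_mul_right _ h1
          have h7 : 13 * S * B ^ i = 12 * S * B ^ i + S * B ^ i := by ring
          omega
  have hcnt : (hubsOn hub g p p').card ≤ W := by
    have hA : hubsOn hub g p p' ⊆ T := by
      intro k hk
      rw [mem_hubsOn] at hk
      obtain ⟨u, -, -, hu⟩ := hk
      exact (hsome _ _ hu).1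
    have hAz : ∀ k ∈ hubsOn hub g p p', Nr G (s + 2 * (3 * B ^ i)) (g p) k := by
      intro k hk
      rw [mem_hubsOn] at hk
      obtain ⟨u, hu1, hu2, hu⟩ := hk
      exact (((hg.near p u hu1 (by omega)).mono (by omega : u - p ≤ s)).trans (hsome _ _ hu).2.1)
    have h1 := vitali_sum hdis (g p) (s + 2 * (3 * B ^ i)) _ hA hAz
    have h2 : vol G X (s + 2 * (3 * B ^ i) + 3 * B ^ i) (g p) ≤ vol G X (4 * s) (g p) :=
      vol_le (Nr.refl G 0 _) (by omega)
    have h3 : (hubsOn hub g p p').card * (vv Δ i + 1) ≤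
        ∑ k ∈ hubsOn hub g p p', vol G X (3 * B ^ i) k := by
      rw [← smul_eq_mul]
      exact Finset.card_nsmul_le_sum _ _ _ (fun k hk => hbig k (hA hk))
    have h4 : (hubsOn hub g p p').card * (vv Δ i + 1) ≤ W * vv Δ i :=
      h3.trans (h1.trans (h2.trans hW))
    by_contra hcon
    push Not at hcon
    have h5 : (W + 1) * (vv Δ i + 1) ≤ (hubsOn hub g p p').card * (vv Δ i + 1) :=
      Nat.mul_le_mul_right _ hcon
    nlinarith
  refine (claim (p' - p) p le_rfl hpp le_rfl).mono ?_
  have h1 : ((p' - p) / B ^ i + 1) * (C * B ^ (i - 1)) ≤ (s / B ^ i + 1) * (C * B ^ (i - 1)) :=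
    Nat.mul_le_mul_right _ (Nat.succ_le_succ (Nat.div_le_div_right hlen))
  have h2 : (hubsOn hub g p p').card * (13 * S * B ^ i) ≤ W * (13 * S * B ^ i) :=
    Nat.mul_le_mul_right _ hcnt
  omega

/-- concatenating pieces with varying errors. -/
theorem chain_err {H : SimpleGraph V} {g : ℕ → V} {s m : ℕ} (err : ℕ → ℕ) (a b : ℕ) (hab : a ≤ b)
    (h : ∀ t, a ≤ t → t < b →
      Nr H (pos s m (t + 1) - pos s m t + err t) (g (pos s m t)) (g (pos s m (t + 1)))) :
    Nr H (pos s m b - pos s m a + ∑ t ∈ Ico a b, err t) (g (pos s m a)) (g (pos s m b)) := by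
  induction b, hab using Nat.le_induction with
  | base => exact (Nr.refl _ _ _)
  | succ b hab ih =>
    have h1 := ih (fun t ht ht' => h t ht (by omega))
    have h2 := h b hab (by omega)
    refine (h1.trans h2).mono ?_
    have h3 := pos_mono s m hab
    have h4 := pos_mono s m (Nat.le_succ b)
    rw [Finset.sum_Ico_succ_top hab]
    simp only [Nat.succ_eq_add_one] at h4
    omega

theorem sparse_run [Fintype V] (K : HubSys G X) (Δ S C i B E N : ℕ) (hS : 1 ≤ S) (hi : 1 ≤ i)
    (hB : 1 ≤ B) (hBs : 3 * B ^ (i + 1) ≤ K.s) (hv : K.v = (vv Δ i : ℕ))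
    (hvol : ∀ y k, K.hub y = some k → (vol G X (4 * K.s) y : ℝ) ≤ K.w k * K.v)
    (H : SimpleGraph V) (hspan : Span G S H) (hPP : PP G X Δ H i C) (hfree : K.Free E H)
    (g : ℕ → V) (m : ℕ) (hg : Geo G g m) (hN : (m / K.s + 1) * E ≤ N * K.s)
    (a b : ℕ) (hab : a ≤ b) (hb : b ≤ m / K.s + 1)
    (hsum : ∑ t ∈ Ico a b, K.wt (g (pos K.s m t)) ≤ B) :
    Nr H (pos K.s m b - pos K.s m a + (N + 2 * C + 26 * S) * K.s)
      (g (pos K.s m a)) (g (pos K.s m b)) := by
  classical
  have hlam : 0 < B ^ i := Nat.pow_pos (by omega)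
  have hsB : 3 * B ^ i ≤ K.s := by
    refine le_trans ?_ hBs
    rw [pow_succ]
    nlinarith
  let fr : ℕ → Prop := fun t => K.hub (g (pos K.s m t)) = none
  let D : ℕ := (K.s / B ^ i + 1) * (C * B ^ (i - 1))
  let err : ℕ → ℕ := fun t => E +
    (if K.hub (g (pos K.s m t)) = none then 0 else
      (D + ⌈K.wt (g (pos K.s m t))⌉₊ * (13 * S * B ^ i)))
  have hchain := chain_err (H := H) (g := g) (s := K.s) (m := m) err a b hab (by
    intro t ht1 ht2
    have hle := pos_mono K.s m (Nat.le_succ t)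
    simp only [Nat.succ_eq_add_one] at hle
    have hle2 := pos_succ_le K.s m t
    have hle3 := pos_le K.s m (t + 1)
    rcases h : K.hub (g (pos K.s m t)) with _ | k
    · have h1 := hfree (g (pos K.s m t)) (g (pos K.s m (t + 1))) _ h
        (by omega : pos K.s m (t + 1) - pos K.s m t ≤ K.s) (hg.near _ _ hle hle3)
      exact h1.mono (by simp only [err]; omega)
    · have hwt : K.wt (g (pos K.s m t)) = K.w k := by
        unfold HubSys.wt
        rw [h]
        rfl
      have h1 : vol G X (4 * K.s) (g (pos K.s m t)) ≤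
          ⌈K.wt (g (pos K.s m t))⌉₊ * vv Δ i := by
        have h2 := hvol _ _ h
        rw [hv] at h2
        have h3 : K.w k ≤ (⌈K.wt (g (pos K.s m t))⌉₊ : ℝ) := by
          rw [hwt]
          exact Nat.le_ceil _
        have h4 : (vol G X (4 * K.s) (g (pos K.s m t)) : ℝ) ≤
            (⌈K.wt (g (pos K.s m t))⌉₊ : ℝ) * ((vv Δ i : ℕ) : ℝ) :=
          h2.trans (mul_le_mul_of_nonneg_right h3 (Nat.cast_nonneg _))
        exact_mod_cast h4
      have h2 := sparse_seg Δ S C i B K.s hS hi hB hsB H hspan hPP g m hg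
        (pos K.s m t) (pos K.s m (t + 1)) _ hle hle3 (by omega) h1
      refine h2.mono ?_
      simp only [err, D, h]
      simp only [reduceCtorEq, if_false]
      omega)
  refine hchain.mono ?_
  -- the sum of the errors
  let A : Finset ℕ := (Ico a b).filter (fun t => K.hub (g (pos K.s m t)) ≠ none)
  have hsumA : ∑ t ∈ A, K.wt (g (pos K.s m t)) ≤ B := by
    refine le_trans ?_ hsum
    exact Finset.sum_le_sum_of_subset_of_nonneg (Finset.filter_subset _ _)
      (fun t _ _ => K.wt_nonneg _)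
  have hcardA : A.card ≤ B := by
    have h1 : (A.card : ℝ) ≤ ∑ t ∈ A, K.wt (g (pos K.s m t)) := by
      have h2 : ∑ t ∈ A, (1 : ℝ) ≤ ∑ t ∈ A, K.wt (g (pos K.s m t)) := by
        apply Finset.sum_le_sum
        intro t ht
        exact K.one_le_wt (Finset.mem_filter.1 ht).2
      simpa using h2
    exact_mod_cast h1.trans hsumA
  have hceil : ∑ t ∈ A, ⌈K.wt (g (pos K.s m t))⌉₊ ≤ 2 * B := by
    have h1 : ((∑ t ∈ A, ⌈K.wt (g (pos K.s m t))⌉₊ : ℕ) : ℝ) ≤ 2 * (B : ℝ) := by
      push_cast
      calc ∑ t ∈ A, (⌈K.wt (g (pos K.s m t))⌉₊ : ℝ) ≤ ∑ t ∈ A, 2 * K.wt (g (pos K.s m t)) := by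
            apply Finset.sum_le_sum
            intro t ht
            have h2 := K.one_le_wt (Finset.mem_filter.1 ht).2
            have h3 := Nat.ceil_lt_add_one (K.wt_nonneg (g (pos K.s m t)))
            linarith
        _ = 2 * ∑ t ∈ A, K.wt (g (pos K.s m t)) := by rw [Finset.mul_sum]
        _ ≤ 2 * (B : ℝ) := by linarith
    exact_mod_cast h1
  have hsumerr : ∑ t ∈ Ico a b, err t =
      (b - a) * E + (A.card * D + (∑ t ∈ A, ⌈K.wt (g (pos K.s m t))⌉₊) * (13 * S * B ^ i)) := by
    simp only [err]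
    rw [Finset.sum_add_distrib]
    congr 1
    · rw [Finset.sum_const, Nat.card_Ico, smul_eq_mul]
    · rw [Finset.sum_mul]
      have : ∑ t ∈ Ico a b, (if K.hub (g (pos K.s m t)) = none then 0 else
          (D + ⌈K.wt (g (pos K.s m t))⌉₊ * (13 * S * B ^ i))) =
          ∑ t ∈ A, (D + ⌈K.wt (g (pos K.s m t))⌉₊ * (13 * S * B ^ i)) := by
        rw [Finset.sum_filter]
        apply Finset.sum_congr rfl
        intro t _
        by_cases h : K.hub (g (pos K.s m t)) = none
        · simp [h]
        · simp [h]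
      rw [this, Finset.sum_add_distrib, Finset.sum_const, smul_eq_mul]
  rw [hsumerr]
  have h1 : (b - a) * E ≤ N * K.s := by
    refine le_trans ?_ hN
    exact Nat.mul_le_mul_right _ (by omega)
  have h2 : A.card * D ≤ 2 * C * K.s := by
    have hBi : B * B ^ (i - 1) = B ^ i := by
      rw [← pow_succ']
      congr 1
      omega
    calc A.card * D ≤ B * D := Nat.mul_le_mul_right _ hcardA
      _ = (K.s / B ^ i + 1) * (B * B ^ (i - 1)) * C := by simp only [D]; ring
      _ = (K.s / B ^ i * B ^ i + B ^ i) * C := by rw [hBi]; ring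
      _ ≤ (K.s + K.s) * C := by
          apply Nat.mul_le_mul_right
          have := Nat.div_mul_le_self K.s (B ^ i)
          omega
      _ = 2 * C * K.s := by ring
  have h3 : (∑ t ∈ A, ⌈K.wt (g (pos K.s m t))⌉₊) * (13 * S * B ^ i) ≤ 26 * S * K.s := by
    calc (∑ t ∈ A, ⌈K.wt (g (pos K.s m t))⌉₊) * (13 * S * B ^ i)
        ≤ 2 * B * (13 * S * B ^ i) := Nat.mul_le_mul_right _ hceil
      _ = 26 * S * B ^ (i + 1) := by ring
      _ ≤ 26 * S * K.s := by
          apply Nat.mul_le_mul_left
          omega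
  have h4 : (N + 2 * C + 26 * S) * K.s = N * K.s + 2 * C * K.s + 26 * S * K.s := by ring
  omega

end Pool.Agent.H59.SP
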