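import Pool.Agent.H59.SP.Basic
import Pool.Agent.H59.SP.Route
import Pool.Agent.H59.SP.Sparse
import Pool.Agent.H59.SP.Quad

/-!
# The scale lemma
-/

namespace Pool.Agent.H59.SP

open Finset

variable {V : Type*} {G : SimpleGraph V} {X : Finset V}

theorem scale [Fintype V] (K : HubSys G X) (Δ S C i E N Qc B M m0 : ℕ) (a c Γ : ℝ)
    (hS : 1 ≤ S) (hi : 1 ≤ i) (hQc : 1 ≤ Qc) (hB : 1 ≤ B) (hBs : 3 * B ^ (i + 1) ≤ K.s)
    (hv : K.v = (vv Δ i : ℕ))
    (hvol : ∀ y k, K.hub y = some k → (vol G X (4 * K.s) y : ℝ) ≤ K.w k * K.v)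
    (P : SimpleGraph V → Prop) (hP : ∀ H, P H → Span G S H ∧ K.Free E H ∧ PP G X Δ H i C)
    (hServ : K.Serv P a c E) (hc : 0 < c) (hΓ : 0 < Γ)
    (hBΓ : 2 * Qc ^ 2 * (Γ * c) ≤ B)
    (hM : (M / K.s + 1) * E ≤ N * K.s) (hm0 : (Qc + 14) * K.s ≤ m0) :
    ∃ F : Finset (Sym2 V), (F : Set (Sym2 V)) ⊆ G.edgeSet ∧
      (F.card : ℝ) ≤
        a + 289 * (17 + N + 16 * S : ℕ) * (X.card * vv Δ (i + 1) / (vv Δ i : ℝ) ^ 2) / Γ ∧
      ∀ H : SimpleGraph V, P H → gr F ≤ H → ∀ u v, G.Reachable u v → m0 ≤ G.dist u v →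
        G.dist u v ≤ M → vol G X (3 * G.dist u v) u ≤ vv Δ (i + 1) →
        ∀ θ, (∀ a b, a ≤ b → b ≤ G.dist u v → Qc * (b - a) ≤ 2 * G.dist u v →
            Nr H (b - a + θ) (geo G u v a) (geo G u v b)) →
          Nr H (G.dist u v + 3 * θ + (4 * N + 4 * C + 116 * S + 2) * K.s) u v := by
  classical
  set U : Finset (V × V) := (univ : Finset (V × V)).filter (fun e =>
    G.Reachable e.1 e.2 ∧ m0 ≤ G.dist e.1 e.2 ∧ G.dist e.1 e.2 ≤ M ∧
      vol G X (3 * G.dist e.1 e.2) e.1 ≤ vv Δ (i + 1)) with hU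
  have hmul : ∀ m, m ≤ M → (m / K.s + 1) * E ≤ N * K.s := fun m hm =>
    (Nat.mul_le_mul_right _ (by
      have := Nat.div_le_div_right (c := K.s) hm
      omega)).trans hM
  obtain ⟨D, hDs, hDw, hD⟩ := quad K S N E (vv Δ (i + 1)) hS U (by
    intro e he
    rw [hU, mem_filter] at he
    obtain ⟨-, h1, h2, h3, h4⟩ := he
    refine ⟨h1, ?_, hmul _ h3, h4⟩
    have : 14 * K.s ≤ (Qc + 14) * K.s := Nat.mul_le_mul_right _ (by omega)
    omega) (Γ * c) (by positivity)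
  obtain ⟨F, hFG, hFc, hF⟩ := hServ D hDs
  refine ⟨F, hFG, ?_, ?_⟩
  · refine hFc.trans ?_
    rw [hv] at hDw
    have h1 : c * ∑ x ∈ D, K.wt x.1 ≤ c * (289 * (17 + N + 16 * S : ℕ) *
        (X.card * (vv Δ (i + 1) : ℕ) / ((vv Δ i : ℕ) : ℝ) ^ 2) / (Γ * c)) :=
      mul_le_mul_of_nonneg_left hDw hc.le
    have h2 : c * (289 * (17 + N + 16 * S : ℕ) *
        (X.card * (vv Δ (i + 1) : ℕ) / ((vv Δ i : ℕ) : ℝ) ^ 2) / (Γ * c)) =
        289 * (17 + N + 16 * S : ℕ) * (X.card * vv Δ (i + 1) / (vv Δ i : ℝ) ^ 2) / Γ := by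
      generalize (289 * (17 + N + 16 * S : ℕ) *
        (X.card * (vv Δ (i + 1) : ℕ) / ((vv Δ i : ℕ) : ℝ) ^ 2) : ℝ) = z
      field_simp
    rw [h2] at h1
    linarith
  · intro H hPH hFH u v huv hm0u hMu hvolu θ hθ
    obtain ⟨hspan, hfree, hPP⟩ := hP H hPH
    have hserved := hF H hPH hFH
    have hgeo := geo_geo huv
    have huU : (u, v) ∈ U := by
      rw [hU, mem_filter]
      exact ⟨mem_univ _, huv, hm0u, hMu, hvolu⟩
    have hdir := hD H hspan hfree hserved (u, v) huU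
    have hr := route (H := H) (geo G u v) K.s (G.dist u v) Qc ((N + 2 * C + 26 * S) * K.s)
      ((N + 32 * S + 1) * K.s) θ K.s_pos hQc (by
        have : (Qc + 1) * K.s ≤ (Qc + 14) * K.s := Nat.mul_le_mul_right _ (by omega)
        omega)
      (fun t => K.wt (geo G u v (pos K.s (G.dist u v) t))) (fun t => K.wt_nonneg _) B (Γ * c)
      (by positivity) hBΓ
      (fun a b hab hb hsum => sparse_run K Δ S C i B E N hS hi hB hBs hv hvol H hspan hPP hfree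
        (geo G u v) (G.dist u v) hgeo (hmul _ hMu) a b hab hb hsum)
      (fun a b c d hab hbc hcd hd hle => hdir a b c d hab hbc hcd hd hle) hθ
    rw [geo_zero huv, geo_dist huv] at hr
    refine hr.mono ?_
    have : (4 * N + 4 * C + 116 * S + 2) * K.s = 2 * ((N + 2 * C + 26 * S) * K.s) +
      2 * ((N + 32 * S + 1) * K.s) := by ring
    omega

end Pool.Agent.H59.SP
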