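import Pool.Agent.H59.SP.Basic
import Pool.Agent.H59.SP.Vitali
import Pool.Agent.H59.SP.TwoSided

/-!
# Module P1: the level one service, and statement `PP 1`

`serv_one`: every `D` of nonfree level one segments (pairs at distance `≤ 1`) is served with error
`0` by the edges `s(x.1, x.2)`, `x ∈ D`, `x.1 ≠ x.2`; their number is `≤ D.card ≤ ∑ wt`.

`exists_P1`. Use `two_sided` with `K` = the level one hub system, `N = E = 0`,
`I` = pairs `(a, b) ∈ X × X`, `a ≠ b`, reachable, with `vol (D+1) a ≤ vv Δ 1`, `vol (D+1) b ≤ vv Δ 1`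
(`D = G.dist a b`) and `Q` = all `(a, k, c)` with `a, k ∈ X`, `c < 17`, `G.Reachable a k`,
`vol (G.dist a k) a ≤ vv Δ 1`. For fixed `a, c` there are at most `vv Δ 1 = Δ ^ 2` such `k` (let `k`
be the farthest one; all are in the ball of radius `G.dist a k` at `a`). So
`Q.card ≤ 17 * X.card * Δ ^ 2`, and `serv_one` gives the edges.
`PP 1`: let `y, y', m` with `Nr G m y y'`, `vol (3 m) y ≤ vv Δ 1`. Let `d = G.dist y y' ≤ m`. If
`d < 4` use `Span`. Otherwise take the geodesic `g` from `y` to `y'`. If no `g t`, `t < d`, is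
clustered all edges are in `H`. Otherwise let `t₁`, `t₂` be the first and last `t ≤ d` with
`c (g t) ≠ none`, `c (g t₁) = some a`, `c (g t₂) = some b`. The edges before `t₁` and after `t₂` have an
unclustered endpoint so they are in `H`. `G.dist a b ≤ t₂ - t₁ + 2` and
`ball a (G.dist a b + 1) ⊆ ball y (t₂ + 4)`, `ball b (G.dist a b + 1) ⊆ ball y (2 d + 4) ⊆ ball y (3 d)`.
So `(a, b) ∈ I` or `a = b`, and the total length is
`t₁ + S + (t₂ - t₁ + 2 + 16 S + 2) + S + (d - t₂) = d + 18 S + 4`.
-/

namespace Pool.Agent.H59.SP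

open Finset

variable {V : Type*} {G : SimpleGraph V} {X : Finset V}

theorem serv_one (K : HubSys G X) (hs : K.s = 1) (P : SimpleGraph V → Prop) :
    K.Serv P 0 1 0 := by
  classical
  intro D hD
  refine ⟨(D.filter fun x => x.1 ≠ x.2).image fun x => s(x.1, x.2), ?_, ?_, ?_⟩
  · intro e he
    rw [Finset.mem_coe, Finset.mem_image] at he
    obtain ⟨x, hx, rfl⟩ := he
    rw [Finset.mem_filter] at hx
    have h1 := (hD x hx.1).1
    rw [hs, nr_one_iff] at h1
    rcases h1 with h1 | h1
    · exact absurd h1 hx.2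
    · exact (SimpleGraph.mem_edgeSet G).2 h1
  · have h1 : ((D.filter fun x => x.1 ≠ x.2).image fun x => s(x.1, x.2)).card ≤ D.card :=
      Finset.card_image_le.trans (Finset.card_filter_le _ _)
    have h2 : (D.card : ℝ) ≤ ∑ x ∈ D, K.wt x.1 := by
      rw [Finset.card_eq_sum_ones, Nat.cast_sum]
      apply Finset.sum_le_sum
      intro x hx
      simpa using K.one_le_wt (hD x hx).2
    have h3 : ((((D.filter fun x => x.1 ≠ x.2).image fun x => s(x.1, x.2)).card : ℕ) : ℝ) ≤
        D.card := by exact_mod_cast h1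
    linarith
  · intro H _ hF x hx m hm
    rw [Nat.add_zero]
    by_cases hxx : x.1 = x.2
    · rw [hxx]
      exact Nr.refl _ _ _
    · have hadj : H.Adj x.1 x.2 := by
        apply hF
        rw [gr_adj]
        refine ⟨?_, hxx⟩
        rw [Finset.mem_image]
        exact ⟨x, Finset.mem_filter.2 ⟨hx, hxx⟩, rfl⟩
      refine (Nr.of_adj hadj).mono ?_
      rcases Nat.eq_zero_or_pos m with h0 | h0
      · subst h0
        exact absurd (nr_zero_iff.1 hm) hxx
      · exact h0

theorem free_one (K : HubSys G X) (hs : K.s = 1) (H : SimpleGraph V)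
    (hH : ∀ y y', K.hub y = none → G.Adj y y' → H.Adj y y') : K.Free 0 H := by
  intro y y' m hy hm hn
  rw [Nat.add_zero]
  rw [hs] at hm
  have hm' : m = 0 ∨ m = 1 := by omega
  rcases hm' with h | h
  · subst h
    rw [nr_zero_iff] at hn ⊢
    exact hn
  · subst h
    rw [nr_one_iff] at hn ⊢
    rcases hn with hn | hn
    · exact Or.inl hn
    · exact Or.inr (hH y y' hy hn)

/-- The keys at `a` are few. -/
private theorem keys_card (a : V) (v : ℕ) :
    ∀ Y : Finset V, Y ⊆ X →
      (∀ k ∈ Y, G.Reachable a k ∧ vol G X (G.dist a k) a ≤ v) → Y.card ≤ v := by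
  classical
  intro Y hYX hY
  rcases Y.eq_empty_or_nonempty with h0 | hne
  · rw [h0]; simp
  · obtain ⟨k, hk, hmax⟩ := Finset.exists_max_image Y (fun k => G.dist a k) hne
    refine le_trans ?_ (hY k hk).2
    unfold vol
    apply Finset.card_le_card
    intro k' hk'
    rw [Finset.mem_filter]
    refine ⟨hYX hk', (nr_of_reachable (hY k' hk').1).mono ?_⟩
    exact hmax k' hk'

/-- Walking along a geodesic whose edges are all in `H`. -/
private theorem walk_along {H : SimpleGraph V} {g : ℕ → V} {a : ℕ} (b : ℕ) (hab : a ≤ b)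
    (h : ∀ t, a ≤ t → t < b → H.Adj (g t) (g (t + 1)) ∨ g t = g (t + 1)) :
    Nr H (b - a) (g a) (g b) := by
  induction b, hab using Nat.le_induction with
  | base => exact Nr.refl _ _ _
  | succ b hab ih =>
    have h1 := ih fun t ht ht' => h t ht (by omega)
    have h2 : Nr H 1 (g b) (g (b + 1)) := by
      rw [nr_one_iff]
      exact (h b hab (by omega)).symm
    exact (h1.trans h2).mono (by omega)

theorem exists_P1 (K : HubSys G X) (hs : K.s = 1) (hJ : K.J = 1) (hT : K.T = X)
    (hw : K.w = fun _ => 1) (hadj : ∀ y k, K.hub y = some k → k ∈ X ∧ G.Adj y k)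
    (Δ S : ℕ) (hS : 1 ≤ S) :
    ∃ F : Finset (Sym2 V), (F : Set (Sym2 V)) ⊆ G.edgeSet ∧
      (F.card : ℝ) ≤ 17 * (9 + 8 * S) * (X.card * Δ ^ 2) ∧
      ∀ H : SimpleGraph V, Span G S H → (∀ y y', K.hub y = none → G.Adj y y' → H.Adj y y') →
        gr F ≤ H → PP G X Δ H 1 (20 * S + 20) := by
  classical
  have hvv : vv Δ 1 = Δ ^ 2 := by simp [vv]
  -- offers and keys
  set I : Finset (V × V) := (X ×ˢ X).filter fun e => e.1 ≠ e.2 ∧ G.Reachable e.1 e.2 ∧
    vol G X (G.dist e.1 e.2 + 1) e.1 ≤ Δ ^ 2 ∧ vol G X (G.dist e.1 e.2 + 1) e.2 ≤ Δ ^ 2 with hI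
  set Q : Finset (V × V × ℕ) := (X ×ˢ (X ×ˢ Finset.range 17)).filter fun q =>
    G.Reachable q.1 q.2.1 ∧ vol G X (G.dist q.1 q.2.1) q.1 ≤ Δ ^ 2 with hQ
  have hQcard : Q.card ≤ X.card * (17 * Δ ^ 2) := by
    have h1 : Q ⊆ X.biUnion fun a => ((X.filter fun k => G.Reachable a k ∧
        vol G X (G.dist a k) a ≤ Δ ^ 2) ×ˢ Finset.range 17).image fun r => (a, r.1, r.2) := by
      intro q hq
      rw [hQ, Finset.mem_filter, Finset.mem_product, Finset.mem_product] at hq
      rw [Finset.mem_biUnion]
      refine ⟨q.1, hq.1.1, ?_⟩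
      rw [Finset.mem_image]
      refine ⟨(q.2.1, q.2.2), ?_, rfl⟩
      rw [Finset.mem_product, Finset.mem_filter]
      exact ⟨⟨hq.1.2.1, hq.2⟩, hq.1.2.2⟩
    refine (Finset.card_le_card h1).trans (Finset.card_biUnion_le_card_mul _ _ _ ?_)
    intro a _
    refine Finset.card_image_le.trans ?_
    rw [Finset.card_product, Finset.card_range, Nat.mul_comm]
    apply Nat.mul_le_mul_left
    apply keys_card (G := G) (X := X) a (Δ ^ 2) _ (Finset.filter_subset _ _)
    intro k hk
    exact (Finset.mem_filter.1 hk).2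
  obtain ⟨D, hD1, hD2, hD3⟩ := two_sided K S 0 0 hS I Q
    (by
      intro e he
      rw [hI, Finset.mem_filter] at he
      exact ⟨he.2.2.1, he.2.1⟩)
    (by intro e _; simp)
    (by
      intro q hq
      rw [hQ, Finset.mem_filter, Finset.mem_product, Finset.mem_product] at hq
      rw [hT]
      exact hq.1.2.1)
    (by
      intro e he t ht k hk c hc h1 h2
      rw [hI, Finset.mem_filter, Finset.mem_product] at he
      rw [hT] at hk
      rw [hJ] at h1 h2
      have hd1 := h1.dist_le
      have hd2 := h2.dist_le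
      constructor
      · rw [hQ, Finset.mem_filter, Finset.mem_product, Finset.mem_product]
        refine ⟨⟨he.1.1, hk, Finset.mem_range.2 hc⟩, h1.reachable, ?_⟩
        refine le_trans (vol_le_of_subset fun x hx => hx.mono ?_) he.2.2.2.1
        change G.dist e.1 k ≤ _
        omega
      · rw [hQ, Finset.mem_filter, Finset.mem_product, Finset.mem_product]
        refine ⟨⟨he.1.2, hk, Finset.mem_range.2 hc⟩, h2.reachable, ?_⟩
        refine le_trans (vol_le_of_subset fun x hx => hx.mono ?_) he.2.2.2.2
        change G.dist e.2 k ≤ _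
        omega)
  obtain ⟨F, hF1, hF2, hF3⟩ := serv_one K hs (fun _ => True) D hD1
  refine ⟨F, hF1, ?_, ?_⟩
  · have h1 : (F.card : ℝ) ≤ ∑ x ∈ D, K.wt x.1 := by linarith
    have h2 : ∑ q ∈ Q, K.w q.2.1 = (Q.card : ℝ) := by
      rw [hw]; simp
    rw [h2] at hD2
    have h3 : (Q.card : ℝ) ≤ X.card * (17 * (Δ : ℝ) ^ 2) := by exact_mod_cast hQcard
    have h4 : ((9 + 0 + 8 * S : ℕ) : ℝ) = 9 + 8 * S := by push_cast; ring
    rw [h4] at hD2
    have h5 : (0 : ℝ) ≤ 9 + 8 * S := by positivity
    calc (F.card : ℝ) ≤ (9 + 8 * S) * (Q.card : ℝ) := h1.trans hD2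
      _ ≤ (9 + 8 * S) * (X.card * (17 * (Δ : ℝ) ^ 2)) := mul_le_mul_of_nonneg_left h3 h5
      _ = 17 * (9 + 8 * S) * (X.card * Δ ^ 2) := by ring
  · intro H hspan hHfree hFH
    have hfree : K.Free 0 H := free_one K hs H hHfree
    have hserv : Served G D 0 H := hF3 H trivial hFH
    have hgood := hD3 H hspan hfree hserv
    intro y y' m x _ hn hvol
    rw [hvv] at hvol
    have hpow : x ^ (1 - 1) = 1 := by simp
    rw [hpow, Nat.mul_one]
    have hr := hn.reachable
    set d := G.dist y y' with hd
    have hdm : d ≤ m := hn.dist_le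
    suffices h : Nr H (d + (20 * S + 20)) y y' from h.mono (by omega)
    rcases Nat.lt_or_ge d 4 with h4 | h4
    · have h1 := hspan d y y' (nr_of_reachable hr)
      refine h1.mono ?_
      have : S * d ≤ S * 3 := Nat.mul_le_mul_left _ (by omega)
      omega
    · set g := geo G y y' with hg
      have hg0 : g 0 = y := geo_zero hr
      have hgd : g d = y' := geo_dist hr
      have hgeo : Geo G g d := geo_geo hr
      have hstep : ∀ t, t < d → g t = g (t + 1) ∨ G.Adj (g t) (g (t + 1)) := by
        intro t ht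
        have := hgeo.near t (t + 1) (by omega) (by omega)
        rw [show t + 1 - t = 1 by omega, nr_one_iff] at this
        exact this
      by_cases hcl : ∃ t, t ≤ d ∧ K.hub (g t) ≠ none
      · -- first clustered vertex
        have hex : ∃ t, t ≤ d ∧ K.hub (g t) ≠ none := hcl
        set t₁ := Nat.find hex with ht₁
        have ht₁s : t₁ ≤ d ∧ K.hub (g t₁) ≠ none := Nat.find_spec hex
        have ht₁m : ∀ t < t₁, K.hub (g t) = none := by
          intro t ht
          by_contra hne
          exact Nat.find_min hex ht ⟨by omega, hne⟩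
        -- last clustered vertex
        obtain ⟨t₂, ht₂d, ht₂s, ht₂m⟩ : ∃ t₂, t₂ ≤ d ∧ K.hub (g t₂) ≠ none ∧
            ∀ t, t₂ < t → t ≤ d → K.hub (g t) = none := by
          have hex2 : ∃ r, r ≤ d ∧ K.hub (g (d - r)) ≠ none := by
            obtain ⟨t, ht, ht'⟩ := hcl
            exact ⟨d - t, by omega, by rwa [show d - (d - t) = t by omega]⟩
          have hs2 := Nat.find_spec hex2
          refine ⟨d - Nat.find hex2, by omega, hs2.2, ?_⟩
          intro t ht ht'
          by_contra hne
          refine Nat.find_min hex2 (m := d - t) (by omega) ⟨by omega, ?_⟩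
          rwa [show d - (d - t) = t by omega]
        have h12 : t₁ ≤ t₂ := by
          by_contra hlt
          exact ht₂s (ht₁m t₂ (by omega))
        obtain ⟨a, ha⟩ := Option.ne_none_iff_exists'.1 ht₁s.2
        obtain ⟨b, hb⟩ := Option.ne_none_iff_exists'.1 ht₂s
        obtain ⟨haX, haadj⟩ := hadj _ _ ha
        obtain ⟨hbX, hbadj⟩ := hadj _ _ hb
        -- the two ends
        have hA : Nr H (t₁ - 0) (g 0) (g t₁) := by
          apply walk_along t₁ (Nat.zero_le _)
          intro t _ ht
          rcases hstep t (by omega) with h | h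
          · exact Or.inr h
          · exact Or.inl (hHfree _ _ (ht₁m t ht) h)
        have hB : Nr H (d - t₂) (g t₂) (g d) := by
          apply walk_along d ht₂d
          intro t ht ht'
          rcases hstep t ht' with h | h
          · exact Or.inr h
          · exact Or.inl (hHfree _ _ (ht₂m (t + 1) (by omega) (by omega)) h.symm).symm
        have hja : Nr H (S * 1) (g t₁) a := hspan 1 _ _ (Nr.of_adj haadj)
        have hjb : Nr H (S * 1) b (g t₂) := (hspan 1 _ _ (Nr.of_adj hbadj)).symm
        have hmid : Nr G (1 + (t₂ - t₁) + 1) a b :=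
          ((Nr.of_adj haadj).symm.trans (hgeo.near t₁ t₂ h12 ht₂d)).trans (Nr.of_adj hbadj)
        have hDle := hmid.dist_le
        have hab : Nr H (t₂ - t₁ + 2 + 16 * S + 2) a b := by
          by_cases hne : a = b
          · rw [hne]; exact Nr.refl _ _ _
          · have hmem : (a, b) ∈ I := by
              rw [hI, Finset.mem_filter, Finset.mem_product]
              refine ⟨⟨haX, hbX⟩, hne, hmid.reachable, ?_, ?_⟩
              · refine le_trans ?_ hvol
                have hya : Nr G (t₁ + 1) y a := by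
                  have := (hgeo.near 0 t₁ (Nat.zero_le _) ht₁s.1).trans (Nr.of_adj haadj)
                  rw [hg0] at this
                  exact this.mono (by omega)
                exact vol_le hya (by change t₁ + 1 + (G.dist a b + 1) ≤ 3 * m; omega)
              · refine le_trans ?_ hvol
                have hyb : Nr G (t₂ + 1) y b := by
                  have := (hgeo.near 0 t₂ (Nat.zero_le _) ht₂d).trans (Nr.of_adj hbadj)
                  rw [hg0] at this
                  exact this.mono (by omega)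
                exact vol_le hyb (by change t₂ + 1 + (G.dist a b + 1) ≤ 3 * m; omega)
            have h1 := hgood (a, b) hmem
            rw [hs] at h1
            refine h1.mono ?_
            change G.dist a b + (2 * 0 + 16 * S + 2) * 1 ≤ _
            omega
        have hfin := ((((hA.trans hja).trans hab).trans hjb).trans hB)
        rw [hg0, hgd] at hfin
        exact hfin.mono (by omega)
      · push Not at hcl
        have h1 : Nr H (d - 0) (g 0) (g d) := by
          apply walk_along d (Nat.zero_le _)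
          intro t _ ht
          rcases hstep t ht with h | h
          · exact Or.inr h
          · exact Or.inl (hHfree _ _ (hcl t ht.le) h)
        rw [hg0, hgd] at h1
        exact h1.mono (by omega)

end Pool.Agent.H59.SP
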