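import Mathlib

/-!
# Module SAM: sampling lemmas (abstract)

`sampling`: if every `x ∈ T` is put into `R` independently with probability `p x`, then the
expectation of `∑ x ∈ R, c x + ∑ j, a j * [S j ∩ R = ∅]` is
`∑ x ∈ T, p x * c x + ∑ j, a j * ∏ x ∈ S j, (1 - p x)`; hence some `R` does at least as well.
Proof: weights `P R = (∏ x ∈ R, p x) * ∏ x ∈ T \ R, (1 - p x)` for `R ∈ T.powerset`
(`Finset.prod_add`); or: induction on `T` (method of conditional expectations: decide the elements
of `T` one by one).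

`prefix_sum`, `suffix_sum`: the expected weight seen before the first sampled index.
Proof of `prefix_sum`: by induction on `n`, with `Π n = ∏ t' ∈ range n, (1 - p t')`,
`S n + X * Π n ≤ X`, since `(w n + X) * (1 - p n) ≤ X`.
-/

namespace Pool.Agent.H59.SP

open Finset

theorem sampling {Λ ι : Type*} [DecidableEq Λ] (T : Finset Λ) (p : Λ → ℝ)
    (hp : ∀ x ∈ T, 0 ≤ p x ∧ p x ≤ 1) (c : Λ → ℝ) (I : Finset ι) (S : ι → Finset Λ)
    (hS : ∀ j ∈ I, S j ⊆ T) (a : ι → ℝ) :
    ∃ R ⊆ T, ∑ x ∈ R, c x + ∑ j ∈ I with Disjoint (S j) R, a j ≤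
      ∑ x ∈ T, p x * c x + ∑ j ∈ I, a j * ∏ x ∈ S j, (1 - p x) := by
  classical
  induction T using Finset.induction_on generalizing I S with
  | empty =>
    refine ⟨∅, subset_rfl, ?_⟩
    have h1 : ∀ j ∈ I, S j = ∅ := fun j hj => by simpa using hS j hj
    have h2 : (I.filter fun j => Disjoint (S j) ∅) = I := by
      apply Finset.filter_true_of_mem; intro j _; simp
    rw [h2]
    simp only [Finset.sum_empty, zero_add]
    apply le_of_eq
    apply Finset.sum_congr rfl
    intro j hj; rw [h1 j hj]; simp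
  | insert x₀ T hx₀ ih =>
    have hp' : ∀ x ∈ T, 0 ≤ p x ∧ p x ≤ 1 := fun x hx => hp x (Finset.mem_insert_of_mem hx)
    have hp0 := hp x₀ (Finset.mem_insert_self _ _)
    -- include `x₀`
    obtain ⟨R1, hR1, hle1⟩ := ih hp' (I.filter fun j => x₀ ∉ S j) S (by
      intro j hj x hx
      rw [Finset.mem_filter] at hj
      have := hS j hj.1 hx
      rcases Finset.mem_insert.1 this with rfl | h
      · exact absurd hx hj.2
      · exact h)
    obtain ⟨R2, hR2, hle2⟩ := ih hp' I (fun j => (S j).erase x₀) (by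
      intro j hj x hx
      rw [Finset.mem_erase] at hx
      have := hS j hj hx.2
      rcases Finset.mem_insert.1 this with rfl | h
      · exact absurd rfl hx.1
      · exact h)
    set P := ∑ x ∈ T, p x * c x with hP
    have hx1 : x₀ ∉ R1 := fun h => hx₀ (hR1 h)
    have hx2 : x₀ ∉ R2 := fun h => hx₀ (hR2 h)
    -- value for `insert x₀ R1`
    have hv1 : ∑ x ∈ insert x₀ R1, c x + ∑ j ∈ I with Disjoint (S j) (insert x₀ R1), a j ≤
        c x₀ + P + ∑ j ∈ I.filter (fun j => x₀ ∉ S j), a j * ∏ x ∈ S j, (1 - p x) := by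
      rw [Finset.sum_insert hx1]
      have : (I.filter fun j => Disjoint (S j) (insert x₀ R1)) =
          ((I.filter fun j => x₀ ∉ S j).filter fun j => Disjoint (S j) R1) := by
        ext j
        simp only [Finset.mem_filter, Finset.disjoint_insert_right]
        tauto
      rw [this]
      linarith
    have hv2 : ∑ x ∈ R2, c x + ∑ j ∈ I with Disjoint (S j) R2, a j ≤
        P + ∑ j ∈ I, a j * ∏ x ∈ (S j).erase x₀, (1 - p x) := by
      have : (I.filter fun j => Disjoint (S j) R2) =
          (I.filter fun j => Disjoint ((S j).erase x₀) R2) := by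
        ext j
        simp only [Finset.mem_filter]
        refine and_congr_right fun _ => ?_
        rw [Finset.disjoint_left, Finset.disjoint_left]
        constructor
        · intro h x hx; exact h (Finset.mem_of_mem_erase hx)
        · intro h x hx hxR
          refine h (Finset.mem_erase.2 ⟨?_, hx⟩) hxR
          rintro rfl; exact hx2 hxR
      rw [this]
      exact hle2
    -- the average
    have hsplit : ∑ j ∈ I, a j * ∏ x ∈ S j, (1 - p x) =
        p x₀ * ∑ j ∈ I.filter (fun j => x₀ ∉ S j), a j * ∏ x ∈ S j, (1 - p x) +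
        (1 - p x₀) * ∑ j ∈ I, a j * ∏ x ∈ (S j).erase x₀, (1 - p x) := by
      rw [Finset.sum_filter, Finset.mul_sum, Finset.mul_sum, ← Finset.sum_add_distrib]
      apply Finset.sum_congr rfl
      intro j _
      by_cases h : x₀ ∈ S j
      · rw [if_neg (not_not.2 h), ← Finset.mul_prod_erase (S j) (fun x => 1 - p x) h]; ring
      · rw [if_pos h, Finset.erase_eq_of_notMem h]; ring
    have htot : ∑ x ∈ insert x₀ T, p x * c x + ∑ j ∈ I, a j * ∏ x ∈ S j, (1 - p x) =
        p x₀ * (c x₀ + P + ∑ j ∈ I.filter (fun j => x₀ ∉ S j), a j * ∏ x ∈ S j, (1 - p x)) +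
        (1 - p x₀) * (P + ∑ j ∈ I, a j * ∏ x ∈ (S j).erase x₀, (1 - p x)) := by
      rw [Finset.sum_insert hx₀, hsplit]; ring
    rw [htot]
    set U := c x₀ + P + ∑ j ∈ I.filter (fun j => x₀ ∉ S j), a j * ∏ x ∈ S j, (1 - p x)
    set W := P + ∑ j ∈ I, a j * ∏ x ∈ (S j).erase x₀, (1 - p x)
    rcases le_total U W with h | h
    · refine ⟨insert x₀ R1, Finset.insert_subset_insert _ hR1, hv1.trans ?_⟩
      nlinarith [hp0.1, hp0.2]
    · refine ⟨R2, hR2.trans (Finset.subset_insert _ _), hv2.trans ?_⟩
      nlinarith [hp0.1, hp0.2]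

theorem step_le {w p X : ℝ} (hX : 0 < X) (hw : 0 ≤ w) (hp : p ≤ 1)
    (h : min 1 (w / X) ≤ p) : (w + X) * (1 - p) ≤ X := by
  rcases le_total 1 (w / X) with h1 | h1
  · rw [min_eq_left h1] at h
    have : p = 1 := le_antisymm hp h
    rw [this]; simp; exact hX.le
  · rw [min_eq_right h1] at h
    have h2 : (w + X) * (1 - p) ≤ (w + X) * (1 - w / X) := by
      apply mul_le_mul_of_nonneg_left _ (by linarith)
      linarith
    have h3 : (w + X) * (1 - w / X) = X - w * w / X := by field_simp; ring
    have h4 : 0 ≤ w * w / X := by positivity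
    linarith

theorem prefix_sum (n : ℕ) (w p : ℕ → ℝ) (X : ℝ) (hX : 0 < X) (hw : ∀ t < n, 0 ≤ w t)
    (hp : ∀ t < n, p t ≤ 1) (h : ∀ t < n, min 1 (w t / X) ≤ p t) :
    ∑ t ∈ range n, w t * ∏ t' ∈ range (t + 1), (1 - p t') ≤ X := by
  have key : ∀ m ≤ n, ∑ t ∈ range m, w t * ∏ t' ∈ range (t + 1), (1 - p t') +
      X * ∏ t' ∈ range m, (1 - p t') ≤ X := by
    intro m hm
    induction m with
    | zero => simp
    | succ m ih =>
      have ih' := ih (by omega)
      have hpos : 0 ≤ ∏ t' ∈ range m, (1 - p t') := by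
        apply Finset.prod_nonneg
        intro t ht
        have := hp t (by have := Finset.mem_range.1 ht; omega)
        linarith
      have hs := step_le hX (hw m (by omega)) (hp m (by omega)) (h m (by omega))
      rw [Finset.sum_range_succ, Finset.prod_range_succ]
      have := mul_le_mul_of_nonneg_right hs hpos
      nlinarith
  have h1 := key n le_rfl
  have hpos : 0 ≤ ∏ t' ∈ range n, (1 - p t') := by
    apply Finset.prod_nonneg
    intro t ht
    have := hp t (Finset.mem_range.1 ht)
    linarith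
  nlinarith [mul_nonneg hX.le hpos]

theorem suffix_sum (n : ℕ) (w p : ℕ → ℝ) (X : ℝ) (hX : 0 < X) (hw : ∀ t < n, 0 ≤ w t)
    (hp : ∀ t < n, p t ≤ 1) (h : ∀ t < n, min 1 (w t / X) ≤ p t) :
    ∑ t ∈ range n, w t * ∏ t' ∈ Ico t n, (1 - p t') ≤ X := by
  have key : ∀ m ≤ n, ∑ t ∈ range m, w t * ∏ t' ∈ Ico t m, (1 - p t') ≤ X := by
    intro m hm
    induction m with
    | zero => simpa using hX.le
    | succ m ih =>
      have ih' := ih (by omega)
      have hs := step_le hX (hw m (by omega)) (hp m (by omega)) (h m (by omega))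
      have hp0 : 0 ≤ 1 - p m := by linarith [hp m (by omega)]
      have e1 : ∑ t ∈ range (m + 1), w t * ∏ t' ∈ Ico t (m + 1), (1 - p t') =
          (∑ t ∈ range m, w t * ∏ t' ∈ Ico t m, (1 - p t') + w m) * (1 - p m) := by
        rw [Finset.sum_range_succ, add_mul, Finset.sum_mul]
        congr 1
        · apply Finset.sum_congr rfl
          intro t ht
          rw [Finset.prod_Ico_succ_top (by have := Finset.mem_range.1 ht; omega)]
          ring
        · simp
      rw [e1]
      calc _ ≤ (X + w m) * (1 - p m) := by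
            apply mul_le_mul_of_nonneg_right _ hp0
            linarith
        _ ≤ X := by linarith
  exact key n le_rfl

end Pool.Agent.H59.SP
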