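import Pool.Agent.H59.SP.Basic
import Pool.Agent.H59.SP.Labels
import Pool.Agent.H59.SP.Sampling
import Pool.Agent.H59.SP.TwoSided

/-!
# Module SERV: the service property is inherited by the next level

`K` is the level `j` system (segments of length `s = K.s`), `K'` the level `j+1` system
(`s' = K'.s = r * s`). Given `D'` a finite set of nonfree level `j+1` segments `(y, y')`,
`ŵ = K'.wt y ≥ 1`, so `vol (4 s') y ≤ ŵ * K'.v`. Let `g = geo G y y'`, `m = G.dist y y' ≤ s'`,
`q = m / s + 1 ≤ r + 1`, segments `t < q`, labels `λ_t = (k_t, t % 17)` for nonfree `t`.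

Sampling: `Λ = K.T ×ˢ range 17`, for `k ∈ K.T` let `X_k = max 1 (vol (2 s') k / K'.v)`,
`p (k, c) = min 1 (K.w k / (γ * X_k))`. For `R ⊆ Λ` let `R₀ = R.image Prod.fst`, and let
 * `D₂ R` be the set given by `two_sided` for `I = {(k, k') ∈ R₀ × R₀ | k ≠ k', Nr G (s' + 2 J) k k'}`,
   `Q = {(k, k'', c) | k ∈ R₀, k'' ∈ K.T, c < 17, Nr G (s' + 3 J) k k''}`. Weight
   `≤ Jp * ∑ k ∈ R₀, 17 * vol (s' + 3 J + ρ) k / K.v ≤ ∑ x ∈ R, cst x`,
   `cst (k, c) = 17 * Jp * vol (2 s') k / K.v` (`s' + 3 J + ρ ≤ 2 s'` as `28 s ≤ s'`),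
   `Jp = 9 + N + 8 S`.
 * `D₁ R` be the set of the level `j` segments `(g (pos t), g (pos (t+1)))`, `t` nonfree, of all
   `(y, y') ∈ D'`, such that no nonfree `t' ≤ t` has `λ_t' ∈ R`, or no nonfree `t' ∈ [t, q)` has
   `λ_t' ∈ R`. Weight `≤ ∑ over ((y,y'), t, side) of K.wt (g (pos t)) * [S ∩ R = ∅]`, where
   `S = {λ_t' | t' ≤ t nonfree}` or `{λ_t' | t' ∈ [t,q) nonfree}`.
`sampling` gives `R` with total weight at most
`∑ p * cst + ∑_{(y,y')} (∑_t wt_t * ∏_{t' ≤ t} (1 - p_t') + ∑_t wt_t * ∏_{t' ∈ [t,q)} (1 - p_t'))`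
(`∏ x ∈ S, (1 - p x) = ∏ t', (1 - p_t')` with `p_t' = 0` for free `t'`, by `label_inj`).
First sum: `p * cst ≤ (K.w k / (γ X_k)) * 17 Jp vol / K.v ≤ 17 Jp K.w k K'.v / (γ K.v)`, total
`≤ 289 Jp X.card K'.v / (γ K.v ^ 2)` by `sum_all`. Second: `≤ 2 γ ŵ` by `prefix_sum`, `suffix_sum`
with `X = γ ŵ`, because `X_{k_t} ≤ ŵ` (ball of radius `2 s'` at `k_t` is in the ball of radius
`s' + J + 2 s' ≤ 4 s'` at `y`) so `p_t ≥ min 1 (wt_t / (γ ŵ))`.
Apply `K.Serv` to `D₁ R ∪ D₂ R`.

Error for `(y, y') ∈ D'` in `H`: if no nonfree `t` has `λ_t ∈ R` all nonfree segments are in `D₁ R`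
and `along` gives error `N s`. Otherwise let `t_a ≤ t_b` be the first and last hits: chain of the
segments before `t_a` (error `t_a E`), jump `S J` to `k_a`, `k_a → k_b` (`0` if equal, else
`G.dist k_a k_b + (2 N + 16 S + 2) s` with `G.dist k_a k_b ≤ pos t_b - pos t_a + 2 J ≤ s' + 2 J`),
jump from `k_b` to `g (pos (t_b + 1))` (`S (J + s)`), chain of the segments `> t_b`. Total error
`≤ N s + 8 S s + 16 s + (2 N + 16 S + 2) s + 9 S s`.
-/

namespace Pool.Agent.H59.SP

open Finset

variable {V : Type*} {G : SimpleGraph V} {X : Finset V}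

namespace ServStep

theorem sum_image_le {α β : Type*} [DecidableEq β] (s : Finset α) (f : α → β) (w : β → ℝ)
    (hw : ∀ b, 0 ≤ w b) : ∑ x ∈ s.image f, w x ≤ ∑ j ∈ s, w (f j) := by
  classical
  induction s using Finset.induction_on with
  | empty => simp
  | insert a s ha ih =>
    rw [Finset.image_insert, Finset.sum_insert ha]
    calc ∑ x ∈ insert (f a) (s.image f), w x ≤ w (f a) + ∑ x ∈ s.image f, w x := by
          by_cases h : f a ∈ s.image f
          · rw [Finset.insert_eq_of_mem h]; linarith [hw (f a)]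
          · rw [Finset.sum_insert h]
      _ ≤ _ := by linarith

theorem sum_union_le {β : Type*} [DecidableEq β] (s t : Finset β) (w : β → ℝ)
    (hw : ∀ b, 0 ≤ w b) : ∑ x ∈ s ∪ t, w x ≤ ∑ x ∈ s, w x + ∑ x ∈ t, w x := by
  rw [← Finset.sum_union_inter]
  have : 0 ≤ ∑ x ∈ s ∩ t, w x := Finset.sum_nonneg fun x _ => hw x
  linarith

/-- the `t`-th cut point of the geodesic of `e`. -/
noncomputable def pt (K : HubSys G X) (e : V × V) (t : ℕ) : V :=
  geo G e.1 e.2 (pos K.s (G.dist e.1 e.2) t)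

/-- number of segments. -/
noncomputable def nq (K : HubSys G X) (e : V × V) : ℕ := G.dist e.1 e.2 / K.s + 1

/-- label of the `t`-th segment. -/
noncomputable def lab (K : HubSys G X) (e : V × V) (t : ℕ) : Option (V × ℕ) :=
  (K.hub (pt K e t)).map (fun k => (k, t % 17))

open Classical in
/-- labels of a set of segments. -/
noncomputable def labs (K : HubSys G X) (e : V × V) (A : Finset ℕ) : Finset (V × ℕ) :=
  A.biUnion (fun t => (lab K e t).toFinset)

/-- indices of one side. -/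
noncomputable def side (K : HubSys G X) (e : V × V) (t : ℕ) (b : Bool) : Finset ℕ :=
  if b then range (t + 1) else Ico t (nq K e)

theorem mem_labs {K : HubSys G X} {e : V × V} {A : Finset ℕ} {x : V × ℕ} :
    x ∈ labs K e A ↔ ∃ t ∈ A, lab K e t = some x := by
  classical
  unfold labs
  simp [Finset.mem_biUnion, Option.mem_toFinset, Option.mem_def]

theorem lab_eq_some {K : HubSys G X} {e : V × V} {t : ℕ} {x : V × ℕ} :
    lab K e t = some x ↔ K.hub (pt K e t) = some x.1 ∧ x.2 = t % 17 := by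
  unfold lab
  rw [Option.map_eq_some_iff]
  constructor
  · rintro ⟨k, hk, rfl⟩; exact ⟨hk, rfl⟩
  · rintro ⟨hk, hx⟩; exact ⟨x.1, hk, by rw [← hx]⟩

theorem prod_labs (K : HubSys G X) {e : V × V} (he : G.Reachable e.1 e.2) (A : Finset ℕ)
    (hA : ∀ t ∈ A, t < nq K e) (f : V × ℕ → ℝ) :
    ∏ x ∈ labs K e A, f x = ∏ t ∈ A, ((lab K e t).elim 1 f) := by
  classical
  unfold labs
  rw [Finset.prod_biUnion]
  · apply Finset.prod_congr rfl
    intro t _
    rcases h : lab K e t with _ | x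
    · simp
    · simp
  · intro t ht t' ht' hne
    simp only [Function.onFun]
    rw [Finset.disjoint_left]
    intro x hx hx'
    rw [Option.mem_toFinset, Option.mem_def, lab_eq_some] at hx hx'
    apply hne
    exact label_inj K (geo_geo he) (hA t ht) (hA t' ht') hx.1 hx'.1 (by rw [← hx.2, ← hx'.2])

/-- partial version of `along`. -/
theorem along' (K : HubSys G X) {E : ℕ} {e : V × V} (he : G.Reachable e.1 e.2)
    {H : SimpleGraph V} (hfree : K.Free E H)
    {D : Finset (V × V)} (hD : Served G D E H) {a b : ℕ} (hab : a ≤ b)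
    (hseg : ∀ t, a ≤ t → t < b → K.hub (pt K e t) ≠ none → (pt K e t, pt K e (t + 1)) ∈ D) :
    Nr H (pos K.s (G.dist e.1 e.2) b - pos K.s (G.dist e.1 e.2) a + (b - a) * E)
      (pt K e a) (pt K e b) := by
  apply chain a b hab
  intro t hat htb
  have hn : Nr G (pos K.s (G.dist e.1 e.2) (t + 1) - pos K.s (G.dist e.1 e.2) t)
      (pt K e t) (pt K e (t + 1)) :=
    (geo_geo he).near _ _ (pos_mono _ _ (Nat.le_succ t)) (pos_le _ _ _)
  rcases h' : K.hub (pt K e t) with _ | k
  · refine hfree _ _ _ h' ?_ hn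
    have := pos_succ_le K.s (G.dist e.1 e.2) t
    omega
  · exact hD _ (hseg t hat htb (by rw [h']; simp)) _ hn

theorem pt_zero (K : HubSys G X) {e : V × V} (he : G.Reachable e.1 e.2) : pt K e 0 = e.1 := by
  unfold pt
  rw [pos_zero, geo_zero he]

theorem pt_last (K : HubSys G X) {e : V × V} (he : G.Reachable e.1 e.2) :
    pt K e (nq K e) = e.2 := by
  unfold pt nq
  rw [pos_last K.s_pos, geo_dist he]

/-- Error of one segment of the higher level. -/
theorem error (K : HubSys G X) (s' S r N E : ℕ)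
    (hs : s' = r * K.s) (hE : (r + 20) * E ≤ N * K.s) {e : V × V} (he : Nr G s' e.1 e.2)
    {H : SimpleGraph V} (hH : Span G S H) (hfree : K.Free E H) {D : Finset (V × V)}
    (hD : Served G D E H) (R : Finset (V × ℕ))
    (h1 : ∀ t < nq K e, K.hub (pt K e t) ≠ none → ∀ b,
      Disjoint (labs K e (side K e t b)) R → (pt K e t, pt K e (t + 1)) ∈ D)
    (h2 : ∀ x ∈ R, ∀ y ∈ R, x.1 ≠ y.1 → Nr G (s' + 2 * K.J) x.1 y.1 →
      Nr H (G.dist x.1 y.1 + (2 * N + 16 * S + 2) * K.s) x.1 y.1) :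
    Nr H (G.dist e.1 e.2 + (3 * N + 33 * S + 20) * K.s) e.1 e.2 := by
  classical
  have hre := he.reachable
  have hm : G.dist e.1 e.2 ≤ s' := he.dist_le
  have hq : nq K e ≤ r + 1 := by
    unfold nq
    have : G.dist e.1 e.2 / K.s ≤ r := by
      apply Nat.div_le_of_le_mul
      rw [mul_comm]; omega
    omega
  have hqE : nq K e * E ≤ N * K.s := by
    refine le_trans (Nat.mul_le_mul_right _ ?_) hE
    omega
  set Hits := (range (nq K e)).filter (fun t => ∃ x ∈ R, lab K e t = some x) with hHits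
  by_cases hne : Hits.Nonempty
  · -- first and last hit
    set ta := Hits.min' hne with hta
    set tb := Hits.max' hne with htb
    have hta1 : ta ∈ Hits := Finset.min'_mem _ _
    have htb1 : tb ∈ Hits := Finset.max'_mem _ _
    have hab : ta ≤ tb := Finset.min'_le _ _ htb1
    rw [hHits, Finset.mem_filter, Finset.mem_range] at hta1 htb1
    obtain ⟨hta2, xa, hxa, hxa'⟩ := hta1
    obtain ⟨htb2, xb, hxb, hxb'⟩ := htb1
    rw [lab_eq_some] at hxa' hxb'
    have hka := (K.hub_spec _ _ hxa'.1).2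
    have hkb := (K.hub_spec _ _ hxb'.1).2
    -- chain before `ta`
    have c1 := along' K hre hfree hD (Nat.zero_le ta) (by
      intro t _ ht hn
      apply h1 t (by omega) hn true
      rw [Finset.disjoint_left]
      intro x hx hxR
      rw [mem_labs] at hx
      obtain ⟨t', ht', hx⟩ := hx
      simp only [side, if_true, Finset.mem_range] at ht'
      have : t' ∈ Hits := by
        rw [hHits, Finset.mem_filter, Finset.mem_range]
        exact ⟨by omega, x, hxR, hx⟩
      have := Finset.min'_le _ _ this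
      omega)
    have c2 := along' K hre hfree hD (show tb + 1 ≤ nq K e by omega) (by
      intro t htl ht hn
      apply h1 t (by omega) hn false
      rw [Finset.disjoint_left]
      intro x hx hxR
      rw [mem_labs] at hx
      obtain ⟨t', ht', hx⟩ := hx
      simp only [side] at ht'
      have ht'' := Finset.mem_Ico.1 (by simpa using ht')
      have : t' ∈ Hits := by
        rw [hHits, Finset.mem_filter, Finset.mem_range]
        exact ⟨by omega, x, hxR, hx⟩
      have := Finset.le_max' _ _ this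
      omega)
    rw [pt_zero K hre, pos_zero] at c1
    rw [pt_last K hre] at c2
    have hlast : pos K.s (G.dist e.1 e.2) (nq K e) = G.dist e.1 e.2 := pos_last K.s_pos _
    rw [hlast] at c2
    have j1 := hH _ _ _ hka
    have hseg : Nr G (pos K.s (G.dist e.1 e.2) (tb + 1) - pos K.s (G.dist e.1 e.2) tb)
      (pt K e tb) (pt K e (tb + 1)) :=
      (geo_geo hre).near _ _ (pos_mono _ _ (Nat.le_succ tb)) (pos_le _ _ _)
    have hsucc := pos_succ_le K.s (G.dist e.1 e.2) tb
    have j2 := hH _ _ _ (((hkb.symm).trans hseg).mono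
      (show _ ≤ K.J + K.s by omega))
    have hmid : Nr G (pos K.s (G.dist e.1 e.2) tb - pos K.s (G.dist e.1 e.2) ta)
        (pt K e ta) (pt K e tb) :=
      (geo_geo hre).near _ _ (pos_mono _ _ hab) (pos_le _ _ _)
    have hkk := (hka.symm.trans hmid).trans hkb
    have hposa := pos_mono K.s (G.dist e.1 e.2) hab
    have hposb := pos_mono K.s (G.dist e.1 e.2) (Nat.le_succ tb)
    simp only [Nat.succ_eq_add_one] at hposb
    have hposm := pos_le K.s (G.dist e.1 e.2) (tb + 1)
    have j3 : Nr H (pos K.s (G.dist e.1 e.2) tb - pos K.s (G.dist e.1 e.2) ta + 2 * K.J +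
        (2 * N + 16 * S + 2) * K.s) xa.1 xb.1 := by
      by_cases hx : xa.1 = xb.1
      · rw [hx]; exact Nr.refl _ _ _
      · have h3 := h2 xa hxa xb hxb hx (hkk.mono (by omega))
        have h4 := hkk.dist_le
        exact h3.mono (by omega)
    have tot := (((c1.trans j1).trans j3).trans j2).trans c2
    refine tot.mono ?_
    have hJ := K.J_le
    have hSJ : S * K.J ≤ 8 * S * K.s := by
      calc S * K.J ≤ S * (8 * K.s) := Nat.mul_le_mul_left _ hJ
        _ = _ := by ring
    have hSJ2 : S * (K.J + K.s) ≤ 9 * S * K.s := by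
      calc S * (K.J + K.s) ≤ S * (9 * K.s) := Nat.mul_le_mul_left _ (by omega)
        _ = _ := by ring
    have hEE : (ta - 0) * E + (nq K e - (tb + 1)) * E ≤ N * K.s := by
      rw [← Nat.add_mul]
      refine le_trans (Nat.mul_le_mul_right _ ?_) hqE
      omega
    have e1 : (2 * N + 16 * S + 2) * K.s = 2 * (N * K.s) + 16 * (S * K.s) + 2 * K.s := by ring
    have e2 : (3 * N + 33 * S + 20) * K.s = 3 * (N * K.s) + 33 * (S * K.s) + 20 * K.s := by ring
    have e3 : 8 * S * K.s = 8 * (S * K.s) := by ring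
    have e4 : 9 * S * K.s = 9 * (S * K.s) := by ring
    rw [e1, e2]
    rw [e3] at hSJ
    rw [e4] at hSJ2
    omega
  · -- no hit
    have c1 := along' K hre hfree hD (Nat.zero_le (nq K e)) (by
      intro t _ ht hn
      apply h1 t (by omega) hn true
      rw [Finset.disjoint_left]
      intro x hx hxR
      rw [mem_labs] at hx
      obtain ⟨t', ht', hx⟩ := hx
      simp only [side, if_true, Finset.mem_range] at ht'
      apply hne
      refine ⟨t', ?_⟩
      rw [hHits, Finset.mem_filter, Finset.mem_range]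
      exact ⟨by omega, x, hxR, hx⟩)
    rw [pt_zero K hre, pos_zero, pt_last K hre] at c1
    have hlast : pos K.s (G.dist e.1 e.2) (nq K e) = G.dist e.1 e.2 := pos_last K.s_pos _
    rw [hlast] at c1
    refine c1.mono ?_
    have e2 : (3 * N + 33 * S + 20) * K.s = 3 * (N * K.s) + 33 * (S * K.s) + 20 * K.s := by ring
    rw [e2]
    simp only [Nat.sub_zero]
    omega

/-- sampling probabilities. -/
noncomputable def pp (K K' : HubSys G X) (γ : ℝ) (x : V × ℕ) : ℝ :=
  min 1 (K.w x.1 / (γ * max 1 ((vol G X (2 * K'.s) x.1 : ℝ) / K'.v)))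

/-- cost of a sampled label. -/
noncomputable def cst (K K' : HubSys G X) (Jp : ℕ) (x : V × ℕ) : ℝ :=
  17 * Jp * ((vol G X (2 * K'.s) x.1 : ℝ) / K.v)

theorem pp_le_one (K K' : HubSys G X) (γ : ℝ) (x : V × ℕ) : pp K K' γ x ≤ 1 := min_le_left _ _

theorem den_pos (K' : HubSys G X) {γ : ℝ} (hγ : 1 ≤ γ) (k : V) :
    0 < γ * max 1 ((vol G X (2 * K'.s) k : ℝ) / K'.v) := by
  have h1 : (1 : ℝ) ≤ max 1 ((vol G X (2 * K'.s) k : ℝ) / K'.v) := le_max_left _ _
  have : (0 : ℝ) < γ := by linarith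
  have h2 : (0 : ℝ) < max 1 ((vol G X (2 * K'.s) k : ℝ) / K'.v) := by linarith
  positivity

theorem pp_nonneg (K K' : HubSys G X) {γ : ℝ} (hγ : 1 ≤ γ) {x : V × ℕ} (hx : x.1 ∈ K.T) :
    0 ≤ pp K K' γ x := by
  unfold pp
  apply le_min zero_le_one
  apply div_nonneg (zero_le_one.trans (K.w_ge _ hx)) (den_pos K' hγ x.1).le

theorem pp_cst (K K' : HubSys G X) {γ : ℝ} (hγ : 1 ≤ γ) (Jp : ℕ) {x : V × ℕ} (hx : x.1 ∈ K.T) :
    pp K K' γ x * cst K K' Jp x ≤ 17 * Jp * (K.w x.1 * (K'.v / (γ * K.v))) := by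
  have hw : 0 ≤ K.w x.1 := zero_le_one.trans (K.w_ge _ hx)
  have hd := den_pos K' hγ x.1
  have hγ0 : (0 : ℝ) < γ := by linarith
  have hv := K.v_pos
  have hv' := K'.v_pos
  set vl : ℝ := (vol G X (2 * K'.s) x.1 : ℝ) with hvl
  have hvl0 : 0 ≤ vl := by rw [hvl]; positivity
  have h1 : pp K K' γ x ≤ K.w x.1 / (γ * max 1 (vl / K'.v)) := min_le_right _ _
  have h2 : vl / K'.v ≤ max 1 (vl / K'.v) := le_max_right _ _
  have h3 : vl ≤ max 1 (vl / K'.v) * K'.v := by rwa [div_le_iff₀ hv'] at h2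
  have hM : 0 < max 1 (vl / K'.v) := lt_of_lt_of_le zero_lt_one (le_max_left _ _)
  have h4 : cst K K' Jp x = 17 * Jp * (vl / K.v) := rfl
  rw [h4]
  have h5 : 0 ≤ 17 * (Jp : ℝ) * (vl / K.v) := by positivity
  calc pp K K' γ x * (17 * Jp * (vl / K.v))
      ≤ (K.w x.1 / (γ * max 1 (vl / K'.v))) * (17 * Jp * (vl / K.v)) :=
        mul_le_mul_of_nonneg_right h1 h5
    _ ≤ (K.w x.1 / (γ * max 1 (vl / K'.v))) *
        (17 * Jp * ((max 1 (vl / K'.v) * K'.v) / K.v)) := by
        apply mul_le_mul_of_nonneg_left _ (div_nonneg hw hd.le)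
        apply mul_le_mul_of_nonneg_left _ (by positivity)
        exact div_le_div_of_nonneg_right h3 hv.le
    _ = 17 * Jp * (K.w x.1 * (K'.v / (γ * K.v))) := by
        field_simp

/-- Expected weight of the segments seen before (after) the first (last) hit. -/
theorem expect (K K' : HubSys G X) {r : ℕ} (hr : 32 ≤ r) (hs : K'.s = r * K.s) {γ : ℝ}
    (hγ : 1 ≤ γ) {e : V × V} (he : Nr G K'.s e.1 e.2) (hub : K'.hub e.1 ≠ none)
    (hvol : ∀ y k, K'.hub y = some k → (vol G X (4 * K'.s) y : ℝ) ≤ K'.w k * K'.v) (b : Bool) :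
    ∑ t ∈ range (nq K e), K.wt (pt K e t) *
      ∏ x ∈ labs K e (side K e t b), (1 - pp K K' γ x) ≤ γ * K'.wt e.1 := by
  classical
  have hre := he.reachable
  have hγ0 : (0 : ℝ) < γ := by linarith
  have hŵ : 1 ≤ K'.wt e.1 := K'.one_le_wt hub
  have hvolw : (vol G X (4 * K'.s) e.1 : ℝ) ≤ K'.wt e.1 * K'.v := by
    rcases h : K'.hub e.1 with _ | k
    · exact absurd h hub
    · have h1 := hvol e.1 k h
      unfold HubSys.wt
      rw [h]
      simpa using h1
  set p : ℕ → ℝ := fun t => (lab K e t).elim 0 (pp K K' γ) with hpdef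
  have hX : 0 < γ * K'.wt e.1 := by
    have : 0 < K'.wt e.1 := by linarith
    positivity
  have hw : ∀ t < nq K e, 0 ≤ K.wt (pt K e t) := fun t _ => K.wt_nonneg _
  have hp : ∀ t < nq K e, p t ≤ 1 := by
    intro t _
    rw [hpdef]
    simp only
    rcases lab K e t with _ | x
    · simp
    · simpa using pp_le_one K K' γ x
  have h : ∀ t < nq K e, min 1 (K.wt (pt K e t) / (γ * K'.wt e.1)) ≤ p t := by
    intro t ht
    rw [hpdef]
    simp only
    rcases h1 : lab K e t with _ | x
    · have h2 : K.hub (pt K e t) = none := by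
        unfold lab at h1
        simpa using h1
      have h3 : K.wt (pt K e t) = 0 := by
        unfold HubSys.wt; rw [h2]; rfl
      rw [h3]
      simp
    · rw [lab_eq_some] at h1
      have h3 : K.wt (pt K e t) = K.w x.1 := by
        unfold HubSys.wt; rw [h1.1]; rfl
      rw [h3]
      simp only [Option.elim_some]
      unfold pp
      apply min_le_min le_rfl
      have hk := K.hub_spec _ _ h1.1
      apply div_le_div_of_nonneg_left (zero_le_one.trans (K.w_ge _ hk.1)) (den_pos K' hγ x.1)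
      apply mul_le_mul_of_nonneg_left _ hγ0.le
      apply max_le hŵ
      rw [div_le_iff₀ K'.v_pos]
      refine le_trans ?_ hvolw
      have hnear : Nr G (pos K.s (G.dist e.1 e.2) t) e.1 (pt K e t) := by
        have := (geo_geo hre).near 0 _ (Nat.zero_le _) (pos_le K.s (G.dist e.1 e.2) t)
        rw [geo_zero hre, Nat.sub_zero] at this
        exact this
      have hposm := pos_le K.s (G.dist e.1 e.2) t
      have hdist := he.dist_le
      have hJ := K.J_le
      have hs32 : 32 * K.s ≤ K'.s := by rw [hs]; exact Nat.mul_le_mul_right _ hr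
      have := vol_le (X := X) (ρ := 2 * K'.s) (ρ' := 4 * K'.s) (hnear.trans hk.2) (by omega)
      exact_mod_cast this
  have hprod : ∀ t < nq K e, ∏ x ∈ labs K e (side K e t b), (1 - pp K K' γ x) =
      ∏ t' ∈ side K e t b, (1 - p t') := by
    intro t ht
    rw [prod_labs K hre]
    · apply Finset.prod_congr rfl
      intro t' _
      rw [hpdef]
      simp only
      rcases lab K e t' with _ | x
      · simp
      · simp
    · intro t' ht'
      unfold side at ht'
      cases b
      · have := Finset.mem_Ico.1 (by simpa using ht'); omega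
      · simp only [if_true, Finset.mem_range] at ht'
        omega
  rw [Finset.sum_congr rfl (fun t ht => by rw [hprod t (Finset.mem_range.1 ht)])]
  cases b
  · simpa [side] using suffix_sum (nq K e) (fun t => K.wt (pt K e t)) p (γ * K'.wt e.1) hX hw hp h
  · simpa [side] using prefix_sum (nq K e) (fun t => K.wt (pt K e t)) p (γ * K'.wt e.1) hX hw hp h

/-- The set bought for the pairs of sampled hubs. -/
theorem buyTwo (K K' : HubSys G X) (S r N E : ℕ) (hS : 1 ≤ S) (hr : 32 ≤ r)
    (hs : K'.s = r * K.s) (hE : (r + 20) * E ≤ N * K.s)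
    (R : Finset (V × ℕ)) :
    ∃ D : Finset (V × V), K.Segs D ∧
      ∑ x ∈ D, K.wt x.1 ≤ ∑ x ∈ R, cst K K' (9 + N + 8 * S) x ∧
      ∀ H : SimpleGraph V, Span G S H → K.Free E H → Served G D E H →
        ∀ x ∈ R, ∀ y ∈ R, x.1 ≠ y.1 → Nr G (K'.s + 2 * K.J) x.1 y.1 →
          Nr H (G.dist x.1 y.1 + (2 * N + 16 * S + 2) * K.s) x.1 y.1 := by
  classical
  have hJ := K.J_le
  have hρ := K.ρ_le
  have hs32 : 32 * K.s ≤ K'.s := by rw [hs]; exact Nat.mul_le_mul_right _ hr
  set R₀ := R.image Prod.fst with hR₀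
  set I : Finset (V × V) := (R₀ ×ˢ R₀).filter
    (fun e => e.1 ≠ e.2 ∧ Nr G (K'.s + 2 * K.J) e.1 e.2) with hI
  set Q : Finset (V × V × ℕ) := (R₀ ×ˢ (K.T ×ˢ range 17)).filter
    (fun q => Nr G (K'.s + 3 * K.J) q.1 q.2.1) with hQ
  obtain ⟨D, hD1, hD2, hD3⟩ := two_sided K S N E hS I Q (by
      intro e he
      rw [hI, Finset.mem_filter] at he
      exact ⟨he.2.2.reachable, he.2.1⟩) (by
      intro e he
      rw [hI, Finset.mem_filter] at he
      have hd := he.2.2.dist_le
      refine le_trans (Nat.mul_le_mul_right _ ?_) hE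
      have : G.dist e.1 e.2 / K.s ≤ r + 16 := by
        apply Nat.div_le_of_le_mul
        have : K.s * (r + 16) = r * K.s + 16 * K.s := by ring
        omega
      omega) (by
      intro q hq
      rw [hQ, Finset.mem_filter, Finset.mem_product, Finset.mem_product] at hq
      exact hq.1.2.1) (by
      intro e he t ht k hk c hc h1 h2
      rw [hI, Finset.mem_filter, Finset.mem_product] at he
      have hd := he.2.2.dist_le
      rw [hQ, Finset.mem_filter, Finset.mem_filter]
      simp only [Finset.mem_product, Finset.mem_range]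
      exact ⟨⟨⟨he.1.1, hk, hc⟩, h1.mono (by omega)⟩, ⟨⟨he.1.2, hk, hc⟩, h2.mono (by omega)⟩⟩)
  refine ⟨D, hD1, hD2.trans ?_, ?_⟩
  · have hQsum : ∑ q ∈ Q, K.w q.2.1 ≤ ∑ k ∈ R₀, 17 * ((vol G X (2 * K'.s) k : ℝ) / K.v) := by
      rw [hQ, Finset.sum_filter, Finset.sum_product]
      apply Finset.sum_le_sum
      intro k _
      rw [Finset.sum_product]
      simp only [Finset.sum_const, Finset.card_range, nsmul_eq_mul, Nat.cast_ofNat]
      rw [← Finset.mul_sum, ← Finset.sum_filter]
      apply mul_le_mul_of_nonneg_left _ (by norm_num)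
      have h1 := K.sum_w k (K'.s + 3 * K.J) (K.T.filter (fun k' => Nr G (K'.s + 3 * K.J) k k'))
        (Finset.filter_subset _ _) (by
          intro k' hk'
          exact (Finset.mem_filter.1 hk').2)
      refine h1.trans ?_
      apply div_le_div_of_nonneg_right _ K.v_pos.le
      have := vol_le (G := G) (X := X) (ρ := K'.s + 3 * K.J + K.ρ) (ρ' := 2 * K'.s)
        (Nr.refl G 0 k) (by omega)
      exact_mod_cast this
    calc ((9 + N + 8 * S : ℕ) : ℝ) * ∑ q ∈ Q, K.w q.2.1
        ≤ ((9 + N + 8 * S : ℕ) : ℝ) * ∑ k ∈ R₀, 17 * ((vol G X (2 * K'.s) k : ℝ) / K.v) :=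
          mul_le_mul_of_nonneg_left hQsum (by positivity)
      _ = ∑ k ∈ R₀, 17 * ((9 + N + 8 * S : ℕ) : ℝ) * ((vol G X (2 * K'.s) k : ℝ) / K.v) := by
          rw [Finset.mul_sum]
          apply Finset.sum_congr rfl
          intro k _; ring
      _ ≤ ∑ x ∈ R, cst K K' (9 + N + 8 * S) x := by
          have hv := K.v_pos
          exact sum_image_le R Prod.fst
            (fun k => 17 * ((9 + N + 8 * S : ℕ) : ℝ) * ((vol G X (2 * K'.s) k : ℝ) / K.v))
            (fun k => by positivity)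
  · intro H h1 h2 h3 x hx y hy hxy hn
    apply hD3 H h1 h2 h3 (x.1, y.1)
    rw [hI, Finset.mem_filter, Finset.mem_product]
    exact ⟨⟨Finset.mem_image_of_mem _ hx, Finset.mem_image_of_mem _ hy⟩, hxy, hn⟩

end ServStep

open ServStep in
theorem serv_step [Fintype V] (K K' : HubSys G X) (S r N E : ℕ) (hS : 1 ≤ S) (hr : 32 ≤ r)
    (hs : K'.s = r * K.s) (P : SimpleGraph V → Prop) (hP : ∀ H, P H → Span G S H)
    (a c : ℝ) (hc : 0 ≤ c) (hServ : K.Serv P a c E) (hfree : ∀ H, P H → K.Free E H)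
    (hE : (r + 20) * E ≤ N * K.s)
    (hvol : ∀ y k, K'.hub y = some k → (vol G X (4 * K'.s) y : ℝ) ≤ K'.w k * K'.v)
    (γ : ℝ) (hγ : 1 ≤ γ) :
    K'.Serv P (a + c * (289 * (9 + N + 8 * S : ℕ) * (X.card * K'.v / (γ * K.v ^ 2))))
      (c * (2 * γ)) ((3 * N + 33 * S + 20) * K.s) := by
  classical
  intro D' hD'
  have hγ0 : (0 : ℝ) < γ := by linarith
  have hv := K.v_pos
  have hv' := K'.v_pos
  set Λ : Finset (V × ℕ) := K.T ×ˢ range 17 with hΛ
  set I : Finset (Σ _ : V × V, ℕ × Bool) :=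
    D'.sigma (fun e => range (nq K e) ×ˢ (univ : Finset Bool)) with hI
  have hlabT : ∀ e t x, lab K e t = some x → x ∈ Λ := by
    intro e t x hx
    rw [lab_eq_some] at hx
    rw [hΛ, Finset.mem_product, Finset.mem_range]
    refine ⟨(K.hub_spec _ _ hx.1).1, ?_⟩
    have := Nat.mod_lt t (show 17 > 0 by norm_num)
    omega
  obtain ⟨R, -, hR⟩ := sampling Λ (pp K K' γ)
    (fun x hx => ⟨pp_nonneg K K' hγ (Finset.mem_product.1 hx).1, pp_le_one K K' γ x⟩)
    (cst K K' (9 + N + 8 * S)) I (fun j => labs K j.1 (side K j.1 j.2.1 j.2.2))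
    (by
      intro j _ x hx
      rw [mem_labs] at hx
      obtain ⟨t, _, hx⟩ := hx
      exact hlabT _ _ _ hx)
    (fun j => K.wt (pt K j.1 j.2.1))
  obtain ⟨D₂, hD₂1, hD₂2, hD₂3⟩ := buyTwo K K' S r N E hS hr hs hE R
  set D₁ : Finset (V × V) := (I.filter (fun j => Disjoint (labs K j.1 (side K j.1 j.2.1 j.2.2)) R ∧
    K.hub (pt K j.1 j.2.1) ≠ none)).image
    (fun j => (pt K j.1 j.2.1, pt K j.1 (j.2.1 + 1))) with hD₁
  have hD₁seg : K.Segs D₁ := by
    intro x hx
    rw [hD₁, Finset.mem_image] at hx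
    obtain ⟨j, hj, rfl⟩ := hx
    rw [Finset.mem_filter, hI, Finset.mem_sigma, Finset.mem_product] at hj
    refine ⟨?_, hj.2.2⟩
    have hre := (hD' _ hj.1.1).1.reachable
    refine ((geo_geo hre).near _ _ (pos_mono K.s _ (Nat.le_succ j.2.1)) (pos_le _ _ _)).mono ?_
    have := pos_succ_le K.s (G.dist j.1.1 j.1.2) j.2.1
    simp only [Nat.succ_eq_add_one]
    omega
  have hD₁w : ∑ x ∈ D₁, K.wt x.1 ≤
      ∑ j ∈ I with Disjoint (labs K j.1 (side K j.1 j.2.1 j.2.2)) R, K.wt (pt K j.1 j.2.1) := by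
    refine (sum_image_le _ _ (fun x : V × V => K.wt x.1) (fun x => K.wt_nonneg _)).trans ?_
    apply Finset.sum_le_sum_of_subset_of_nonneg
    · intro j hj
      rw [Finset.mem_filter] at hj ⊢
      exact ⟨hj.1, hj.2.1⟩
    · intro j _ _
      exact K.wt_nonneg _
  obtain ⟨F, hF1, hF2, hF3⟩ := hServ (D₁ ∪ D₂) (by
    intro x hx
    rcases Finset.mem_union.1 hx with h | h
    · exact hD₁seg x h
    · exact hD₂1 x h)
  refine ⟨F, hF1, hF2.trans ?_, ?_⟩
  · -- weights
    have hA : ∑ x ∈ Λ, pp K K' γ x * cst K K' (9 + N + 8 * S) x ≤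
        289 * (9 + N + 8 * S : ℕ) * (X.card * K'.v / (γ * K.v ^ 2)) := by
      calc ∑ x ∈ Λ, pp K K' γ x * cst K K' (9 + N + 8 * S) x
          ≤ ∑ x ∈ Λ, 17 * ((9 + N + 8 * S : ℕ) : ℝ) * (K.w x.1 * (K'.v / (γ * K.v))) := by
            apply Finset.sum_le_sum
            intro x hx
            exact pp_cst K K' hγ _ (Finset.mem_product.1 hx).1
        _ = 289 * ((9 + N + 8 * S : ℕ) : ℝ) * ((∑ k ∈ K.T, K.w k) * (K'.v / (γ * K.v))) := by
            rw [hΛ, Finset.sum_product]
            simp only [Finset.sum_const, Finset.card_range, nsmul_eq_mul]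
            rw [Finset.sum_mul, Finset.mul_sum]
            apply Finset.sum_congr rfl
            intro k _
            push_cast
            ring
        _ ≤ 289 * ((9 + N + 8 * S : ℕ) : ℝ) * ((X.card / K.v) * (K'.v / (γ * K.v))) := by
            apply mul_le_mul_of_nonneg_left _ (by positivity)
            exact mul_le_mul_of_nonneg_right K.sum_all (by positivity)
        _ = _ := by field_simp
    have hB : ∑ j ∈ I, K.wt (pt K j.1 j.2.1) *
        ∏ x ∈ labs K j.1 (side K j.1 j.2.1 j.2.2), (1 - pp K K' γ x) ≤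
        2 * γ * ∑ e ∈ D', K'.wt e.1 := by
      rw [hI, Finset.sum_sigma, Finset.mul_sum]
      apply Finset.sum_le_sum
      intro e he
      rw [Finset.sum_product_right]
      simp only [Fintype.sum_bool]
      have h1 := expect K K' hr hs hγ (hD' e he).1 (hD' e he).2 hvol true
      have h2 := expect K K' hr hs hγ (hD' e he).1 (hD' e he).2 hvol false
      linarith
    have hU := sum_union_le D₁ D₂ (fun x : V × V => K.wt x.1) (fun x => K.wt_nonneg _)
    have : ∑ x ∈ D₁ ∪ D₂, K.wt x.1 ≤ 289 * (9 + N + 8 * S : ℕ) *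
        (X.card * K'.v / (γ * K.v ^ 2)) + 2 * γ * ∑ e ∈ D', K'.wt e.1 := by
      linarith
    have := mul_le_mul_of_nonneg_left this hc
    linarith
  · -- error
    intro H hH hFH e he m hm
    have hserved := hF3 H hH hFH
    have hs1 : Served G D₁ E H := fun x hx => hserved x (Finset.mem_union_left _ hx)
    have hs2 : Served G D₂ E H := fun x hx => hserved x (Finset.mem_union_right _ hx)
    have key := error K K'.s S r N E hs hE (hD' e he).1 (hP H hH) (hfree H hH) hs1 R
      (by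
        intro t ht hn b hdis
        rw [hD₁, Finset.mem_image]
        refine ⟨⟨e, (t, b)⟩, ?_, rfl⟩
        rw [Finset.mem_filter, hI, Finset.mem_sigma, Finset.mem_product, Finset.mem_range]
        exact ⟨⟨he, ht, Finset.mem_univ _⟩, hdis, hn⟩)
      (hD₂3 H (hP H hH) (hfree H hH) hs2)
    refine key.mono ?_
    have := hm.dist_le
    omega

end Pool.Agent.H59.SP
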