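import Pool.Agent.H59.SP.Basic
import Pool.Agent.H59.SP.Vitali
import Pool.Agent.H59.SP.P1
import Pool.Agent.H59.SP.ServStep

/-!
# The service property on all levels
-/

namespace Pool.Agent.H59.SP

open Finset

universe u

theorem vv_pos {Δ : ℕ} (hΔ : 1 ≤ Δ) (j : ℕ) : 0 < vv Δ j := by
  induction j with
  | zero => simp [vv]
  | succ j ih => simp only [vv]; positivity

theorem Serv_mono {V : Type u} {G : SimpleGraph V} {X : Finset V} {K : HubSys G X}
    {P : SimpleGraph V → Prop} {a c : ℝ} {E E' : ℕ} (h : K.Serv P a c E) (hE : E ≤ E') :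
    K.Serv P a c E' := by
  intro D hD
  obtain ⟨F, h1, h2, h3⟩ := h D hD
  exact ⟨F, h1, h2, fun H hP hF x hx m hm => (h3 H hP hF x hx m hm).mono (by omega)⟩

theorem serv_all (S C : ℕ) (hS : 1 ≤ S) (l : ℕ) :
    ∃ (N : ℕ) (A : ℝ), 0 ≤ A ∧ ∀ (V : Type u) [Fintype V] (G : SimpleGraph V) (X : Finset V)
      (Δ : ℕ), 1 ≤ Δ → ∀ c : V → Option V, (∀ y K, c y = some K → K ∈ X ∧ G.Adj y K) →
      ∀ P : SimpleGraph V → Prop, (∀ H, P H → Span G S H ∧
        (∀ y y', c y = none → G.Adj y y' → H.Adj y y') ∧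
        ∀ j, 1 ≤ j → j ≤ l → PP G X Δ H j C) →
      ∀ Γ : ℝ, 1 ≤ Γ → ∀ r : ℕ, 32 ≤ r →
      ∃ (K : HubSys G X) (E : ℕ), K.s = r ^ l ∧ K.v = (vv Δ l : ℕ) ∧
        (1 ≤ l → ∀ y k, K.hub y = some k → (vol G X (4 * K.s) y : ℝ) ≤ K.w k * K.v) ∧
        (∀ H, P H → K.Free E H) ∧
        K.Serv P (A * (X.card * Δ ^ 2 / Γ)) ((2 * Γ) ^ (2 ^ l - 1)) E ∧
        (r + 20) * E ≤ N * K.s := by
  induction l with
  | zero =>
    refine ⟨0, 0, le_rfl, ?_⟩
    intro V _ G X Δ hΔ c hc P hP Γ hΓ r hr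
    obtain ⟨K, hs, hv, hJ, hhub, hT, hw⟩ := exists_hubOne G X c hc
    refine ⟨K, 0, by simpa using hs, by simpa [vv] using hv, by omega, ?_, ?_, by simp⟩
    · intro H hH
      refine free_one K hs H ?_
      rw [hhub]
      exact (hP H hH).2.1
    · have := serv_one K hs P
      simpa using this
  | succ l ih =>
    obtain ⟨N, A, hA, ih⟩ := ih
    refine ⟨2 * (3 * N + 33 * S + 20 + C), A + 289 * (9 + N + 8 * S : ℕ), by positivity, ?_⟩
    intro V _ G X Δ hΔ c hc P hP Γ hΓ r hr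
    have hP' : ∀ H, P H → Span G S H ∧ (∀ y y', c y = none → G.Adj y y' → H.Adj y y') ∧
        ∀ j, 1 ≤ j → j ≤ l → PP G X Δ H j C := fun H hH =>
      ⟨(hP H hH).1, (hP H hH).2.1, fun j h1 h2 => (hP H hH).2.2 j h1 (by omega)⟩
    obtain ⟨K, E, hKs, hKv, -, hfree, hserv, hE⟩ := ih V G X Δ hΔ c hc P hP' Γ hΓ r hr
    have hr0 : 0 < r := by omega
    obtain ⟨K', hKs', hKv', hnone, hsome⟩ := exists_hubSys G X (r ^ (l + 1)) (vv Δ (l + 1))
      (pow_pos hr0 _) (vv_pos hΔ _)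
    have hΓ0 : 0 < Γ := by linarith
    set cc : ℝ := (2 * Γ) ^ (2 ^ l - 1) with hcc
    have hcc1 : 1 ≤ cc := one_le_pow₀ (by linarith)
    have hcc0 : 0 < cc := by linarith
    have hstep := serv_step K K' S r N E hS hr (by rw [hKs', hKs, pow_succ]; ring) P
      (fun H hH => (hP H hH).1) _ cc hcc0.le hserv hfree hE
      (by rw [hKs', hKv']; exact hsome) (Γ * cc) (by nlinarith)
    refine ⟨K', (3 * N + 33 * S + 20 + C) * r ^ l, hKs', hKv', ?_, ?_, ?_, ?_⟩
    · intro _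
      rw [hKs', hKv']
      exact hsome
    · intro H hH y y' m hy hm hN
      have h1 := (hP H hH).2.2 (l + 1) (by omega) le_rfl y y' m r (by rw [hKs'] at hm; exact hm) hN
        (by
          refine le_trans ?_ (hnone y hy)
          exact vol_le_of_subset fun z hz => hz.mono (by rw [hKs'] at hm; omega))
      refine h1.mono ?_
      have : C * r ^ (l + 1 - 1) ≤ (3 * N + 33 * S + 20 + C) * r ^ l := by
        rw [Nat.add_sub_cancel]
        exact Nat.mul_le_mul_right _ (by omega)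
      omega
    · have h2 : (3 * N + 33 * S + 20) * K.s ≤ (3 * N + 33 * S + 20 + C) * r ^ l := by
        rw [hKs]
        exact Nat.mul_le_mul_right _ (by omega)
      have h3 := Serv_mono hstep h2
      have hv0 : (0 : ℝ) < (vv Δ l : ℕ) := by exact_mod_cast vv_pos hΔ l
      have e1 : A * (X.card * Δ ^ 2 / Γ) + cc * (289 * (9 + N + 8 * S : ℕ) *
          (X.card * K'.v / (Γ * cc * K.v ^ 2))) =
          (A + 289 * (9 + N + 8 * S : ℕ)) * (X.card * Δ ^ 2 / Γ) := by
        rw [hKv', hKv]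
        simp only [vv]
        push_cast
        field_simp
      have e2 : cc * (2 * (Γ * cc)) = (2 * Γ) ^ (2 ^ (l + 1) - 1) := by
        have h4 : 2 ^ (l + 1) - 1 = (2 ^ l - 1) + 1 + (2 ^ l - 1) := by
          have : 1 ≤ 2 ^ l := Nat.one_le_two_pow
          rw [pow_succ]
          omega
        rw [h4, pow_add, pow_add, ← hcc]
        ring
      rw [e1, e2] at h3
      exact h3
    · rw [hKs', pow_succ]
      calc (r + 20) * ((3 * N + 33 * S + 20 + C) * r ^ l)
          ≤ (2 * r) * ((3 * N + 33 * S + 20 + C) * r ^ l) := Nat.mul_le_mul_right _ (by omega)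
        _ = 2 * (3 * N + 33 * S + 20 + C) * (r ^ l * r) := by ring

end Pool.Agent.H59.SP
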