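import Pool.Agent.H59.SP.Basic
import Pool.Agent.H59.SP.ServAll
import Pool.Agent.H59.SP.Scale

/-!
# From level `i` to level `i + 1`
-/

namespace Pool.Agent.H59.SP

open Finset

universe u

theorem PP_mono {V : Type u} {G : SimpleGraph V} {X : Finset V} {Δ : ℕ} {H : SimpleGraph V}
    {i C C' : ℕ} (h : PP G X Δ H i C) (hC : C ≤ C') : PP G X Δ H i C' := by
  intro y y' m x h1 h2 h3
  refine (h y y' m x h1 h2 h3).mono ?_
  have : C * x ^ (i - 1) ≤ C' * x ^ (i - 1) := Nat.mul_le_mul_right _ hC
  omega

theorem dist_lt_card {V : Type u} [Fintype V] {G : SimpleGraph V} {x y : V}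
    (h : G.Reachable x y) : G.dist x y < Fintype.card V := by
  obtain ⟨p, hp, hlen⟩ := h.exists_path_of_dist
  rw [← hlen]
  exact hp.length_lt

theorem sum_inv_two (s : Finset ℕ) : ∑ a ∈ s, (1 : ℝ) / 2 ^ a ≤ 2 := by
  have h1 : Summable (fun a : ℕ => (1 : ℝ) / 2 ^ a) := by
    have := summable_geometric_two
    simpa [one_div] using this
  have h2 : ∑' a : ℕ, (1 : ℝ) / 2 ^ a = 2 := by
    have := tsum_geometric_two
    simpa [one_div] using this
  calc ∑ a ∈ s, (1 : ℝ) / 2 ^ a ≤ ∑' a : ℕ, (1 : ℝ) / 2 ^ a :=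
        h1.sum_le_tsum s (fun i _ => by positivity)
    _ = 2 := h2

/-- arithmetic for the choice of the scales -/
theorem arith1 (i Qc a : ℕ) (hi : 1 ≤ i) (ha : 3 * Qc ^ (2 * (i + 1)) ≤ 2 ^ a) (ha1 : 1 ≤ a) :
    3 * (Qc ^ 2 * (2 * 2 ^ a) ^ 2 ^ i) ^ (i + 1) ≤
      (2 ^ (a * (2 ^ (i + 1) * (i + 1) + 1))) ^ i := by
  have h1 : (Qc ^ 2 * (2 * 2 ^ a) ^ 2 ^ i) ^ (i + 1) =
      Qc ^ (2 * (i + 1)) * (2 * 2 ^ a) ^ (2 ^ i * (i + 1)) := by
    rw [mul_pow, ← pow_mul, ← pow_mul]
  have h2 : (2 * 2 ^ a : ℕ) ≤ 2 ^ (a * 2) := by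
    have h3 : (2 : ℕ) ^ 1 ≤ 2 ^ a := Nat.pow_le_pow_right (by norm_num) ha1
    calc 2 * 2 ^ a ≤ 2 ^ a * 2 ^ a := Nat.mul_le_mul_right _ (by simpa using h3)
      _ = 2 ^ (a * 2) := by rw [mul_two, pow_add]
  calc 3 * (Qc ^ 2 * (2 * 2 ^ a) ^ 2 ^ i) ^ (i + 1)
      = (3 * Qc ^ (2 * (i + 1))) * (2 * 2 ^ a) ^ (2 ^ i * (i + 1)) := by rw [h1]; ring
    _ ≤ 2 ^ a * (2 ^ (a * 2)) ^ (2 ^ i * (i + 1)) :=
        Nat.mul_le_mul ha (Nat.pow_le_pow_left h2 _)
    _ = 2 ^ (a * (2 ^ (i + 1) * (i + 1) + 1)) := by
        rw [← pow_mul, ← pow_add]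
        congr 1
        rw [pow_succ]
        ring
    _ = (2 ^ (a * (2 ^ (i + 1) * (i + 1) + 1))) ^ 1 := (pow_one _).symm
    _ ≤ (2 ^ (a * (2 ^ (i + 1) * (i + 1) + 1))) ^ i :=
        Nat.pow_le_pow_right (by positivity) hi

theorem level_step (S C i : ℕ) (hS : 1 ≤ S) (hi : 1 ≤ i) :
    ∃ (C' : ℕ) (A : ℝ), 0 ≤ A ∧ ∀ (V : Type u) [Fintype V] (G : SimpleGraph V) (X : Finset V)
      (Δ : ℕ), 1 ≤ Δ → ∀ c : V → Option V, (∀ y K, c y = some K → K ∈ X ∧ G.Adj y K) →
      ∃ F : Finset (Sym2 V), (F : Set (Sym2 V)) ⊆ G.edgeSet ∧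
        (F.card : ℝ) ≤ A * (X.card * Δ ^ 2) ∧
        ∀ H : SimpleGraph V, Span G S H → (∀ y y', c y = none → G.Adj y y' → H.Adj y y') →
          (∀ j, 1 ≤ j → j ≤ i → PP G X Δ H j C) → gr F ≤ H → PP G X Δ H (i + 1) C' := by
  classical
  obtain ⟨N, A0, hA0, hserv⟩ := serv_all.{u} S C hS i
  set Qc : ℕ := 2 * 16 ^ (i + 1) with hQc
  set b : ℕ := 2 ^ (i + 1) * (i + 1) + 1 with hb
  set a0 : ℕ := 3 * Qc ^ (2 * (i + 1)) + Qc + 14 + i + 1 + 5 with ha0
  set Kc : ℕ := 4 * N + 4 * C + 116 * S + 2 with hKc
  set C' : ℕ := S * 2 ^ (a0 * b * (i + 1)) + 2 * Kc * 2 ^ (b * i) with hC'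
  have hb1 : 1 ≤ b := by omega
  refine ⟨C', 2 * (A0 + 289 * (17 + N + 16 * S : ℕ)), by positivity, ?_⟩
  intro V _ G X Δ hΔ c hc
  -- the predicate
  set P : SimpleGraph V → Prop := fun H => Span G S H ∧
    (∀ y y', c y = none → G.Adj y y' → H.Adj y y') ∧ ∀ j, 1 ≤ j → j ≤ i → PP G X Δ H j C with hP
  have hv0 : (0 : ℝ) < (vv Δ i : ℕ) := by exact_mod_cast vv_pos hΔ i
  -- one scale
  have hscale : ∀ a : ℕ, a0 < a → ∃ F : Finset (Sym2 V), (F : Set (Sym2 V)) ⊆ G.edgeSet ∧
      (F.card : ℝ) ≤ (A0 + 289 * (17 + N + 16 * S : ℕ)) * (X.card * Δ ^ 2) * (1 / 2 ^ a) ∧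
      ∀ H : SimpleGraph V, P H → gr F ≤ H → ∀ u v, G.Reachable u v →
        2 ^ ((a - 1) * b * (i + 1)) < G.dist u v → G.dist u v ≤ 2 ^ (a * b * (i + 1)) →
        vol G X (3 * G.dist u v) u ≤ vv Δ (i + 1) →
        ∀ θ, (∀ a b, a ≤ b → b ≤ G.dist u v → Qc * (b - a) ≤ 2 * G.dist u v →
            Nr H (b - a + θ) (geo G u v a) (geo G u v b)) →
          Nr H (G.dist u v + 3 * θ + Kc * 2 ^ (a * b * i)) u v := by
    intro a haa
    set r : ℕ := 2 ^ (a * b) with hr
    have hab : a ≤ a * b := Nat.le_mul_of_pos_right a hb1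
    have hr32 : 32 ≤ r := by
      calc 32 = 2 ^ 5 := by norm_num
        _ ≤ 2 ^ (a * b) := Nat.pow_le_pow_right (by norm_num) (by omega)
    have hΓ1 : (1 : ℝ) ≤ 2 ^ a := one_le_pow₀ (by norm_num)
    obtain ⟨K, E, hKs, hKv, hvol, hfree, hsv, hE⟩ := hserv V G X Δ hΔ c hc P
      (fun H hH => hH) (2 ^ a) hΓ1 r hr32
    have hvol' := hvol hi
    set cc : ℝ := (2 * 2 ^ a) ^ (2 ^ i - 1) with hcc
    have hcc0 : 0 < cc := by positivity
    have h2i : 1 ≤ 2 ^ i := Nat.one_le_two_pow
    have ha2 : a < 2 ^ a := Nat.lt_two_pow_self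
    obtain ⟨F, hFG, hFc, hF⟩ := scale K Δ S C i E N Qc (Qc ^ 2 * (2 * 2 ^ a) ^ 2 ^ i)
      (r ^ (i + 1)) ((Qc + 14) * K.s) _ cc (2 ^ a) hS hi
      (by rw [hQc]; have : 0 < 16 ^ (i + 1) := by positivity
          omega)
      (Nat.one_le_iff_ne_zero.2 (by
        have : 0 < 16 ^ (i + 1) := by positivity
        have : 0 < Qc := by omega
        positivity))
      (by
        rw [hKs, hr]
        exact arith1 i Qc a hi (by omega) (by omega))
      hKv hvol' P (fun H hH => ⟨hH.1, hfree H hH, hH.2.2 i hi le_rfl⟩) hsv hcc0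
      (by positivity) (by
        have e1 : (2 * (Qc : ℝ) ^ 2 * (2 ^ a * cc)) = Qc ^ 2 * (2 * 2 ^ a) ^ (2 ^ i) := by
          have e2 : (2 : ℕ) ^ i = (2 ^ i - 1) + 1 := by omega
          rw [hcc]
          conv_rhs => rw [e2, pow_succ]
          ring
        rw [e1]
        push_cast
        exact le_rfl)
      (by
        have e1 : r ^ (i + 1) / K.s = r := by
          rw [hKs, pow_succ]
          exact Nat.mul_div_cancel_left _ (by positivity)
        rw [e1]
        refine le_trans (Nat.mul_le_mul_right _ (by omega)) hE)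
      le_rfl
    refine ⟨F, hFG, ?_, ?_⟩
    · refine hFc.trans (le_of_eq ?_)
      simp only [vv]
      push_cast
      field_simp
    · intro H hPH hFH u v huv h1 h2 h3 θ hθ
      have e1 : r ^ (i + 1) = 2 ^ (a * b * (i + 1)) := by rw [hr, ← pow_mul]
      have e2 : K.s = 2 ^ (a * b * i) := by rw [hKs, hr, ← pow_mul]
      have h4 := hF H hPH hFH u v huv (by
        rw [e2]
        refine le_trans ?_ h1.le
        have e3 : (Qc + 14 : ℕ) ≤ 2 ^ ((a - (i + 1) - 1) * b) := by
          have h5 : Qc + 14 < 2 ^ (Qc + 14) := Nat.lt_two_pow_self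
          refine h5.le.trans (Nat.pow_le_pow_right (by norm_num) ?_)
          have : a - (i + 1) - 1 ≤ (a - (i + 1) - 1) * b := Nat.le_mul_of_pos_right _ hb1
          omega
        calc (Qc + 14) * 2 ^ (a * b * i) ≤ 2 ^ ((a - (i + 1) - 1) * b) * 2 ^ (a * b * i) :=
              Nat.mul_le_mul_right _ e3
          _ = 2 ^ ((a - (i + 1) - 1) * b + a * b * i) := (pow_add _ _ _).symm
          _ ≤ 2 ^ ((a - 1) * b * (i + 1)) := by
              apply Nat.pow_le_pow_right (by norm_num)
              obtain ⟨z, rfl⟩ : ∃ z, a = z + (i + 1) + 1 := ⟨a - (i + 1) - 1, by omega⟩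
              have e4 : z + (i + 1) + 1 - (i + 1) - 1 = z := by omega
              have e5 : z + (i + 1) + 1 - 1 = z + (i + 1) := by omega
              rw [e4, e5]
              nlinarith [Nat.zero_le (b * i)]) (by rw [e1]; exact h2) h3 θ hθ
      rw [e2] at h4
      exact h4
  choose! F hFG hFc hF using hscale
  set n := Fintype.card V with hn
  set I : Finset ℕ := (range (n + 1)).filter (fun a => a0 < a) with hI
  refine ⟨I.biUnion F, ?_, ?_, ?_⟩
  · intro e he
    rw [Finset.coe_biUnion] at he
    simp only [Set.mem_iUnion] at he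
    obtain ⟨a, ha, hea⟩ := he
    have ha' := (mem_filter.1 (Finset.mem_coe.1 ha)).2
    exact hFG a ha' hea
  · calc ((I.biUnion F).card : ℝ) ≤ ∑ a ∈ I, ((F a).card : ℝ) := by
          exact_mod_cast Finset.card_biUnion_le
      _ ≤ ∑ a ∈ I, (A0 + 289 * (17 + N + 16 * S : ℕ)) * (X.card * Δ ^ 2) * (1 / 2 ^ a) :=
          Finset.sum_le_sum fun a ha => hFc a (mem_filter.1 ha).2
      _ = (A0 + 289 * (17 + N + 16 * S : ℕ)) * (X.card * Δ ^ 2) * ∑ a ∈ I, (1 : ℝ) / 2 ^ a := by
          rw [Finset.mul_sum]
      _ ≤ (A0 + 289 * (17 + N + 16 * S : ℕ)) * (X.card * Δ ^ 2) * 2 :=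
          mul_le_mul_of_nonneg_left (sum_inv_two I) (by positivity)
      _ = 2 * (A0 + 289 * (17 + N + 16 * S : ℕ)) * (X.card * Δ ^ 2) := by ring
  · intro H hspan hun hpp hFH
    have hPH : P H := ⟨hspan, hun, hpp⟩
    -- strong induction on the distance
    have key : ∀ d : ℕ, ∀ y y' x, G.Reachable y y' → G.dist y y' = d → d ≤ x ^ (i + 1) →
        vol G X (3 * d) y ≤ vv Δ (i + 1) → Nr H (d + C' * x ^ i) y y' := by
      intro d
      induction d using Nat.strong_induction_on with
      | _ d ih =>
        intro y y' x hreach hd hdx hvold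
        rcases Nat.eq_zero_or_pos d with hd0 | hd0
        · subst hd0
          have h1 : y = y' := nr_zero_iff.1 (by
            have := nr_of_reachable hreach
            rwa [hd] at this)
          rw [h1]
          exact Nr.refl _ _ _
        have hx1 : 1 ≤ x := by
          by_contra hcon
          have : x = 0 := by omega
          rw [this, zero_pow (by omega)] at hdx
          omega
        have hNd : Nr G d y y' := by
          have := nr_of_reachable hreach
          rwa [hd] at this
        rcases Nat.lt_or_ge (2 ^ (a0 * b * (i + 1))) d with hbig | hsmall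
        · -- find the scale
          have hex : ∃ a, d ≤ 2 ^ (a * b * (i + 1)) := by
            refine ⟨d, ?_⟩
            have h1 : d < 2 ^ d := Nat.lt_two_pow_self
            refine h1.le.trans (Nat.pow_le_pow_right (by norm_num) ?_)
            rw [mul_assoc]
            exact Nat.le_mul_of_pos_right _ (by positivity)
          set a := Nat.find hex with ha
          have ha1 := Nat.find_spec hex
          have ha2 : a0 < a := by
            by_contra hcon
            have h1 : 2 ^ (a * b * (i + 1)) ≤ 2 ^ (a0 * b * (i + 1)) := by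
              apply Nat.pow_le_pow_right (by norm_num)
              exact Nat.mul_le_mul_right _ (Nat.mul_le_mul_right _ (by omega))
            have h2 : d ≤ 2 ^ (a * b * (i + 1)) := ha1
            omega
          have ha3 : 2 ^ ((a - 1) * b * (i + 1)) < d := by
            have := Nat.find_min hex (m := a - 1) (by omega)
            omega
          have han : a ≤ d := Nat.find_min' hex (by
            have h1 : d < 2 ^ d := Nat.lt_two_pow_self
            refine h1.le.trans (Nat.pow_le_pow_right (by norm_num) ?_)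
            rw [mul_assoc]
            exact Nat.le_mul_of_pos_right _ (by positivity))
          have hdn : d < n := by
            have := dist_lt_card hreach
            rwa [hd] at this
          have haI : a ∈ I := by
            rw [hI, mem_filter, mem_range]
            exact ⟨by omega, ha2⟩
          have hFaH : gr (F a) ≤ H :=
            (gr_mono (Finset.subset_biUnion_of_mem F haI)).trans hFH
          -- x is large
          have hx16 : 16 ≤ x := by
            by_contra hcon
            have h1 : x ^ (i + 1) ≤ 16 ^ (i + 1) := Nat.pow_le_pow_left (by omega) _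
            have h2 : (16 : ℕ) ^ (i + 1) ≤ 2 ^ (a0 * b * (i + 1)) := by
              have : (16 : ℕ) = 2 ^ 4 := by norm_num
              rw [this, ← pow_mul]
              apply Nat.pow_le_pow_right (by norm_num)
              apply Nat.mul_le_mul_right
              calc 4 ≤ a0 := by omega
                _ ≤ a0 * b := Nat.le_mul_of_pos_right _ hb1
            omega
          set θ : ℕ := C' * (x / 16 + 1) ^ i with hθ
          have hgeo := geo_geo hreach
          rw [hd] at hgeo
          have hmain := hF a ha2 H hPH hFaH y y' hreach (by rw [hd]; exact ha3)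
            (by rw [hd]; exact ha1) (by rw [hd]; exact hvold) θ (by
              intro p q hpq hq hQ
              rw [hd] at hq hQ
              have hnear := hgeo.near p q hpq hq
              have hdist : G.dist (geo G y y' p) (geo G y y' q) = q - p := by
                apply le_antisymm hnear.dist_le
                exact hgeo.far p q _ hpq hq (nr_of_reachable hnear.reachable)
              have hlt : q - p < d := by
                by_contra hcon
                have h1 : Qc * d ≤ 2 * d := (Nat.mul_le_mul_left _ (not_lt.1 hcon)).trans hQ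
                have h2 : 3 ≤ Qc := by
                  rw [hQc]
                  have : 16 ≤ 16 ^ (i + 1) := by
                    calc (16 : ℕ) = 16 ^ 1 := by norm_num
                      _ ≤ 16 ^ (i + 1) := Nat.pow_le_pow_right (by norm_num) (by omega)
                  omega
                have h3 : 3 * d ≤ Qc * d := Nat.mul_le_mul_right _ h2
                omega
              have hnn : Nr G p y (geo G y y' p) := by
                have := hgeo.near 0 p (Nat.zero_le _) (hpq.trans hq)
                rwa [geo_zero hreach, Nat.sub_zero] at this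
              refine ih (q - p) hlt _ _ (x / 16 + 1) hnear.reachable hdist ?_ ?_
              · -- q - p ≤ (x/16+1)^(i+1)
                have h1 : Qc * (q - p) ≤ 2 * x ^ (i + 1) := hQ.trans (by omega)
                have h2 : 16 ^ (i + 1) * (q - p) ≤ x ^ (i + 1) := by
                  rw [hQc] at h1
                  have : 2 * 16 ^ (i + 1) * (q - p) = 2 * (16 ^ (i + 1) * (q - p)) := by ring
                  omega
                have h3 : x ^ (i + 1) ≤ 16 ^ (i + 1) * (x / 16 + 1) ^ (i + 1) := by
                  rw [← mul_pow]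
                  exact Nat.pow_le_pow_left (by omega) _
                exact Nat.le_of_mul_le_mul_left (h2.trans h3) (by positivity)
              · refine le_trans (vol_le hnn ?_) hvold
                have h1 : 3 * (q - p) ≤ Qc * (q - p) := Nat.mul_le_mul_right _ (by
                  rw [hQc]
                  have : 16 ≤ 16 ^ (i + 1) := by
                    calc (16 : ℕ) = 16 ^ 1 := by norm_num
                      _ ≤ 16 ^ (i + 1) := Nat.pow_le_pow_right (by norm_num) (by omega)
                  omega)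
                omega)
          rw [hd] at hmain
          refine hmain.mono ?_
          -- arithmetic
          have h1 : (x / 16 + 1) * 8 ≤ x := by omega
          have h2 : 8 * (x / 16 + 1) ^ i ≤ x ^ i := by
            calc 8 * (x / 16 + 1) ^ i ≤ 8 ^ i * (x / 16 + 1) ^ i := by
                  apply Nat.mul_le_mul_right
                  calc (8 : ℕ) = 8 ^ 1 := by norm_num
                    _ ≤ 8 ^ i := Nat.pow_le_pow_right (by norm_num) hi
              _ = ((x / 16 + 1) * 8) ^ i := by rw [mul_pow]; ring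
              _ ≤ x ^ i := Nat.pow_le_pow_left h1 _
          have h3 : 2 ^ ((a - 1) * b) < x := by
            by_contra hcon
            have h4 : x ^ (i + 1) ≤ (2 ^ ((a - 1) * b)) ^ (i + 1) :=
              Nat.pow_le_pow_left (not_lt.1 hcon) _
            rw [← pow_mul] at h4
            omega
          have h4 : 2 ^ (a * b * i) ≤ 2 ^ (b * i) * x ^ i := by
            have e1 : a * b * i = b * i + (a - 1) * b * i := by
              obtain ⟨z, hz⟩ : ∃ z, a = z + 1 := ⟨a - 1, by omega⟩
              rw [hz, Nat.add_sub_cancel]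
              ring
            rw [e1, pow_add]
            apply Nat.mul_le_mul_left
            rw [pow_mul]
            exact Nat.pow_le_pow_left h3.le _
          have h5 : 8 * θ ≤ C' * x ^ i := by
            calc 8 * θ = C' * (8 * (x / 16 + 1) ^ i) := by rw [hθ]; ring
              _ ≤ C' * x ^ i := Nat.mul_le_mul_left _ h2
          have h6 : 2 * (Kc * 2 ^ (a * b * i)) ≤ C' * x ^ i := by
            calc 2 * (Kc * 2 ^ (a * b * i)) ≤ 2 * (Kc * (2 ^ (b * i) * x ^ i)) := by
                  exact Nat.mul_le_mul_left _ (Nat.mul_le_mul_left _ h4)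
              _ = (2 * Kc * 2 ^ (b * i)) * x ^ i := by ring
              _ ≤ C' * x ^ i := Nat.mul_le_mul_right _ (by rw [hC']; omega)
          omega
        · refine (hspan d y y' hNd).mono ?_
          have h1 : S * d ≤ S * 2 ^ (a0 * b * (i + 1)) := Nat.mul_le_mul_left _ hsmall
          have h2 : S * 2 ^ (a0 * b * (i + 1)) ≤ C' := by rw [hC']; omega
          have h3 : C' * 1 ≤ C' * x ^ i := Nat.mul_le_mul_left _ (Nat.one_le_pow _ _ hx1)
          omega
    intro y y' m x hmx hN hvolm
    have hd := hN.dist_le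
    have h1 := key (G.dist y y') y y' x hN.reachable rfl (hd.trans hmx)
      (le_trans (vol_le_of_subset fun z hz => hz.mono (by omega)) hvolm)
    rw [Nat.add_sub_cancel]
    exact h1.mono (by omega)

end Pool.Agent.H59.SP
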