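import Pool.Agent.H59.SP.Basic

/-!
# Module MUL: a multiplicative spanner with `n Δ` edges, where `n ≤ Δ ^ L`

Proof (ball growing). Strong induction on `U.card` for the statement: for every `U : Finset V` there
is `F ⊆ E(G)` with `F.card ≤ Δ * U.card` such that for every edge `x y` of `G` with
`x ∈ U` and `y ∈ U`, `Nr (gr F) (2 * L) x y`. If `U = ∅`: `F = ∅`. Otherwise pick `x₀ ∈ U`; let
`B t` be the set of `y ∈ U` joined to `x₀` by a walk of length `≤ t` inside `U` (i.e. in the graph
`G ⊓ (complete graph on U)`, or define `B 0 = {x₀}`, `B (t+1) = B t ∪ {y ∈ U | ∃ z ∈ B t, G.Adj z y}`).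
There is `t < L` with `(B (t+1)).card ≤ Δ * (B t).card` (otherwise `(B L).card > Δ ^ L ≥ n`).
Let `F₀` consist of one edge `{y, parent y}` for every `y ∈ B (t+1)`, `y ≠ x₀`, where `parent y` is
in `B (l - 1)` for the least `l` with `y ∈ B l`; then `F₀.card ≤ (B (t+1)).card ≤ Δ * (B t).card`
and every `y ∈ B (t+1)` has `Nr (gr F₀) (t+1) x₀ y`. Apply the induction hypothesis to
`U \ B t` and take the union. An edge with both endpoints in `U \ B t` is fine by induction; if one
endpoint is in `B t`, both are in `B (t+1)`, and `2 * (t + 1) ≤ 2 * L`.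
Finally `Span` follows from the case of edges by induction on walks.
-/

namespace Pool.Agent.H59.SP

open Finset

variable {V : Type*}

/-- Balls around `x₀` inside `U`. -/
noncomputable def ball (G : SimpleGraph V) (U : Finset V) (x₀ : V) : ℕ → Finset V := by
  classical
  exact fun t => Nat.rec {x₀} (fun _ B => B ∪ U.filter (fun y => ∃ z ∈ B, G.Adj z y)) t

theorem ball_zero (G : SimpleGraph V) (U : Finset V) (x₀ : V) : ball G U x₀ 0 = {x₀} := rfl

theorem mem_ball_succ {G : SimpleGraph V} {U : Finset V} {x₀ y : V} {t : ℕ} :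
    y ∈ ball G U x₀ (t + 1) ↔
      y ∈ ball G U x₀ t ∨ (y ∈ U ∧ ∃ z ∈ ball G U x₀ t, G.Adj z y) := by
  classical
  have h : ball G U x₀ (t + 1) =
    ball G U x₀ t ∪ U.filter (fun y => ∃ z ∈ ball G U x₀ t, G.Adj z y) := by
    unfold ball
    congr!
  rw [h, Finset.mem_union, Finset.mem_filter]

theorem ball_sub_succ (G : SimpleGraph V) (U : Finset V) (x₀ : V) (t : ℕ) :
    ball G U x₀ t ⊆ ball G U x₀ (t + 1) := fun _ hy => mem_ball_succ.2 (Or.inl hy)

theorem ball_sub {G : SimpleGraph V} {U : Finset V} {x₀ : V} (hx : x₀ ∈ U) (t : ℕ) :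
    ball G U x₀ t ⊆ U := by
  induction t with
  | zero =>
    rw [ball_zero]
    simpa using hx
  | succ t ih =>
    intro y hy
    rcases mem_ball_succ.1 hy with h | h
    · exact ih h
    · exact h.1

/-- BFS tree of the ball of radius `t`. -/
theorem exists_tree (G : SimpleGraph V) (U : Finset V) (x₀ : V) (t : ℕ) :
    ∃ F : Finset (Sym2 V), (F : Set (Sym2 V)) ⊆ G.edgeSet ∧ F.card ≤ (ball G U x₀ t).card ∧
      ∀ y ∈ ball G U x₀ t, Nr (gr F) t x₀ y := by
  classical
  induction t with
  | zero =>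
    refine ⟨∅, by simp, by simp, ?_⟩
    intro y hy
    rw [ball_zero, Finset.mem_singleton] at hy
    rw [hy]
    exact Nr.refl _ _ _
  | succ t ih =>
    obtain ⟨F, hF, hFc, hFn⟩ := ih
    have hpar : ∀ y : V, ∃ z : V, y ∈ ball G U x₀ (t + 1) \ ball G U x₀ t →
        z ∈ ball G U x₀ t ∧ G.Adj z y := by
      intro y
      by_cases hy : y ∈ ball G U x₀ (t + 1) \ ball G U x₀ t
      · rw [Finset.mem_sdiff] at hy
        rcases mem_ball_succ.1 hy.1 with h | h
        · exact absurd h hy.2
        · obtain ⟨-, z, hz, hzy⟩ := h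
          exact ⟨z, fun _ => ⟨hz, hzy⟩⟩
      · exact ⟨y, fun h => absurd h hy⟩
    choose par hpar using hpar
    refine ⟨F ∪ (ball G U x₀ (t + 1) \ ball G U x₀ t).image (fun y => s(par y, y)), ?_, ?_, ?_⟩
    · intro e he
      rw [Finset.mem_coe, Finset.mem_union, Finset.mem_image] at he
      rcases he with he | ⟨y, hy, rfl⟩
      · exact hF he
      · exact (SimpleGraph.mem_edgeSet G).2 (hpar y hy).2
    · have h1 := Finset.card_union_le F
        ((ball G U x₀ (t + 1) \ ball G U x₀ t).image (fun y => s(par y, y)))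
      have h2 : ((ball G U x₀ (t + 1) \ ball G U x₀ t).image (fun y => s(par y, y))).card ≤
        (ball G U x₀ (t + 1) \ ball G U x₀ t).card := Finset.card_image_le
      have h3 := Finset.card_sdiff_add_card_eq_card (ball_sub_succ G U x₀ t)
      omega
    · intro y hy
      by_cases hyt : y ∈ ball G U x₀ t
      · exact ((hFn y hyt).mono_graph (gr_mono Finset.subset_union_left)).mono (Nat.le_succ t)
      · have hy' : y ∈ ball G U x₀ (t + 1) \ ball G U x₀ t := Finset.mem_sdiff.2 ⟨hy, hyt⟩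
        have h1 := (hFn (par y) (hpar y hy').1).mono_graph
          (gr_mono (Finset.subset_union_left (s₂ :=
            (ball G U x₀ (t + 1) \ ball G U x₀ t).image (fun y => s(par y, y)))))
        refine h1.trans (Nr.of_adj ?_)
        rw [gr_adj]
        refine ⟨?_, (hpar y hy').2.ne⟩
        rw [Finset.mem_union, Finset.mem_image]
        exact Or.inr ⟨y, hy', rfl⟩

/-- Some ball does not grow. -/
theorem exists_slow [Fintype V] (G : SimpleGraph V) (U : Finset V) (x₀ : V) (Δ L : ℕ)
    (hL : 1 ≤ L) (hn : Fintype.card V ≤ Δ ^ L) :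
    ∃ t < L, (ball G U x₀ (t + 1)).card ≤ Δ * (ball G U x₀ t).card := by
  by_contra hcon
  push Not at hcon
  have key : ∀ t, t ≤ L → Δ ^ t ≤ (ball G U x₀ t).card := by
    intro t
    induction t with
    | zero =>
      intro _
      rw [ball_zero]
      simp
    | succ t ih =>
      intro ht
      have h1 := ih (by omega)
      have h2 := hcon t (by omega)
      calc Δ ^ (t + 1) = Δ * Δ ^ t := by ring
        _ ≤ Δ * (ball G U x₀ t).card := Nat.mul_le_mul_left _ h1
        _ ≤ (ball G U x₀ (t + 1)).card := h2.le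
  obtain ⟨t, rfl⟩ : ∃ t, L = t + 1 := ⟨L - 1, by omega⟩
  have h1 := key t (by omega)
  have h2 := hcon t (by omega)
  have h3 : Δ ^ (t + 1) < (ball G U x₀ (t + 1)).card :=
    calc Δ ^ (t + 1) = Δ * Δ ^ t := by ring
      _ ≤ Δ * (ball G U x₀ t).card := Nat.mul_le_mul_left _ h1
      _ < (ball G U x₀ (t + 1)).card := h2
  have h4 : (ball G U x₀ (t + 1)).card ≤ Fintype.card V := Finset.card_le_univ _
  omega

theorem exists_span_aux [Fintype V] (G : SimpleGraph V) (Δ L : ℕ) (hL : 1 ≤ L)
    (hn : Fintype.card V ≤ Δ ^ L) (k : ℕ) :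
    ∀ U : Finset V, U.card = k → ∃ F : Finset (Sym2 V), (F : Set (Sym2 V)) ⊆ G.edgeSet ∧
      F.card ≤ Δ * U.card ∧ ∀ x ∈ U, ∀ y ∈ U, G.Adj x y → Nr (gr F) (2 * L) x y := by
  classical
  induction k using Nat.strong_induction_on with
  | _ k ih =>
    intro U hU
    rcases U.eq_empty_or_nonempty with rfl | ⟨x₀, hx₀⟩
    · exact ⟨∅, by simp, by simp, by simp⟩
    obtain ⟨t, htL, ht⟩ := exists_slow G U x₀ Δ L hL hn
    obtain ⟨F₀, hF₀, hF₀c, hF₀n⟩ := exists_tree G U x₀ (t + 1)
    have hmono0 : ∀ s, x₀ ∈ ball G U x₀ s := by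
      intro s
      induction s with
      | zero => rw [ball_zero]; simp
      | succ s ihs => exact ball_sub_succ G U x₀ s ihs
    have hsub := ball_sub (G := G) hx₀ t
    have hcard := Finset.card_sdiff_add_card_eq_card hsub
    have hpos : 0 < (ball G U x₀ t).card := Finset.card_pos.2 ⟨x₀, hmono0 t⟩
    obtain ⟨F₁, hF₁, hF₁c, hF₁n⟩ := ih (U \ ball G U x₀ t).card (by omega) _ rfl
    refine ⟨F₀ ∪ F₁, ?_, ?_, ?_⟩
    · rw [Finset.coe_union]
      exact Set.union_subset hF₀ hF₁
    · have h1 := Finset.card_union_le F₀ F₁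
      have h2 : Δ * U.card = Δ * (U \ ball G U x₀ t).card + Δ * (ball G U x₀ t).card := by
        rw [← hcard]
        ring
      omega
    · have key : ∀ x ∈ U, ∀ y ∈ U, G.Adj x y → x ∈ ball G U x₀ t →
          Nr (gr (F₀ ∪ F₁)) (2 * L) x y := by
        intro x _ y hy hxy hx
        have h1 := hF₀n x (ball_sub_succ G U x₀ t hx)
        have h2 := hF₀n y (mem_ball_succ.2 (Or.inr ⟨hy, x, hx, hxy⟩))
        have h3 := (h1.symm.trans h2).mono_graph
          (gr_mono (Finset.subset_union_left (s₂ := F₁)))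
        exact h3.mono (by omega)
      intro x hx y hy hxy
      by_cases hxt : x ∈ ball G U x₀ t
      · exact key x hx y hy hxy hxt
      by_cases hyt : y ∈ ball G U x₀ t
      · exact (key y hy x hx hxy.symm hyt).symm
      · exact (hF₁n x (Finset.mem_sdiff.2 ⟨hx, hxt⟩) y (Finset.mem_sdiff.2 ⟨hy, hyt⟩) hxy).mono_graph
          (gr_mono Finset.subset_union_right)

theorem span_of_adj {G H : SimpleGraph V} {S : ℕ}
    (h : ∀ x y, G.Adj x y → Nr H S x y) : Span G S H := by
  rintro m x y ⟨p, hp⟩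
  have key : ∀ {x y : V} (p : G.Walk x y), Nr H (S * p.length) x y := by
    intro x y p
    induction p with
    | nil => exact Nr.refl _ _ _
    | cons hadj q ih =>
      refine ((h _ _ hadj).trans ih).mono ?_
      rw [SimpleGraph.Walk.length_cons, Nat.mul_add, mul_one, Nat.add_comm]
  exact (key p).mono (Nat.mul_le_mul_left _ hp)

theorem exists_span [Fintype V] (G : SimpleGraph V) (Δ L : ℕ) (hΔ : 1 ≤ Δ)
    (hn : Fintype.card V ≤ Δ ^ L) :
    ∃ F : Finset (Sym2 V), (F : Set (Sym2 V)) ⊆ G.edgeSet ∧ F.card ≤ Fintype.card V * Δ ∧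
      ∀ H : SimpleGraph V, gr F ≤ H → Span G (2 * L) H := by
  classical
  rcases Nat.eq_zero_or_pos L with rfl | hL
  · refine ⟨∅, by simp, by simp, ?_⟩
    intro H _
    have hsub : Subsingleton V := by
      rw [pow_zero] at hn
      exact Fintype.card_le_one_iff_subsingleton.1 hn
    intro m x y _
    rw [Subsingleton.elim x y]
    exact Nr.refl _ _ _
  · obtain ⟨F, hF, hFc, hFn⟩ :=
      exists_span_aux G Δ L hL hn (Finset.univ : Finset V).card Finset.univ rfl
    refine ⟨F, hF, ?_, ?_⟩
    · rw [Finset.card_univ] at hFc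
      rw [Nat.mul_comm]
      exact hFc
    · intro H hH
      exact span_of_adj fun x y hxy =>
        (hFn x (Finset.mem_univ _) y (Finset.mem_univ _) hxy).mono_graph hH

end Pool.Agent.H59.SP
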