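import Pool.Agent.H59.SP.Basic
import Pool.Agent.H59.SP.MulSpan
import Pool.Agent.H59.SP.Clusters
import Pool.Agent.H59.SP.LevelStep

/-!
# All levels, and the theorem with natural parameters
-/

namespace Pool.Agent.H59.SP

open Finset

universe u

theorem all_levels (S : ℕ) (hS : 1 ≤ S) (i : ℕ) (hi : 1 ≤ i) :
    ∃ (C : ℕ) (A : ℝ), 0 ≤ A ∧ ∀ (V : Type u) [Fintype V] (G : SimpleGraph V) (X : Finset V)
      (Δ : ℕ), 1 ≤ Δ → ∀ c : V → Option V, (∀ y K, c y = some K → K ∈ X ∧ G.Adj y K) →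
      ∃ F : Finset (Sym2 V), (F : Set (Sym2 V)) ⊆ G.edgeSet ∧
        (F.card : ℝ) ≤ A * (X.card * Δ ^ 2) ∧
        ∀ H : SimpleGraph V, Span G S H → (∀ y y', c y = none → G.Adj y y' → H.Adj y y') →
          gr F ≤ H → ∀ j, 1 ≤ j → j ≤ i → PP G X Δ H j C := by
  classical
  induction i, hi using Nat.le_induction with
  | base =>
    refine ⟨20 * S + 20, 17 * (9 + 8 * S), by positivity, ?_⟩
    intro V _ G X Δ hΔ c hc
    obtain ⟨K, hs, hv, hJ, hhub, hT, hw⟩ := exists_hubOne G X c hc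
    obtain ⟨F, hFG, hFc, hF⟩ := exists_P1 K hs hJ hT hw (by rw [hhub]; exact hc) Δ S hS
    refine ⟨F, hFG, hFc, ?_⟩
    intro H hspan hun hFH j hj hj'
    obtain rfl : j = 1 := by omega
    exact hF H hspan (by rw [hhub]; exact hun) hFH
  | succ i hi ih =>
    obtain ⟨C, A, hA, ih⟩ := ih
    obtain ⟨C', A', hA', hstep⟩ := level_step.{u} S C i hS hi
    refine ⟨C + C', A + A', by positivity, ?_⟩
    intro V _ G X Δ hΔ c hc
    obtain ⟨F, hFG, hFc, hF⟩ := ih V G X Δ hΔ c hc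
    obtain ⟨F', hFG', hFc', hF'⟩ := hstep V G X Δ hΔ c hc
    refine ⟨F ∪ F', ?_, ?_, ?_⟩
    · rw [Finset.coe_union]
      exact Set.union_subset hFG hFG'
    · have h1 : ((F ∪ F').card : ℝ) ≤ F.card + F'.card := by
        exact_mod_cast Finset.card_union_le F F'
      calc ((F ∪ F').card : ℝ) ≤ F.card + F'.card := h1
        _ ≤ A * (X.card * Δ ^ 2) + A' * (X.card * Δ ^ 2) := add_le_add hFc hFc'
        _ = (A + A') * (X.card * Δ ^ 2) := by ring
    · intro H hspan hun hFH j hj hj'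
      have h1 := hF H hspan hun ((gr_mono Finset.subset_union_left).trans hFH)
      rcases Nat.lt_or_ge j (i + 1) with h2 | h2
      · exact PP_mono (h1 j hj (by omega)) (by omega)
      · obtain rfl : j = i + 1 := by omega
        exact PP_mono (hF' H hspan hun h1 ((gr_mono Finset.subset_union_right).trans hFH))
          (by omega)

theorem vv_eq (Δ : ℕ) (j : ℕ) : vv Δ j = Δ ^ (2 ^ (j + 1) - 2) := by
  induction j with
  | zero => simp [vv]
  | succ j ih =>
    simp only [vv]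
    rw [ih, ← pow_mul, ← pow_add]
    congr 1
    have h1 : 2 ≤ 2 ^ (j + 1) := by
      calc 2 = 2 ^ 1 := by norm_num
        _ ≤ 2 ^ (j + 1) := Nat.pow_le_pow_right (by norm_num) (by omega)
    have h2 : 2 ^ (j + 1 + 1) = 2 * 2 ^ (j + 1) := by rw [pow_succ]; ring
    omega

/-- The theorem with natural parameters. -/
theorem main_nat (k : ℕ) (hk : 1 ≤ k) :
    ∃ (C : ℕ) (A : ℝ), 0 ≤ A ∧ ∀ (V : Type u) [Fintype V] (G : SimpleGraph V) (Δ : ℕ), 1 ≤ Δ →
      Fintype.card V ≤ Δ ^ (2 ^ (k + 1) - 1) →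
      ∃ F : Finset (Sym2 V), (F : Set (Sym2 V)) ⊆ G.edgeSet ∧
        (F.card : ℝ) ≤ A * (Fintype.card V * Δ) ∧
        ∀ m x y y', m ≤ x ^ k → Nr G m y y' → Nr (gr F) (m + C * x ^ (k - 1)) y y' := by
  classical
  obtain ⟨C, A, hA, hall⟩ := all_levels.{u} (2 * (2 ^ (k + 1) - 1)) (by
    have : 2 ^ 1 ≤ 2 ^ (k + 1) := Nat.pow_le_pow_right (by norm_num) (by omega)
    omega) k hk
  refine ⟨C, 2 + A, by positivity, ?_⟩
  intro V _ G Δ hΔ hn
  obtain ⟨F1, hF1G, hF1c, hF1⟩ := exists_span G Δ (2 ^ (k + 1) - 1) hΔ hn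
  obtain ⟨X, c, F2, hF2G, hF2c, hX, hc, hF2⟩ := exists_clusters G Δ hΔ
  obtain ⟨F3, hF3G, hF3c, hF3⟩ := hall V G X Δ hΔ c hc
  refine ⟨F1 ∪ F2 ∪ F3, ?_, ?_, ?_⟩
  · rw [Finset.coe_union, Finset.coe_union]
    exact Set.union_subset (Set.union_subset hF1G hF2G) hF3G
  · have h1 : ((F1 ∪ F2 ∪ F3).card : ℝ) ≤ F1.card + F2.card + F3.card := by
      have h2 := Finset.card_union_le (F1 ∪ F2) F3
      have h3 := Finset.card_union_le F1 F2
      exact_mod_cast (by omega : (F1 ∪ F2 ∪ F3).card ≤ F1.card + F2.card + F3.card)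
    have h2 : (F1.card : ℝ) ≤ Fintype.card V * Δ := by exact_mod_cast hF1c
    have h3 : (F2.card : ℝ) ≤ Fintype.card V * Δ := by exact_mod_cast hF2c
    have h4 : ((X.card : ℝ) * Δ ^ 2) ≤ Fintype.card V * Δ := by
      have h5 : X.card * Δ ^ 2 ≤ Fintype.card V * Δ := by
        calc X.card * Δ ^ 2 = (X.card * Δ) * Δ := by ring
          _ ≤ Fintype.card V * Δ := Nat.mul_le_mul_right _ hX
      exact_mod_cast h5
    have h5 : A * (X.card * Δ ^ 2) ≤ A * (Fintype.card V * Δ) := mul_le_mul_of_nonneg_left h4 hA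
    calc ((F1 ∪ F2 ∪ F3).card : ℝ) ≤ F1.card + F2.card + F3.card := h1
      _ ≤ Fintype.card V * Δ + Fintype.card V * Δ + A * (Fintype.card V * Δ) := by linarith
      _ = (2 + A) * (Fintype.card V * Δ) := by ring
  · intro m x y y' hmx hN
    set F := F1 ∪ F2 ∪ F3 with hF
    have h1 : gr F1 ≤ gr F := gr_mono (by
      rw [hF]
      exact (Finset.subset_union_left).trans Finset.subset_union_left)
    have h3 : gr F3 ≤ gr F := gr_mono (by rw [hF]; exact Finset.subset_union_right)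
    have hPP := hF3 (gr F) (hF1 _ h1) (by
      intro z z' hz hadj
      rw [gr_adj]
      refine ⟨?_, hadj.ne⟩
      rw [hF]
      exact Finset.mem_union_left _ (Finset.mem_union_right _ (hF2 z z' hz hadj))) h3 k hk le_rfl
    refine hPP y y' m x hmx hN ?_
    refine vol_le_card.trans ?_
    rw [vv_eq]
    have h4 : X.card * Δ ≤ Δ ^ (2 ^ (k + 1) - 2) * Δ := by
      rw [← pow_succ]
      have h5 : 2 ^ (k + 1) - 2 + 1 = 2 ^ (k + 1) - 1 := by
        have : 2 ^ 1 ≤ 2 ^ (k + 1) := Nat.pow_le_pow_right (by norm_num) (by omega)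
        omega
      rw [h5]
      exact hX.trans hn
    exact Nat.le_of_mul_le_mul_right h4 (by omega)

/-- The theorem in the usual form. -/
theorem main_real (k : ℕ) (hk : 1 ≤ k) :
    ∃ C : ℝ, 0 ≤ C ∧ ∀ (V : Type u) [Fintype V] (G : SimpleGraph V),
      ∃ H : SimpleGraph V, H ≤ G ∧
        (H.edgeSet.ncard : ℝ) ≤
          C * (Fintype.card V : ℝ) ^ (1 + 1 / ((2 : ℝ) ^ (k + 1) - 1)) ∧
        ∀ u v : V, G.Reachable u v → H.Reachable u v ∧
          (H.dist u v : ℝ) ≤ G.dist u v + C * (G.dist u v : ℝ) ^ (1 - 1 / (k : ℝ)) := by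
  classical
  obtain ⟨C, A, hA, hmain⟩ := main_nat.{u} k hk
  set L : ℕ := 2 ^ (k + 1) - 1 with hL
  have hL1 : 1 ≤ L := by
    have : 2 ^ 1 ≤ 2 ^ (k + 1) := Nat.pow_le_pow_right (by norm_num) (by omega)
    omega
  have hLr : ((2 : ℝ) ^ (k + 1) - 1) = (L : ℝ) := by
    rw [hL, Nat.cast_sub Nat.one_le_two_pow]
    push_cast
    ring
  have hLpos : (0 : ℝ) < L := by exact_mod_cast hL1
  have hkpos : (0 : ℝ) < k := by exact_mod_cast hk
  refine ⟨2 * A + C * 2 ^ (k - 1), by positivity, ?_⟩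
  intro V _ G
  set n := Fintype.card V with hn
  rcases Nat.eq_zero_or_pos n with hn0 | hn0
  · have hem : IsEmpty V := Fintype.card_eq_zero_iff.1 hn0
    refine ⟨G, le_rfl, ?_, fun u => hem.elim u⟩
    have h1 : G.edgeSet = ∅ := by
      rw [Set.eq_empty_iff_forall_notMem]
      intro e
      induction e using Sym2.ind with
      | _ x y => exact hem.elim x
    rw [h1, Set.ncard_empty]
    push_cast
    positivity
  · have hn1 : (1 : ℝ) ≤ n := by exact_mod_cast hn0
    set Δ : ℕ := ⌈(n : ℝ) ^ ((1 : ℝ) / L)⌉₊ with hΔ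
    have hroot1 : (1 : ℝ) ≤ (n : ℝ) ^ ((1 : ℝ) / L) := Real.one_le_rpow hn1 (by positivity)
    have hΔ1 : 1 ≤ Δ := by
      have : (1 : ℝ) ≤ Δ := hroot1.trans (Nat.le_ceil _)
      exact_mod_cast this
    have hΔ2 : (Δ : ℝ) ≤ 2 * (n : ℝ) ^ ((1 : ℝ) / L) := by
      have := (Nat.ceil_lt_add_one (zero_le_one.trans hroot1)).le
      rw [← hΔ] at this
      linarith
    have hΔL : n ≤ Δ ^ L := by
      have h1 : (n : ℝ) = ((n : ℝ) ^ ((1 : ℝ) / L)) ^ L := by
        rw [← Real.rpow_natCast, ← Real.rpow_mul (by positivity)]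
        rw [one_div, inv_mul_cancel₀ hLpos.ne', Real.rpow_one]
      have h2 : ((n : ℝ) ^ ((1 : ℝ) / L)) ^ L ≤ (Δ : ℝ) ^ L :=
        pow_le_pow_left₀ (by positivity) (Nat.le_ceil _) _
      have h3 : (n : ℝ) ≤ (Δ : ℝ) ^ L := by
        rw [← h1] at h2
        exact h2
      exact_mod_cast h3
    obtain ⟨F, hFG, hFc, hF⟩ := hmain V G Δ hΔ1 hΔL
    have hgr : gr F ≤ G := gr_le hFG
    refine ⟨gr F, hgr, ?_, ?_⟩
    · have h1 : (gr F).edgeSet.ncard ≤ F.card := by
        have h2 : (gr F).edgeSet ⊆ (F : Set (Sym2 V)) := by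
          intro e he
          unfold gr at he
          rw [SimpleGraph.edgeSet_fromEdgeSet] at he
          exact he.1
        calc (gr F).edgeSet.ncard ≤ (F : Set (Sym2 V)).ncard :=
              Set.ncard_le_ncard h2 (Finset.finite_toSet F)
          _ = F.card := Set.ncard_coe_finset F
      have h2 : (n : ℝ) ^ (1 + 1 / (L : ℝ)) = n * (n : ℝ) ^ ((1 : ℝ) / L) := by
        rw [Real.rpow_add (by linarith), Real.rpow_one]
      rw [hLr, h2]
      have h3 : (0 : ℝ) ≤ n * (n : ℝ) ^ ((1 : ℝ) / L) := by positivity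
      calc ((gr F).edgeSet.ncard : ℝ) ≤ F.card := by exact_mod_cast h1
        _ ≤ A * (n * Δ) := hFc
        _ ≤ A * (n * (2 * (n : ℝ) ^ ((1 : ℝ) / L))) := by
            apply mul_le_mul_of_nonneg_left _ hA
            exact mul_le_mul_of_nonneg_left hΔ2 (by positivity)
        _ = 2 * A * (n * (n : ℝ) ^ ((1 : ℝ) / L)) := by ring
        _ ≤ (2 * A + C * 2 ^ (k - 1)) * (n * (n : ℝ) ^ ((1 : ℝ) / L)) := by
            apply mul_le_mul_of_nonneg_right _ h3
            have : (0 : ℝ) ≤ C * 2 ^ (k - 1) := by positivity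
            linarith
    · intro u v huv
      set d := G.dist u v with hd
      rcases Nat.eq_zero_or_pos d with hd0 | hd0
      · have huv' : u = v := by
          have h1 := nr_of_reachable huv
          rw [← hd, hd0] at h1
          exact nr_zero_iff.1 h1
        subst huv'
        refine ⟨SimpleGraph.Reachable.refl _, ?_⟩
        rw [SimpleGraph.dist_self]
        push_cast
        positivity
      · have hd1 : (1 : ℝ) ≤ d := by exact_mod_cast hd0
        set x : ℕ := ⌈(d : ℝ) ^ ((1 : ℝ) / k)⌉₊ with hx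
        have hr1 : (1 : ℝ) ≤ (d : ℝ) ^ ((1 : ℝ) / k) := Real.one_le_rpow hd1 (by positivity)
        have hx2 : (x : ℝ) ≤ 2 * (d : ℝ) ^ ((1 : ℝ) / k) := by
          have := (Nat.ceil_lt_add_one (zero_le_one.trans hr1)).le
          rw [← hx] at this
          linarith
        have hdx : d ≤ x ^ k := by
          have h1 : (d : ℝ) = ((d : ℝ) ^ ((1 : ℝ) / k)) ^ k := by
            rw [← Real.rpow_natCast, ← Real.rpow_mul (by positivity)]
            rw [one_div, inv_mul_cancel₀ hkpos.ne', Real.rpow_one]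
          have h2 : ((d : ℝ) ^ ((1 : ℝ) / k)) ^ k ≤ (x : ℝ) ^ k :=
            pow_le_pow_left₀ (by positivity) (Nat.le_ceil _) _
          have h3 : (d : ℝ) ≤ (x : ℝ) ^ k := by
            rw [← h1] at h2
            exact h2
          exact_mod_cast h3
        have h1 := hF d x u v hdx (nr_of_reachable huv)
        refine ⟨h1.reachable, ?_⟩
        have h2 : ((gr F).dist u v : ℝ) ≤ d + C * (x : ℝ) ^ (k - 1) := by
          exact_mod_cast h1.dist_le
        have h3 : (x : ℝ) ^ (k - 1) ≤ 2 ^ (k - 1) * (d : ℝ) ^ (1 - 1 / (k : ℝ)) := by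
          have h4 : (x : ℝ) ^ (k - 1) ≤ (2 * (d : ℝ) ^ ((1 : ℝ) / k)) ^ (k - 1) :=
            pow_le_pow_left₀ (by positivity) hx2 _
          have h5 : ((d : ℝ) ^ ((1 : ℝ) / k)) ^ (k - 1) = (d : ℝ) ^ (1 - 1 / (k : ℝ)) := by
            rw [← Real.rpow_natCast, ← Real.rpow_mul (by positivity), Nat.cast_sub hk]
            congr 1
            field_simp
            simp
          rw [mul_pow, h5] at h4
          exact h4
        have h6 : (0 : ℝ) ≤ (d : ℝ) ^ (1 - 1 / (k : ℝ)) := by positivity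
        calc ((gr F).dist u v : ℝ) ≤ d + C * (x : ℝ) ^ (k - 1) := h2
          _ ≤ d + C * (2 ^ (k - 1) * (d : ℝ) ^ (1 - 1 / (k : ℝ))) := by
              have := mul_le_mul_of_nonneg_left h3 (show (0 : ℝ) ≤ C by positivity)
              linarith
          _ = d + (C * 2 ^ (k - 1)) * (d : ℝ) ^ (1 - 1 / (k : ℝ)) := by ring
          _ ≤ d + (2 * A + C * 2 ^ (k - 1)) * (d : ℝ) ^ (1 - 1 / (k : ℝ)) := by
              have := mul_le_mul_of_nonneg_right
                (show (C : ℝ) * 2 ^ (k - 1) ≤ 2 * A + C * 2 ^ (k - 1) by linarith) h6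
              linarith

end Pool.Agent.H59.SP
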